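import Pool.Agent.W219.SP.Cor

/-!
Iterated sumsets: final forms.
-/

set_option autoImplicit false

namespace Pool.Agent.W219.SP

open Finset
open scoped Pointwise

theorem Mc_eq (k : ℕ) (hk : 1 ≤ k) (ε : ℝ) (hε : 0 < ε) (A : Finset ℤ) :
    Mc (ε / k) A = 4 * k / ε * Real.exp (6 * k / ε) * Real.log (2 * A.card) := by
  have hk0 : (0 : ℝ) < k := by exact_mod_cast hk
  have e1 : 4 / (ε / k) = 4 * k / ε := by field_simp
  have e2 : 6 / (ε / k) = 6 * k / ε := by field_simp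
  unfold Mc
  rw [e1, e2]

open Classical in
theorem fibre_k (k r : ℕ) (hk : 1 ≤ k) (hr : 1 ≤ r) (ε : ℝ) (hε : 0 < ε) (hε1 : ε ≤ 1)
    (t : Fin r → ℚ) (ht : ∀ i, 0 < t i) (A B : Finset ℤ) (hA : A.Nonempty) (hB : B.Nonempty)
    (M : ℝ) (hM : M = 4 * k / ε * Real.exp (6 * k / ε) * Real.log (2 * A.card))
    (hfib : ∀ a ∈ A, M ^ r ≤
      ((A.filter fun x : ℤ => ∃ n : Fin r → ℤ, (x : ℚ) = a * ∏ i, t i ^ n i).card : ℝ)) :
    ((A.card : ℝ) ^ k * B.card) ^ (1 - ε) ≤ (r * M + 1) ^ (2 * r * k) *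
      ((((Fintype.piFinset fun _ : Fin k => A).image fun f => ∑ i, f i) + B).card : ℝ) := by
  have hMc : Mc (ε / k) A = M := by rw [hM, Mc_eq k hk ε hε]
  have h := fibre k r hk hr ε hε hε1 t ht A hA (fun a ha => by
    rw [hMc, cG_grp t ht A a]
    exact hfib a ha) B hB
  rw [hMc] at h
  unfold ksum at h
  convert h

theorem dich_k (k r : ℕ) (hk : 1 ≤ k) (hr : 1 ≤ r) (ε : ℝ) (hε : 0 < ε) (hε1 : ε ≤ 1)
    (t : Fin r → ℚ) (ht : ∀ i, 0 < t i) (A P : Finset ℤ) (hA : A.Nonempty)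
    (hA0 : (0 : ℤ) ∉ A) (hP0 : (0 : ℤ) ∉ P) (hPn : P.Nonempty)
    (hP : ∀ q ∈ P, ∀ q' ∈ P, ∃ n : Fin r → ℤ, (q' : ℚ) = q * ∏ i, t i ^ n i)
    (M : ℝ) (hM : M = 4 * k / ε * Real.exp (6 * k / ε) * Real.log (2 * A.card))
    (hAP : 2 * M ^ r * (A * P).card ≤ (A.card : ℝ) * P.card)
    (B : Finset ℤ) (hB : B.Nonempty) :
    (((A.card : ℝ) / 2) ^ k * B.card) ^ (1 - ε) ≤ (r * M + 1) ^ (2 * r * k) *
      ((((Fintype.piFinset fun _ : Fin k => A).image fun f => ∑ i, f i) + B).card : ℝ) := by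
  have hMc : Mc (ε / k) A = M := by rw [hM, Mc_eq k hk ε hε]
  have h := dich k r hk hr ε hε hε1 t ht A P hA hA0 hP0 hPn hP (by
    rw [hMc]
    exact hAP) B hB
  rw [hMc] at h
  unfold ksum at h
  convert h

open Classical in
theorem kfold_k (k : ℕ) (hk : 1 ≤ k) (ε : ℝ) (hε : 0 < ε) (hε1 : ε ≤ 1) (t : ℚ) (h0 : t ≠ 0)
    (h1 : t ≠ 1) (h2 : t ≠ -1) (A B : Finset ℤ) (hA : A.Nonempty) (hB : B.Nonempty)
    (hfib : ∀ a ∈ A, 4 * k / ε * Real.exp (6 * k / ε) * Real.log (2 * A.card) ≤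
      ((A.filter fun x : ℤ => ∃ i : ℤ, (x : ℚ) = a * t ^ i).card : ℝ)) :
    ((A.card : ℝ) ^ k * B.card) ^ (1 - ε) ≤
      ((((Fintype.piFinset fun _ : Fin k => A).image fun f => ∑ i, f i) + B).card : ℝ) := by
  have h := kfold k hk ε hε hε1 t h0 h1 h2 A hA hfib B hB
  unfold ksum at h
  convert h

/-- sets with many `k`-fold products in a coset of a group of rank `r` -/
theorem part_k (k r : ℕ) (hk : 1 ≤ k) (hr : 1 ≤ r) (ε : ℝ) (hε : 0 < ε) (hε1 : ε ≤ 1)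
    (t : Fin r → ℚ) (ht : ∀ i, 0 < t i) (A P : Finset ℤ) (hA : A.Nonempty)
    (hA0 : (0 : ℤ) ∉ A)
    (hPA : P ⊆ (Fintype.piFinset fun _ : Fin k => A).image fun f => ∏ i, f i)
    (hPn : P.Nonempty)
    (hP : ∀ q ∈ P, ∀ q' ∈ P, ∃ n : Fin r → ℤ, (q' : ℚ) = q * ∏ i, t i ^ n i)
    (M : ℝ) (hM : M = 4 * ((k + 1 : ℕ) : ℝ) / ε * Real.exp (6 * ((k + 1 : ℕ) : ℝ) / ε) *
      Real.log (2 * A.card)) :
    min ((A.card : ℝ) * P.card / (2 * M ^ r))
      (((A.card : ℝ) / 2) ^ (((k + 1 : ℕ) : ℝ) * (1 - ε)) /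
        (r * M + 1) ^ (2 * r * (k + 1))) ≤
      max ((((Fintype.piFinset fun _ : Fin (k + 1) => A).image fun f => ∑ i, f i)).card : ℝ)
        ((((Fintype.piFinset fun _ : Fin (k + 1) => A).image fun f => ∏ i, f i)).card : ℝ) := by
  have hMc : Mc (ε / ((k + 1 : ℕ) : ℝ)) A = M := by rw [hM, Mc_eq (k + 1) (by omega) ε hε]
  have hkR : (1 : ℝ) ≤ ((k + 1 : ℕ) : ℝ) := by
    have : 1 ≤ k + 1 := by omega
    exact_mod_cast this
  have hk0 : (0 : ℝ) < ((k + 1 : ℕ) : ℝ) := by linarith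
  have hδ : 0 < ε / ((k + 1 : ℕ) : ℝ) := div_pos hε hk0
  have hδ1 : ε / ((k + 1 : ℕ) : ℝ) ≤ 1 := by
    rw [div_le_one hk0]
    linarith
  have hM2 : 2 ≤ M := by
    rw [← hMc]
    exact Mc_ge hδ hδ1 hA
  have hAc : (0 : ℝ) < A.card := by exact_mod_cast hA.card_pos
  have hrM : 0 < (r : ℝ) * M + 1 := by positivity
  have hP0 : (0 : ℤ) ∉ P := by
    intro h
    obtain ⟨f, hf, h0⟩ := Finset.mem_image.1 (hPA h)
    rw [Finset.prod_eq_zero_iff] at h0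
    obtain ⟨i, _, hi⟩ := h0
    rw [Fintype.mem_piFinset] at hf
    exact hA0 (hi ▸ hf i)
  have hsub : A * P ⊆ (Fintype.piFinset fun _ : Fin (k + 1) => A).image fun f => ∏ i, f i := by
    intro z hz
    obtain ⟨a, ha, q, hq, rfl⟩ := Finset.mem_mul.1 hz
    obtain ⟨f, hf, rfl⟩ := Finset.mem_image.1 (hPA hq)
    refine Finset.mem_image.2 ⟨Fin.cons a f, ?_, ?_⟩
    · rw [Fintype.mem_piFinset] at hf ⊢
      intro i
      refine Fin.cases ?_ (fun j => ?_) i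
      · simpa using ha
      · simpa using hf j
    · rw [Fin.prod_univ_succ]
      simp
  by_cases h : 2 * M ^ r * (A * P).card ≤ (A.card : ℝ) * P.card
  · have h1 := dich_k (k + 1) r (by omega) hr ε hε hε1 t ht A P hA hA0 hP0 hPn hP M hM h {0}
      (Finset.singleton_nonempty 0)
    refine (min_le_right _ _).trans (le_trans ?_ (le_max_left _ _))
    rw [div_le_iff₀ (by positivity)]
    rw [Finset.card_singleton, Nat.cast_one, mul_one, Finset.singleton_zero, add_zero,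
      mul_comm] at h1
    refine le_trans (le_of_eq ?_) h1
    rw [← Real.rpow_natCast, ← Real.rpow_mul (by positivity)]
  · push Not at h
    refine (min_le_left _ _).trans (le_trans ?_ (le_max_right _ _))
    rw [div_le_iff₀ (by positivity)]
    have h1 := mul_le_mul_of_nonneg_left
      (show ((A * P).card : ℝ) ≤
        (((Fintype.piFinset fun _ : Fin (k + 1) => A).image fun f => ∏ i, f i)).card by
        exact_mod_cast Finset.card_le_card hsub) (by positivity : 0 ≤ 2 * M ^ r)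
    linarith

end Pool.Agent.W219.SP
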