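import Mathlib

/-!
Fibres of logarithmic length do not suffice without a large constant.
-/

set_option autoImplicit false

namespace Pool.Agent.W219.SP

open Finset
open scoped Pointwise

/-- the union of the dilates of `[1, n]` by `1, 2, …, 2 ^ (m - 1)` -/
noncomputable def exA (n m : ℕ) : Finset ℤ :=
  (Finset.range m ×ˢ Finset.Icc (1 : ℤ) n).image fun w => w.2 * 2 ^ w.1

theorem mem_exA {n m : ℕ} {z : ℤ} :
    z ∈ exA n m ↔ ∃ i < m, ∃ x : ℤ, 1 ≤ x ∧ x ≤ n ∧ x * 2 ^ i = z := by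
  simp only [exA, Finset.mem_image, Finset.mem_product, Finset.mem_range, Finset.mem_Icc,
    Prod.exists]
  constructor
  · rintro ⟨i, x, ⟨hi, hx1, hx2⟩, rfl⟩
    exact ⟨i, hi, x, hx1, hx2, rfl⟩
  · rintro ⟨i, hi, x, hx1, hx2, rfl⟩
    exact ⟨i, x, ⟨hi, hx1, hx2⟩, rfl⟩

theorem exA_card_ge {n m : ℕ} (hm : 1 ≤ m) : n ≤ (exA n m).card := by
  have h : Finset.Icc (1 : ℤ) n ⊆ exA n m := by
    intro x hx
    rw [Finset.mem_Icc] at hx
    exact mem_exA.2 ⟨0, hm, x, hx.1, hx.2, by simp⟩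
  have := Finset.card_le_card h
  simpa using this

theorem exA_card_le (n m : ℕ) : (exA n m).card ≤ m * n := by
  refine Finset.card_image_le.trans ?_
  rw [Finset.card_product, Finset.card_range, Int.card_Icc]
  simp

theorem exA_add (n m : ℕ) (hm : 1 ≤ m) : (exA n m + exA n m).card ≤ 2 ^ m * n := by
  have h : exA n m + exA n m ⊆ Finset.Icc (1 : ℤ) ((2 ^ m * n : ℕ) : ℤ) := by
    have hb : ∀ z ∈ exA n m, 1 ≤ z ∧ z ≤ 2 ^ (m - 1) * n := by
      intro z hz
      obtain ⟨i, hi, x, hx1, hx2, rfl⟩ := mem_exA.1 hz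
      have h1 : (1 : ℤ) ≤ 2 ^ i := one_le_pow₀ (by norm_num)
      have h2 : (2 : ℤ) ^ i ≤ 2 ^ (m - 1) := pow_le_pow_right₀ (by norm_num) (by omega)
      constructor
      · nlinarith
      · nlinarith
    intro z hz
    obtain ⟨a, ha, b, hb', rfl⟩ := Finset.mem_add.1 hz
    have e1 := hb a ha
    have e2 := hb b hb'
    rw [Finset.mem_Icc]
    have e3 : (2 : ℤ) ^ m = 2 * 2 ^ (m - 1) := by
      rw [← pow_succ']
      congr 1
      omega
    push_cast
    rw [e3]
    constructor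
    · linarith
    · nlinarith
  have := Finset.card_le_card h
  rw [Int.card_Icc, add_sub_cancel_right, Int.toNat_natCast] at this
  exact this

open Classical in
theorem exA_fib (n m : ℕ) (a : ℤ) (ha : a ∈ exA n m) :
    m ≤ ((exA n m).filter fun x : ℤ => ∃ i : ℤ, (x : ℚ) = a * (2 : ℚ) ^ i).card := by
  obtain ⟨i, hi, x, hx1, hx2, rfl⟩ := mem_exA.1 ha
  have h : (Finset.range m).image (fun j => x * 2 ^ j) ⊆
      (exA n m).filter fun y : ℤ => ∃ k : ℤ, (y : ℚ) = ((x * 2 ^ i : ℤ) : ℚ) * (2 : ℚ) ^ k := by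
    intro y hy
    obtain ⟨j, hj, rfl⟩ := Finset.mem_image.1 hy
    rw [Finset.mem_range] at hj
    refine Finset.mem_filter.2 ⟨mem_exA.2 ⟨j, hj, x, hx1, hx2, rfl⟩, (j : ℤ) - i, ?_⟩
    push_cast
    rw [zpow_sub₀ (by norm_num), zpow_natCast, zpow_natCast]
    field_simp
  have h2 : ((Finset.range m).image (fun j => x * 2 ^ j)).card = m := by
    rw [Finset.card_image_of_injective, Finset.card_range]
    intro j j' hjj
    have hx0 : x ≠ 0 := by omega
    have := mul_left_cancel₀ hx0 hjj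
    exact Int.pow_right_injective (by norm_num) this
  calc m = ((Finset.range m).image (fun j => x * 2 ^ j)).card := h2.symm
    _ ≤ _ := Finset.card_le_card h

open Classical in
theorem sharp (c : ℝ) (hc : 0 < c) (hc1 : c ≤ 1) (N : ℕ) :
    ∃ A : Finset ℤ, N ≤ A.card ∧
      (∀ a ∈ A, c / 2 * Real.log A.card ≤
        ((A.filter fun x : ℤ => ∃ i : ℤ, (x : ℚ) = a * (2 : ℚ) ^ i).card : ℝ)) ∧
      ((A + A).card : ℝ) ≤ (A.card : ℝ) ^ (1 + c) := by
  have hL2 : 0 < Real.log 2 := Real.log_pos (by norm_num)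
  have hL2' : Real.log 2 < 0.7 := by
    have := Real.log_two_lt_d9
    linarith
  -- choose `n` large
  obtain ⟨n, hn1, hn2, hn3⟩ : ∃ n : ℕ, N ≤ n ∧ 2 ≤ n ∧ 4 / c ≤ Real.log n := by
    obtain ⟨n0, hn0⟩ := exists_nat_ge (Real.exp (4 / c))
    refine ⟨N + n0 + 2, by omega, by omega, ?_⟩
    rw [Real.le_log_iff_exp_le (by positivity)]
    push_cast
    have : (0 : ℝ) ≤ N := Nat.cast_nonneg N
    linarith
  have hnR : (2 : ℝ) ≤ n := by exact_mod_cast hn2
  have hn0 : (0 : ℝ) < n := by linarith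
  have hlogn : 0 < Real.log n := Real.log_pos (by linarith)
  have hcl : 4 ≤ c * Real.log n := by
    have := mul_le_mul_of_nonneg_left hn3 hc.le
    rwa [mul_div_cancel₀ _ hc.ne'] at this
  set m := ⌊c * Real.log n / Real.log 2⌋₊ with hm
  have hq0 : 0 ≤ c * Real.log n / Real.log 2 := by positivity
  have hm1 : (m : ℝ) ≤ c * Real.log n / Real.log 2 := Nat.floor_le hq0
  have hm2 : c * Real.log n / Real.log 2 - 1 < m := by
    have := Nat.lt_floor_add_one (c * Real.log n / Real.log 2)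
    linarith
  have hm3 : c * Real.log n ≤ m := by
    have h1 : c * Real.log n / 0.7 ≤ c * Real.log n / Real.log 2 :=
      div_le_div_of_nonneg_left (by linarith) hL2 hL2'.le
    have h2 : c * Real.log n / 0.7 = c * Real.log n * (10 / 7) := by ring
    rw [h2] at h1
    linarith
  have hmpos : 1 ≤ m := by
    have : (1 : ℝ) ≤ m := by linarith
    exact_mod_cast this
  have h2m : (2 : ℝ) ^ m ≤ (n : ℝ) ^ c := by
    rw [Real.rpow_def_of_pos hn0, ← Real.rpow_natCast, Real.rpow_def_of_pos (by norm_num),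
      Real.exp_le_exp]
    rw [le_div_iff₀ hL2] at hm1
    linarith
  have hmn : m ≤ n := by
    have h1 : (m : ℝ) < 2 ^ m := by exact_mod_cast Nat.lt_two_pow_self
    have h2 : (n : ℝ) ^ c ≤ (n : ℝ) ^ (1 : ℝ) :=
      Real.rpow_le_rpow_of_exponent_le (by linarith) hc1
    rw [Real.rpow_one] at h2
    have : (m : ℝ) ≤ n := by linarith
    exact_mod_cast this
  have hcard1 := exA_card_ge (n := n) hmpos
  have hcard2 := exA_card_le n m
  have hcardR : (n : ℝ) ≤ (exA n m).card := by exact_mod_cast hcard1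
  refine ⟨exA n m, hn1.trans hcard1, ?_, ?_⟩
  · intro a ha
    have h1 := exA_fib n m a ha
    have h2 : (m : ℝ) ≤ (((exA n m).filter fun x : ℤ =>
        ∃ i : ℤ, (x : ℚ) = a * (2 : ℚ) ^ i).card : ℝ) := by exact_mod_cast h1
    refine le_trans ?_ h2
    have h3 : Real.log (exA n m).card ≤ 2 * Real.log n := by
      have h4 : ((exA n m).card : ℝ) ≤ (n : ℝ) ^ 2 := by
        have h5 : (exA n m).card ≤ n * n := hcard2.trans (Nat.mul_le_mul_right n hmn)
        have : ((exA n m).card : ℝ) ≤ (n : ℝ) * n := by exact_mod_cast h5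
        rwa [sq]
      have h5 := Real.log_le_log (by linarith) h4
      rwa [Real.log_pow] at h5
    have h4 : c / 2 * Real.log (exA n m).card ≤ c / 2 * (2 * Real.log n) :=
      mul_le_mul_of_nonneg_left h3 (by positivity)
    linarith
  · have h1 : ((exA n m + exA n m).card : ℝ) ≤ 2 ^ m * n := by exact_mod_cast exA_add n m hmpos
    have h2 : (2 : ℝ) ^ m * n ≤ (n : ℝ) ^ c * n := mul_le_mul_of_nonneg_right h2m hn0.le
    have h3 : (n : ℝ) ^ c * n = (n : ℝ) ^ (1 + c) := by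
      rw [Real.rpow_add hn0, Real.rpow_one, mul_comm]
    have h4 : (n : ℝ) ^ (1 + c) ≤ ((exA n m).card : ℝ) ^ (1 + c) :=
      Real.rpow_le_rpow hn0.le hcardR (by linarith)
    linarith

end Pool.Agent.W219.SP
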