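import Pool.Agent.W219.SP.Gen
import Pool.Agent.W219.SP.Sharp

/-!
The case of two summands, and sets containing a large subset of a group of rank `r`.
-/

set_option autoImplicit false

namespace Pool.Agent.W219.SP

open Finset
open scoped Pointwise

theorem ksum_one (A : Finset ℤ) : ksum 1 A = A := by
  ext x
  simp only [ksum, Finset.mem_image, Fintype.mem_piFinset, Fin.sum_univ_one]
  constructor
  · rintro ⟨f, hf, rfl⟩
    exact hf 0
  · intro hx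
    exact ⟨fun _ => x, fun _ => hx, rfl⟩

open Classical in
theorem fibre_one (r : ℕ) (hr : 1 ≤ r) (ε : ℝ) (hε : 0 < ε) (hε1 : ε ≤ 1)
    (t : Fin r → ℚ) (ht : ∀ i, 0 < t i) (A B : Finset ℤ) (hA : A.Nonempty) (hB : B.Nonempty)
    (M : ℝ) (hM : M = 4 / ε * Real.exp (6 / ε) * Real.log (2 * A.card))
    (hfib : ∀ a ∈ A, M ^ r ≤
      ((A.filter fun x : ℤ => ∃ n : Fin r → ℤ, (x : ℚ) = a * ∏ i, t i ^ n i).card : ℝ)) :
    ((A.card : ℝ) * B.card) ^ (1 - ε) ≤ (r * M + 1) ^ (2 * r) * ((A + B).card : ℝ) := by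
  have hMc : Mc (ε / ((1 : ℕ) : ℝ)) A = M := by
    rw [hM, Nat.cast_one, div_one]
    rfl
  have h := fibre 1 r le_rfl hr ε hε hε1 t ht A hA (fun a ha => by
    rw [hMc, cG_grp t ht A a]
    exact hfib a ha) B hB
  rw [hMc, ksum_one, pow_one, mul_one] at h
  exact h

theorem dich_one (r : ℕ) (hr : 1 ≤ r) (ε : ℝ) (hε : 0 < ε) (hε1 : ε ≤ 1)
    (t : Fin r → ℚ) (ht : ∀ i, 0 < t i) (A P : Finset ℤ) (hA : A.Nonempty)
    (hA0 : (0 : ℤ) ∉ A) (hP0 : (0 : ℤ) ∉ P) (hPn : P.Nonempty)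
    (hP : ∀ q ∈ P, ∀ q' ∈ P, ∃ n : Fin r → ℤ, (q' : ℚ) = q * ∏ i, t i ^ n i)
    (M : ℝ) (hM : M = 4 / ε * Real.exp (6 / ε) * Real.log (2 * A.card))
    (hAP : 2 * M ^ r * (A * P).card ≤ (A.card : ℝ) * P.card)
    (B : Finset ℤ) (hB : B.Nonempty) :
    ((A.card : ℝ) * B.card / 2) ^ (1 - ε) ≤ (r * M + 1) ^ (2 * r) * ((A + B).card : ℝ) := by
  have hMc : Mc (ε / ((1 : ℕ) : ℝ)) A = M := by
    rw [hM, Nat.cast_one, div_one]
    rfl
  have h := dich 1 r le_rfl hr ε hε hε1 t ht A P hA hA0 hP0 hPn hP (by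
    rw [hMc]
    exact hAP) B hB
  rw [hMc, ksum_one, pow_one, mul_one] at h
  refine le_trans (le_of_eq ?_) h
  congr 1
  ring

/-- sets with a large subset in a coset of a group of rank `r` -/
theorem part_one (r : ℕ) (hr : 1 ≤ r) (ε : ℝ) (hε : 0 < ε) (hε1 : ε ≤ 1)
    (t : Fin r → ℚ) (ht : ∀ i, 0 < t i) (A P : Finset ℤ) (hA0 : (0 : ℤ) ∉ A) (hPA : P ⊆ A)
    (hPn : P.Nonempty)
    (hP : ∀ q ∈ P, ∀ q' ∈ P, ∃ n : Fin r → ℤ, (q' : ℚ) = q * ∏ i, t i ^ n i)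
    (M : ℝ) (hM : M = 4 / ε * Real.exp (6 / ε) * Real.log (2 * A.card)) :
    min ((A.card : ℝ) * P.card / (2 * M ^ r))
      (((A.card : ℝ) ^ 2 / 2) ^ (1 - ε) / (r * M + 1) ^ (2 * r)) ≤
      max ((A + A).card : ℝ) ((A * A).card : ℝ) := by
  have hA : A.Nonempty := hPn.mono hPA
  have hMc : Mc ε A = M := by
    rw [hM]
    rfl
  have hM2 : 2 ≤ M := by
    rw [← hMc]
    exact Mc_ge hε hε1 hA
  have hMr : 0 < M ^ r := by positivity
  have hrM : 0 < (r : ℝ) * M + 1 := by positivity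
  by_cases h : 2 * M ^ r * (A * P).card ≤ (A.card : ℝ) * P.card
  · have h1 := dich_one r hr ε hε hε1 t ht A P hA hA0 (fun h => hA0 (hPA h)) hPn hP M hM h A hA
    refine (min_le_right _ _).trans (le_trans ?_ (le_max_left _ _))
    rw [div_le_iff₀ (by positivity), mul_comm]
    rw [← sq] at h1
    exact h1
  · push Not at h
    refine (min_le_left _ _).trans (le_trans ?_ (le_max_right _ _))
    rw [div_le_iff₀ (by positivity)]
    have h1 : ((A * P).card : ℝ) ≤ (A * A).card := by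
      exact_mod_cast Finset.card_le_card (Finset.mul_subset_mul (Finset.Subset.refl A) hPA)
    have h2 := mul_le_mul_of_nonneg_left h1 (by positivity : 0 ≤ 2 * M ^ r)
    linarith

end Pool.Agent.W219.SP
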