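import Mathlib

/-!
Classes of a finite set of integers modulo `q`, averages over classes, Jensen's inequality for the
logarithm, and the weighted lower bound for a sumset in terms of the sumsets of the classes.
-/

set_option autoImplicit false

namespace Pool.Agent.W219.SP

open Finset
open scoped Pointwise

/-- the elements of `U` congruent to `x` modulo `q` -/
def cls (q : ℤ) (U : Finset ℤ) (x : ℤ) : Finset ℤ := U.filter fun x' => q ∣ x' - x

theorem mem_cls {q : ℤ} {U : Finset ℤ} {x y : ℤ} : y ∈ cls q U x ↔ y ∈ U ∧ q ∣ y - x := by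
  simp [cls]

theorem self_mem_cls {q : ℤ} {U : Finset ℤ} {x : ℤ} (hx : x ∈ U) : x ∈ cls q U x := by
  simp [cls, hx]

theorem cls_sub (q : ℤ) (U : Finset ℤ) (x : ℤ) : cls q U x ⊆ U := Finset.filter_subset _ _

theorem cls_pos {q : ℤ} {U : Finset ℤ} {x : ℤ} (hx : x ∈ U) : 0 < (cls q U x).card :=
  Finset.card_pos.2 ⟨x, self_mem_cls hx⟩

theorem cls_posR {q : ℤ} {U : Finset ℤ} {x : ℤ} (hx : x ∈ U) : (0 : ℝ) < (cls q U x).card := by
  exact_mod_cast cls_pos hx

theorem cls_congr {q : ℤ} {U : Finset ℤ} {x y : ℤ} (h : q ∣ y - x) : cls q U y = cls q U x := by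
  ext z
  simp only [mem_cls]
  constructor
  · rintro ⟨h1, h2⟩
    refine ⟨h1, ?_⟩
    have := dvd_add h2 h
    rwa [show z - y + (y - x) = z - x by ring] at this
  · rintro ⟨h1, h2⟩
    refine ⟨h1, ?_⟩
    have := dvd_sub h2 h
    rwa [show z - x - (y - x) = z - y by ring] at this

theorem dvd_swap {q x y : ℤ} (h : q ∣ x - y) : q ∣ y - x := by
  have := (dvd_neg (a := q)).2 h
  rwa [neg_sub] at this

/-- `∑ 1 / n(x) ≤ 1` over elements of one class -/
theorem sum_inv_le {q : ℤ} {U S : Finset ℤ} (hSU : S ⊆ U)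
    (hS : ∀ x ∈ S, ∀ y ∈ S, q ∣ x - y) :
    ∑ x ∈ S, (1 : ℝ) / (cls q U x).card ≤ 1 := by
  rcases S.eq_empty_or_nonempty with h | ⟨x0, hx0⟩
  · simp [h]
  have h1 : ∀ x ∈ S, (1 : ℝ) / (cls q U x).card = 1 / (cls q U x0).card := by
    intro x hx
    rw [cls_congr (hS x hx x0 hx0)]
  rw [Finset.sum_congr rfl h1, Finset.sum_const, nsmul_eq_mul]
  have h2 : S ⊆ cls q U x0 := fun x hx => mem_cls.2 ⟨hSU hx, hS x hx x0 hx0⟩
  have h3 : (S.card : ℝ) ≤ (cls q U x0).card := by exact_mod_cast Finset.card_le_card h2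
  have h4 := cls_posR (q := q) (hSU hx0)
  rw [mul_one_div, div_le_one h4]
  exact h3

/-- averages over the classes of an equivalence relation -/
theorem avg_gen (A : Finset ℤ) (C : ℤ → Finset ℤ) (hsub : ∀ a ∈ A, C a ⊆ A)
    (hself : ∀ a ∈ A, a ∈ C a) (hcong : ∀ a ∈ A, ∀ x ∈ C a, C x = C a) (f : ℤ → ℝ) :
    ∑ a ∈ A, (1 / ((C a).card : ℝ)) * ∑ x ∈ C a, f x = ∑ x ∈ A, f x := by
  have h1 : ∀ a ∈ A, (1 / ((C a).card : ℝ)) * ∑ x ∈ C a, f x =
      ∑ x ∈ A, if x ∈ C a then (1 / ((C a).card : ℝ)) * f x else 0 := by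
    intro a ha
    rw [Finset.mul_sum, ← Finset.sum_filter]
    refine Finset.sum_congr ?_ fun _ _ => rfl
    ext x
    simp only [Finset.mem_filter]
    exact ⟨fun h => ⟨hsub a ha h, h⟩, fun h => h.2⟩
  rw [Finset.sum_congr rfl h1, Finset.sum_comm]
  refine Finset.sum_congr rfl fun x hx => ?_
  have h2 : ∀ a ∈ A, (if x ∈ C a then (1 / ((C a).card : ℝ)) * f x else 0) =
      if a ∈ C x then (1 / ((C x).card : ℝ)) * f x else 0 := by
    intro a ha
    by_cases h : x ∈ C a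
    · have h3 := hcong a ha x h
      have h4 : a ∈ C x := by rw [h3]; exact hself a ha
      rw [if_pos h, if_pos h4, h3]
    · have h4 : a ∉ C x := by
        intro h5
        have h6 := hcong x hx a h5
        exact h (by rw [h6]; exact hself x hx)
      rw [if_neg h, if_neg h4]
  rw [Finset.sum_congr rfl h2, ← Finset.sum_filter]
  have h3 : A.filter (fun a => a ∈ C x) = C x := by
    ext a
    simp only [Finset.mem_filter]
    exact ⟨fun h => h.2, fun h => ⟨hsub x hx h, h⟩⟩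
  rw [h3, Finset.sum_const, nsmul_eq_mul]
  have h4 : (0 : ℝ) < (C x).card := by
    exact_mod_cast Finset.card_pos.2 ⟨x, hself x hx⟩
  field_simp

theorem avg_cls (q : ℤ) (A : Finset ℤ) (f : ℤ → ℝ) :
    ∑ a ∈ A, (1 / ((cls q A a).card : ℝ)) * ∑ x ∈ cls q A a, f x = ∑ x ∈ A, f x :=
  avg_gen A (cls q A) (fun a _ => cls_sub q A a) (fun _ ha => self_mem_cls ha)
    (fun _ _ _ hx => cls_congr (mem_cls.1 hx).2) f

theorem jensen {ι : Type*} (s : Finset ι) (z : ι → ℝ) (hz : ∀ i ∈ s, 0 < z i) (Z : ℝ)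
    (hZ : 0 < Z) (h : ∑ i ∈ s, z i ≤ s.card * Z) :
    ∑ i ∈ s, Real.log (z i) ≤ s.card * Real.log Z := by
  have h1 : ∀ i ∈ s, Real.log (z i) ≤ Real.log Z + (z i / Z - 1) := by
    intro i hi
    have h2 := Real.log_le_sub_one_of_pos (div_pos (hz i hi) hZ)
    rw [Real.log_div (hz i hi).ne' hZ.ne'] at h2
    linarith
  calc ∑ i ∈ s, Real.log (z i) ≤ ∑ i ∈ s, (Real.log Z + (z i / Z - 1)) := Finset.sum_le_sum h1
    _ = s.card * Real.log Z + ((∑ i ∈ s, z i) / Z - s.card) := by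
        rw [Finset.sum_add_distrib, Finset.sum_sub_distrib, Finset.sum_const, Finset.sum_const,
          nsmul_eq_mul, nsmul_eq_mul, ← Finset.sum_div]
        ring
    _ ≤ s.card * Real.log Z := by
        have : (∑ i ∈ s, z i) / Z ≤ s.card := by rwa [div_le_iff₀ hZ]
        linarith

/-- the weighted lower bound for a sumset -/
theorem weight (q : ℤ) (U V : Finset ℤ) (θ : ℤ → ℤ → ℝ) (h0 : ∀ x ∈ U, ∀ y ∈ V, 0 ≤ θ x y)
    (h : ∀ s : ℤ, ∑ x ∈ U, ∑ y ∈ V,
      (if q ∣ x + y - s then θ x y * (1 / (cls q U x).card) * (1 / (cls q V y).card) else 0) ≤ 1) :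
    ∑ x ∈ U, ∑ y ∈ V, θ x y * (1 / (cls q U x).card) * (1 / (cls q V y).card) *
      ((cls q U x + cls q V y).card : ℝ) ≤ (U + V).card := by
  have h1 : ∀ x ∈ U, ∀ y ∈ V, θ x y * (1 / (cls q U x).card) * (1 / (cls q V y).card) *
      ((cls q U x + cls q V y).card : ℝ) ≤ ∑ s ∈ U + V,
      (if q ∣ x + y - s then θ x y * (1 / (cls q U x).card) * (1 / (cls q V y).card) else 0) := by
    intro x hx y hy
    have h2 : cls q U x + cls q V y ⊆ (U + V).filter fun s => q ∣ x + y - s := by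
      intro s hs
      obtain ⟨a, ha, b, hb, rfl⟩ := Finset.mem_add.1 hs
      rw [mem_cls] at ha hb
      refine Finset.mem_filter.2 ⟨Finset.add_mem_add ha.1 hb.1, ?_⟩
      have := dvd_add (dvd_swap ha.2) (dvd_swap hb.2)
      rwa [show x - a + (y - b) = x + y - (a + b) by ring] at this
    rw [← Finset.sum_filter, Finset.sum_const, nsmul_eq_mul, mul_comm]
    have h3 : ((cls q U x + cls q V y).card : ℝ) ≤
        ((U + V).filter fun s => q ∣ x + y - s).card := by
      exact_mod_cast Finset.card_le_card h2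
    refine mul_le_mul_of_nonneg_right h3 ?_
    have := h0 x hx y hy
    positivity
  calc ∑ x ∈ U, ∑ y ∈ V, θ x y * (1 / (cls q U x).card) * (1 / (cls q V y).card) *
      ((cls q U x + cls q V y).card : ℝ) ≤ ∑ x ∈ U, ∑ y ∈ V, ∑ s ∈ U + V,
      (if q ∣ x + y - s then θ x y * (1 / (cls q U x).card) * (1 / (cls q V y).card) else 0) :=
        Finset.sum_le_sum fun x hx => Finset.sum_le_sum fun y hy => h1 x hx y hy
    _ = ∑ s ∈ U + V, ∑ x ∈ U, ∑ y ∈ V,
      (if q ∣ x + y - s then θ x y * (1 / (cls q U x).card) * (1 / (cls q V y).card) else 0) := by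
        rw [Finset.sum_congr rfl fun x _ => Finset.sum_comm, Finset.sum_comm]
    _ ≤ ∑ s ∈ U + V, 1 := Finset.sum_le_sum fun s _ => h s
    _ = (U + V).card := by simp

end Pool.Agent.W219.SP
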