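import Pool.Agent.W219.SP.Basic

/-!
The one-level inequality: a lower bound for the logarithm of `|U + V| / (|U| |V|)` by the average of
the same quantity over pairs of classes modulo `q`.
-/

set_option autoImplicit false

namespace Pool.Agent.W219.SP

open Finset
open scoped Pointwise

/-- entropy of the class modulo `q` of a uniformly random element of `U` -/
noncomputable def ent (q : ℤ) (U : Finset ℤ) : ℝ :=
  (∑ x ∈ U, Real.log (U.card / (cls q U x).card)) / U.card

/-- `|U_x + V_y| / (|U_x| |V_y|)` -/
noncomputable def Gam (q : ℤ) (U V : Finset ℤ) (x y : ℤ) : ℝ :=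
  ((cls q U x + cls q V y).card : ℝ) / ((cls q U x).card * (cls q V y).card)

theorem Gam_pos {q : ℤ} {U V : Finset ℤ} {x y : ℤ} (hx : x ∈ U) (hy : y ∈ V) :
    0 < Gam q U V x y := by
  have h1 := cls_posR (q := q) hx
  have h2 := cls_posR (q := q) hy
  have h3 : (0 : ℝ) < (cls q U x + cls q V y).card := by
    exact_mod_cast Finset.card_pos.2
      (Finset.Nonempty.add ⟨x, self_mem_cls hx⟩ ⟨y, self_mem_cls hy⟩)
  exact div_pos h3 (mul_pos h1 h2)

theorem log_ratio_nonneg {q : ℤ} {U : Finset ℤ} {x : ℤ} (hx : x ∈ U) :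
    0 ≤ Real.log (U.card / (cls q U x).card) := by
  refine Real.log_nonneg ?_
  rw [le_div_iff₀ (cls_posR hx), one_mul]
  exact_mod_cast Finset.card_le_card (cls_sub q U x)

theorem ent_nonneg (q : ℤ) (U : Finset ℤ) : 0 ≤ ent q U :=
  div_nonneg (Finset.sum_nonneg fun _ hx => log_ratio_nonneg hx) (Nat.cast_nonneg _)

theorem card_mul_ent (q : ℤ) {U : Finset ℤ} (hU : U.Nonempty) :
    (U.card : ℝ) * ent q U = ∑ x ∈ U, Real.log (U.card / (cls q U x).card) := by
  have : (U.card : ℝ) ≠ 0 := by exact_mod_cast hU.card_pos.ne'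
  unfold ent
  field_simp

theorem row_le (q : ℤ) (U : Finset ℤ) (c : ℤ) :
    ∑ x ∈ U, (if q ∣ x - c then (1 : ℝ) / (cls q U x).card else 0) ≤ 1 := by
  rw [← Finset.sum_filter]
  refine sum_inv_le (Finset.filter_subset _ _) ?_
  intro x hx y hy
  have h1 := (Finset.mem_filter.1 hx).2
  have h2 := (Finset.mem_filter.1 hy).2
  have := dvd_sub h1 h2
  rwa [show x - c - (y - c) = x - y by ring] at this

theorem cond1 (q : ℤ) (U V : Finset ℤ) (hV : V.Nonempty) (s : ℤ) :
    ∑ x ∈ U, ∑ y ∈ V, (if q ∣ x + y - s then (1 : ℝ) / V.card * (1 / (cls q U x).card) else 0)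
      ≤ 1 := by
  rw [Finset.sum_comm]
  have hV0 : (0 : ℝ) < V.card := by exact_mod_cast hV.card_pos
  have h1 : ∀ y ∈ V,
      ∑ x ∈ U, (if q ∣ x + y - s then (1 : ℝ) / V.card * (1 / (cls q U x).card) else 0) ≤
        1 / V.card := by
    intro y _
    have h2 := row_le q U (s - y)
    calc ∑ x ∈ U, (if q ∣ x + y - s then (1 : ℝ) / V.card * (1 / (cls q U x).card) else 0)
        = 1 / V.card * ∑ x ∈ U, (if q ∣ x - (s - y) then (1 : ℝ) / (cls q U x).card else 0) := by
          rw [Finset.mul_sum]
          refine Finset.sum_congr rfl fun x _ => ?_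
          rw [show x + y - s = x - (s - y) by ring]
          split_ifs <;> simp
      _ ≤ 1 / V.card * 1 := mul_le_mul_of_nonneg_left h2 (by positivity)
      _ = 1 / V.card := mul_one _
  refine (Finset.sum_le_sum h1).trans ?_
  rw [Finset.sum_const, nsmul_eq_mul]
  field_simp
  exact le_refl _

theorem cond2 (q : ℤ) (U V : Finset ℤ) (hU : U.Nonempty) (s : ℤ) :
    ∑ x ∈ U, ∑ y ∈ V, (if q ∣ x + y - s then (1 : ℝ) / U.card * (1 / (cls q V y).card) else 0)
      ≤ 1 := by
  have h := cond1 q V U hU s
  rw [Finset.sum_comm] at h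
  refine le_trans (le_of_eq ?_) h
  refine Finset.sum_congr rfl fun x _ => Finset.sum_congr rfl fun y _ => ?_
  rw [add_comm x y]

/-- Jensen's inequality for a system of weights -/
theorem cell_gen (q : ℤ) (U V : Finset ℤ) (hU : U.Nonempty) (hV : V.Nonempty) (θ : ℤ → ℤ → ℝ)
    (h0 : ∀ x ∈ U, ∀ y ∈ V, 0 < θ x y)
    (h : ∀ s : ℤ, ∑ x ∈ U, ∑ y ∈ V,
      (if q ∣ x + y - s then θ x y * (1 / (cls q U x).card) * (1 / (cls q V y).card) else 0) ≤ 1) :
    ∑ x ∈ U, ∑ y ∈ V, (Real.log (θ x y) + Real.log (Gam q U V x y)) ≤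
      U.card * V.card * Real.log ((U + V).card / (U.card * V.card)) := by
  have hU0 : (0 : ℝ) < U.card := by exact_mod_cast hU.card_pos
  have hV0 : (0 : ℝ) < V.card := by exact_mod_cast hV.card_pos
  have hUV0 : (0 : ℝ) < (U + V).card := by exact_mod_cast (hU.add hV).card_pos
  have hw := weight q U V θ (fun x hx y hy => (h0 x hx y hy).le) h
  have hj := jensen (U ×ˢ V) (fun z => θ z.1 z.2 * Gam q U V z.1 z.2)
    (fun z hz => mul_pos (h0 z.1 (Finset.mem_product.1 hz).1 z.2 (Finset.mem_product.1 hz).2)
      (Gam_pos (Finset.mem_product.1 hz).1 (Finset.mem_product.1 hz).2))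
    ((U + V).card / (U.card * V.card)) (by positivity) (by
      rw [Finset.sum_product, Finset.card_product]
      push_cast
      rw [mul_div_cancel₀ _ (by positivity)]
      refine le_trans (le_of_eq ?_) hw
      refine Finset.sum_congr rfl fun x hx => Finset.sum_congr rfl fun y hy => ?_
      have h1 := cls_posR (q := q) hx
      have h2 := cls_posR (q := q) hy
      unfold Gam
      field_simp)
  rw [Finset.sum_product, Finset.card_product] at hj
  push_cast at hj
  refine le_trans (le_of_eq ?_) hj
  refine Finset.sum_congr rfl fun x hx => Finset.sum_congr rfl fun y hy => ?_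
  rw [Real.log_mul (h0 x hx y hy).ne' (Gam_pos hx hy).ne']

theorem cell1 (q : ℤ) (U V : Finset ℤ) (hU : U.Nonempty) (hV : V.Nonempty) :
    ∑ x ∈ U, ∑ y ∈ V, Real.log (Gam q U V x y) ≤
      U.card * V.card * (Real.log ((U + V).card / (U.card * V.card)) + ent q V) := by
  have hV0 : (0 : ℝ) < V.card := by exact_mod_cast hV.card_pos
  have h := cell_gen q U V hU hV (fun _ y => (cls q V y).card / V.card)
    (fun x _ y hy => div_pos (cls_posR hy) hV0) (by
      intro s
      refine le_trans (le_of_eq ?_) (cond1 q U V hV s)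
      refine Finset.sum_congr rfl fun x _ => Finset.sum_congr rfl fun y hy => ?_
      have h2 := cls_posR (q := q) hy
      split_ifs
      · field_simp
      · rfl)
  have h3 : ∑ x ∈ U, ∑ y ∈ V, (Real.log ((cls q V y).card / V.card) +
      Real.log (Gam q U V x y)) = - (U.card * (V.card * ent q V)) +
      ∑ x ∈ U, ∑ y ∈ V, Real.log (Gam q U V x y) := by
    rw [card_mul_ent q hV]
    simp only [Finset.sum_add_distrib, Finset.sum_const, nsmul_eq_mul]
    congr 1
    rw [← mul_neg, ← Finset.sum_neg_distrib]
    congr 1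
    refine Finset.sum_congr rfl fun y _ => ?_
    rw [← Real.log_inv, inv_div]
  rw [h3] at h
  linarith

theorem cell2 (q : ℤ) (U V : Finset ℤ) (hU : U.Nonempty) (hV : V.Nonempty) :
    ∑ x ∈ U, ∑ y ∈ V, Real.log (Gam q U V x y) ≤
      U.card * V.card * (Real.log ((U + V).card / (U.card * V.card)) + ent q U) := by
  have h := cell1 q V U hV hU
  rw [Finset.sum_comm] at h
  refine le_trans (le_of_eq ?_) (h.trans (le_of_eq ?_))
  · refine Finset.sum_congr rfl fun x _ => Finset.sum_congr rfl fun y _ => ?_
    unfold Gam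
    rw [add_comm (cls q U x), mul_comm ((cls q U x).card : ℝ)]
  · rw [add_comm V U, mul_comm (V.card : ℝ)]

/-- the weight used when both entropies are small -/
noncomputable def th (q : ℤ) (V : Finset ℤ) (xs ys : ℤ) (x y : ℤ) : ℝ :=
  if q ∣ x - xs then (if q ∣ y - ys then (cls q V y).card / V.card else 1 / 3)
  else (if q ∣ y - ys then 1 / 3 else (cls q V y).card / V.card / 3)

theorem th_pos {q : ℤ} {V : Finset ℤ} {y : ℤ} (hy : y ∈ V) (xs ys x : ℤ) :
    0 < th q V xs ys x y := by
  have hV0 : (0 : ℝ) < V.card := by exact_mod_cast Finset.card_pos.2 ⟨y, hy⟩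
  have h1 := cls_posR (q := q) hy
  unfold th
  split_ifs <;> positivity

theorem cond3 (q : ℤ) (U V : Finset ℤ) (hV : V.Nonempty) (xs ys s : ℤ) :
    ∑ x ∈ U, ∑ y ∈ V, (if q ∣ x + y - s then
      th q V xs ys x y * (1 / (cls q U x).card) * (1 / (cls q V y).card) else 0) ≤ 1 := by
  have hV0 : (0 : ℝ) < V.card := by exact_mod_cast hV.card_pos
  have h1 := cond1 q U V hV s
  by_cases hE : q ∣ xs + ys - s
  · refine le_trans (Finset.sum_le_sum fun x hx => Finset.sum_le_sum fun y hy => ?_) h1
    have hx0 := cls_posR (q := q) hx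
    have hy0 := cls_posR (q := q) hy
    by_cases hs : q ∣ x + y - s
    · rw [if_pos hs, if_pos hs]
      have hmain : (cls q V y).card / V.card * (1 / ((cls q U x).card : ℝ)) *
          (1 / (cls q V y).card) = 1 / V.card * (1 / (cls q U x).card) := by
        field_simp
      unfold th
      by_cases ha : q ∣ x - xs
      · have hb : q ∣ y - ys := by
          have := dvd_sub (dvd_sub hs hE) ha
          rwa [show x + y - s - (xs + ys - s) - (x - xs) = y - ys by ring] at this
        rw [if_pos ha, if_pos hb, hmain]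
      · have hb : ¬ q ∣ y - ys := by
          intro hb
          apply ha
          have := dvd_sub (dvd_sub hs hE) hb
          rwa [show x + y - s - (xs + ys - s) - (y - ys) = x - xs by ring] at this
        rw [if_neg ha, if_neg hb]
        calc ((cls q V y).card : ℝ) / V.card / 3 * (1 / (cls q U x).card) *
            (1 / (cls q V y).card) = ((cls q V y).card / V.card * (1 / ((cls q U x).card : ℝ)) *
          (1 / (cls q V y).card)) / 3 := by ring
          _ = (1 / V.card * (1 / (cls q U x).card)) / 3 := by rw [hmain]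
          _ ≤ 1 / V.card * (1 / (cls q U x).card) := by
              have : (0 : ℝ) ≤ 1 / V.card * (1 / (cls q U x).card) := by positivity
              linarith
    · rw [if_neg hs, if_neg hs]
  · -- three sums
    have hT1 : ∑ x ∈ U, ∑ y ∈ V, (if q ∣ x - xs then (1 : ℝ) / (cls q U x).card else 0) *
        (if q ∣ y - (s - x) then (1 : ℝ) / (cls q V y).card else 0) ≤ 1 := by
      calc _ = ∑ x ∈ U, (if q ∣ x - xs then (1 : ℝ) / (cls q U x).card else 0) *
            ∑ y ∈ V, (if q ∣ y - (s - x) then (1 : ℝ) / (cls q V y).card else 0) :=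
            Finset.sum_congr rfl fun x _ => by rw [Finset.mul_sum]
        _ ≤ ∑ x ∈ U, (if q ∣ x - xs then (1 : ℝ) / (cls q U x).card else 0) * 1 := by
            refine Finset.sum_le_sum fun x _ => mul_le_mul_of_nonneg_left (row_le q V (s - x)) ?_
            split_ifs <;> positivity
        _ ≤ 1 := by simpa using row_le q U xs
    have hT2 : ∑ x ∈ U, ∑ y ∈ V, (if q ∣ x - (s - y) then (1 : ℝ) / (cls q U x).card else 0) *
        (if q ∣ y - ys then (1 : ℝ) / (cls q V y).card else 0) ≤ 1 := by
      rw [Finset.sum_comm]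
      calc _ = ∑ y ∈ V, (∑ x ∈ U, (if q ∣ x - (s - y) then (1 : ℝ) / (cls q U x).card else 0)) *
            (if q ∣ y - ys then (1 : ℝ) / (cls q V y).card else 0) :=
            Finset.sum_congr rfl fun y _ => by rw [Finset.sum_mul]
        _ ≤ ∑ y ∈ V, 1 * (if q ∣ y - ys then (1 : ℝ) / (cls q V y).card else 0) := by
            refine Finset.sum_le_sum fun y _ => mul_le_mul_of_nonneg_right (row_le q U (s - y)) ?_
            split_ifs <;> positivity
        _ ≤ 1 := by simpa using row_le q V ys
    have hterm : ∀ x ∈ U, ∀ y ∈ V, (if q ∣ x + y - s then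
        th q V xs ys x y * (1 / (cls q U x).card) * (1 / (cls q V y).card) else 0) ≤
        (1 / 3) * ((if q ∣ x - xs then (1 : ℝ) / (cls q U x).card else 0) *
          (if q ∣ y - (s - x) then (1 : ℝ) / (cls q V y).card else 0)) +
        (1 / 3) * ((if q ∣ x - (s - y) then (1 : ℝ) / (cls q U x).card else 0) *
          (if q ∣ y - ys then (1 : ℝ) / (cls q V y).card else 0)) +
        (1 / 3) * (if q ∣ x + y - s then (1 : ℝ) / V.card * (1 / (cls q U x).card) else 0) := by
      intro x hx y hy
      have hx0 := cls_posR (q := q) hx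
      have hy0 := cls_posR (q := q) hy
      have e1 : y - (s - x) = x + y - s := by ring
      have e2 : x - (s - y) = x + y - s := by ring
      rw [e1, e2]
      by_cases hs : q ∣ x + y - s
      · simp only [if_pos hs]
        unfold th
        by_cases ha : q ∣ x - xs
        · have hb : ¬ q ∣ y - ys := by
            intro hb
            apply hE
            have := dvd_sub (dvd_sub hs ha) hb
            rwa [show x + y - s - (x - xs) - (y - ys) = xs + ys - s by ring] at this
          rw [if_pos ha, if_neg hb]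
          simp only [if_pos ha, if_neg hb, mul_zero, add_zero]
          have : (0 : ℝ) ≤ (1 / 3) * (1 / V.card * (1 / (cls q U x).card)) := by positivity
          nlinarith [this]
        · by_cases hb : q ∣ y - ys
          · simp only [if_neg ha, if_pos hb, zero_mul, mul_zero, zero_add]
            have : (0 : ℝ) ≤ (1 / 3) * (1 / V.card * (1 / (cls q U x).card)) := by positivity
            nlinarith [this]
          · simp only [if_neg ha, if_neg hb, zero_mul, mul_zero, zero_add]
            refine le_of_eq ?_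
            field_simp
      · simp only [if_neg hs, mul_zero, zero_mul, add_zero]
        exact le_refl _
    refine (Finset.sum_le_sum fun x hx => Finset.sum_le_sum fun y hy => hterm x hx y hy).trans ?_
    simp only [Finset.sum_add_distrib, ← Finset.mul_sum]
    simp only [Finset.mul_sum] at hT1 hT2 h1 ⊢
    simp only [← Finset.mul_sum] at hT1 hT2 h1 ⊢
    linarith

end Pool.Agent.W219.SP
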