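import Pool.Agent.W219.SP.Cell

/-!
The one-level inequality, final form.
-/

set_option autoImplicit false

namespace Pool.Agent.W219.SP

open Finset
open scoped Pointwise

/-- proportion of the elements of `U` outside the class of `xs` -/
noncomputable def eps (q : ℤ) (U : Finset ℤ) (xs : ℤ) : ℝ := 1 - (cls q U xs).card / U.card

theorem eps_nonneg {q : ℤ} {U : Finset ℤ} (hU : U.Nonempty) (xs : ℤ) : 0 ≤ eps q U xs := by
  have hU0 : (0 : ℝ) < U.card := by exact_mod_cast hU.card_pos
  have h1 : ((cls q U xs).card : ℝ) ≤ U.card := by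
    exact_mod_cast Finset.card_le_card (cls_sub q U xs)
  have : ((cls q U xs).card : ℝ) / U.card ≤ 1 := by rwa [div_le_one hU0]
  unfold eps
  linarith

theorem card_mul_eps {q : ℤ} {U : Finset ℤ} (hU : U.Nonempty) (xs : ℤ) :
    (U.card : ℝ) * eps q U xs = U.card - (cls q U xs).card := by
  have hU0 : (U.card : ℝ) ≠ 0 := by exact_mod_cast hU.card_pos.ne'
  unfold eps
  field_simp

theorem card_light {q : ℤ} {U : Finset ℤ} (xs : ℤ) :
    ((U.filter fun x => ¬ q ∣ x - xs).card : ℝ) = U.card - (cls q U xs).card := by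
  have h := Finset.card_filter_add_card_filter_not (s := U) (fun x => q ∣ x - xs)
  have h2 : ((U.filter fun x => q ∣ x - xs).card : ℝ) + (U.filter fun x => ¬ q ∣ x - xs).card =
      U.card := by exact_mod_cast h
  unfold cls
  linarith

theorem log_three_le : Real.log 3 ≤ 2 := by
  have := Real.log_le_sub_one_of_pos (x := 3) (by norm_num)
  linarith

theorem row_heavy (q : ℤ) {V : Finset ℤ} {xs ys x : ℤ} (hys : ys ∈ V) (hx : q ∣ x - xs) :
    -(3 * ((V.card : ℝ) - (cls q V ys).card)) ≤ ∑ y ∈ V, Real.log (th q V xs ys x y) := by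
  have hV0 : (0 : ℝ) < V.card := by exact_mod_cast Finset.card_pos.2 ⟨ys, hys⟩
  have hm := cls_posR (q := q) hys
  rw [← Finset.sum_filter_add_sum_filter_not V (fun y => q ∣ y - ys)]
  have h1 : ∑ y ∈ V.filter (fun y => q ∣ y - ys), Real.log (th q V xs ys x y) =
      (cls q V ys).card * Real.log ((cls q V ys).card / V.card) := by
    have h2 : ∀ y ∈ V.filter (fun y => q ∣ y - ys), Real.log (th q V xs ys x y) =
        Real.log ((cls q V ys).card / V.card) := by
      intro y hy
      have hy2 := (Finset.mem_filter.1 hy).2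
      unfold th
      rw [if_pos hx, if_pos hy2, cls_congr hy2]
    rw [Finset.sum_congr rfl h2, Finset.sum_const, nsmul_eq_mul]
    rfl
  have h3 : ∑ y ∈ V.filter (fun y => ¬ q ∣ y - ys), Real.log (th q V xs ys x y) =
      ((V.card : ℝ) - (cls q V ys).card) * (- Real.log 3) := by
    have h2 : ∀ y ∈ V.filter (fun y => ¬ q ∣ y - ys), Real.log (th q V xs ys x y) =
        - Real.log 3 := by
      intro y hy
      have hy2 := (Finset.mem_filter.1 hy).2
      unfold th
      rw [if_pos hx, if_neg hy2, one_div, Real.log_inv]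
    rw [Finset.sum_congr rfl h2, Finset.sum_const, nsmul_eq_mul, card_light]
  rw [h1, h3]
  have h4 : (V.card : ℝ) - (cls q V ys).card ≥ 0 := by
    have : ((cls q V ys).card : ℝ) ≤ V.card := by
      exact_mod_cast Finset.card_le_card (cls_sub q V ys)
    linarith
  have h5 : -((V.card : ℝ) - (cls q V ys).card) ≤
      (cls q V ys).card * Real.log ((cls q V ys).card / V.card) := by
    have h6 := Real.log_le_sub_one_of_pos (x := (V.card : ℝ) / (cls q V ys).card) (by positivity)
    have h7 : Real.log ((cls q V ys).card / V.card) = - Real.log (V.card / (cls q V ys).card) := by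
      rw [← Real.log_inv, inv_div]
    rw [h7]
    have h8 := mul_le_mul_of_nonneg_left h6 hm.le
    rw [mul_sub, mul_one, mul_div_cancel₀ _ hm.ne'] at h8
    linarith
  nlinarith [log_three_le]

theorem row_light (q : ℤ) {V : Finset ℤ} {xs ys x : ℤ} (hys : ys ∈ V) (hx : ¬ q ∣ x - xs) :
    -((V.card : ℝ) * (2 + ent q V)) ≤ ∑ y ∈ V, Real.log (th q V xs ys x y) := by
  have hVn : V.Nonempty := ⟨ys, hys⟩
  have hV0 : (0 : ℝ) < V.card := by exact_mod_cast hVn.card_pos
  have h1 : ∀ y ∈ V, -(2 + Real.log (V.card / (cls q V y).card)) ≤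
      Real.log (th q V xs ys x y) := by
    intro y hy
    have hm := cls_posR (q := q) hy
    have h0 := log_ratio_nonneg (q := q) hy
    have h3 := log_three_le
    unfold th
    rw [if_neg hx]
    split_ifs with hb
    · rw [one_div, Real.log_inv]
      linarith
    · have h7 : Real.log ((cls q V y).card / V.card) = - Real.log (V.card / (cls q V y).card) := by
        rw [← Real.log_inv, inv_div]
      have h8 : Real.log (((cls q V y).card : ℝ) / V.card / 3) =
          Real.log ((cls q V y).card / V.card) - Real.log 3 :=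
        Real.log_div (div_pos hm hV0).ne' (by norm_num)
      rw [h8, h7]
      linarith
  refine le_trans (le_of_eq ?_) (Finset.sum_le_sum h1)
  rw [Finset.sum_neg_distrib, Finset.sum_add_distrib, ← card_mul_ent q hVn, Finset.sum_const,
    nsmul_eq_mul]
  ring

theorem cell3 (q : ℤ) (U V : Finset ℤ) {xs ys : ℤ} (hxs : xs ∈ U) (hys : ys ∈ V) :
    ∑ x ∈ U, ∑ y ∈ V, Real.log (Gam q U V x y) ≤
      U.card * V.card * (Real.log ((U + V).card / (U.card * V.card)) +
        (3 * (eps q U xs + eps q V ys) + eps q U xs * ent q V)) := by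
  have hU : U.Nonempty := ⟨xs, hxs⟩
  have hV : V.Nonempty := ⟨ys, hys⟩
  have hU0 : (0 : ℝ) < U.card := by exact_mod_cast hU.card_pos
  have hV0 : (0 : ℝ) < V.card := by exact_mod_cast hV.card_pos
  have h := cell_gen q U V hU hV (th q V xs ys) (fun x _ y hy => th_pos hy xs ys x)
    (cond3 q U V hV xs ys)
  have hsplit : ∑ x ∈ U, ∑ y ∈ V, (Real.log (th q V xs ys x y) + Real.log (Gam q U V x y)) =
      ∑ x ∈ U, ∑ y ∈ V, Real.log (th q V xs ys x y) +
      ∑ x ∈ U, ∑ y ∈ V, Real.log (Gam q U V x y) := by
    simp only [Finset.sum_add_distrib]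
  rw [hsplit] at h
  have hlow : -((cls q U xs).card * (3 * ((V.card : ℝ) - (cls q V ys).card))) -
      (U.card - (cls q U xs).card) * (V.card * (2 + ent q V)) ≤
      ∑ x ∈ U, ∑ y ∈ V, Real.log (th q V xs ys x y) := by
    rw [← Finset.sum_filter_add_sum_filter_not U (fun x => q ∣ x - xs)]
    have h1 : -((cls q U xs).card * (3 * ((V.card : ℝ) - (cls q V ys).card))) ≤
        ∑ x ∈ U.filter (fun x => q ∣ x - xs), ∑ y ∈ V, Real.log (th q V xs ys x y) := by
      have h2 := Finset.sum_le_sum (s := U.filter fun x => q ∣ x - xs)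
        fun x hx => row_heavy q hys (xs := xs) (Finset.mem_filter.1 hx).2
      refine le_trans (le_of_eq ?_) h2
      rw [Finset.sum_const, nsmul_eq_mul]
      unfold cls
      ring
    have h3 : -((U.card - (cls q U xs).card) * (V.card * (2 + ent q V))) ≤
        ∑ x ∈ U.filter (fun x => ¬ q ∣ x - xs), ∑ y ∈ V, Real.log (th q V xs ys x y) := by
      have h2 := Finset.sum_le_sum (s := U.filter fun x => ¬ q ∣ x - xs)
        fun x hx => row_light q hys (xs := xs) (Finset.mem_filter.1 hx).2
      refine le_trans (le_of_eq ?_) h2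
      rw [Finset.sum_const, nsmul_eq_mul, card_light]
      ring
    linarith
  have hn : ((cls q U xs).card : ℝ) ≤ U.card := by
    exact_mod_cast Finset.card_le_card (cls_sub q U xs)
  have hm : ((cls q V ys).card : ℝ) ≤ V.card := by
    exact_mod_cast Finset.card_le_card (cls_sub q V ys)
  have e1 := card_mul_eps (q := q) hU xs
  have e2 := card_mul_eps (q := q) hV ys
  have hε1 := eps_nonneg (q := q) hU xs
  have hε2 := eps_nonneg (q := q) hV ys
  rw [← e1, ← e2] at hlow
  have h5 : ((cls q U xs).card : ℝ) * (3 * (V.card * eps q V ys)) ≤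
      U.card * (3 * (V.card * eps q V ys)) :=
    mul_le_mul_of_nonneg_right hn (by positivity)
  have h6 : 0 ≤ (U.card : ℝ) * V.card * eps q U xs := by positivity
  nlinarith [h, hlow, h5, h6]

theorem eps_le_ent {q : ℤ} {U : Finset ℤ} {xs : ℤ} (hxs : xs ∈ U)
    (hmax : ∀ x ∈ U, (cls q U x).card ≤ (cls q U xs).card) : eps q U xs ≤ ent q U := by
  have hU : U.Nonempty := ⟨xs, hxs⟩
  have hU0 : (0 : ℝ) < U.card := by exact_mod_cast hU.card_pos
  have h1 : ∀ x ∈ U, eps q U xs ≤ Real.log (U.card / (cls q U x).card) := by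
    intro x hx
    have hx0 := cls_posR (q := q) hx
    have h2 := Real.log_le_sub_one_of_pos (x := ((cls q U x).card : ℝ) / U.card) (by positivity)
    have h3 : Real.log (U.card / (cls q U x).card) = - Real.log ((cls q U x).card / U.card) := by
      rw [← Real.log_inv, inv_div]
    have h4 : ((cls q U x).card : ℝ) / U.card ≤ (cls q U xs).card / U.card := by
      refine div_le_div_of_nonneg_right ?_ hU0.le
      exact_mod_cast hmax x hx
    unfold eps
    linarith
  have h2 := Finset.sum_le_sum h1
  rw [Finset.sum_const, nsmul_eq_mul, ← card_mul_ent q hU] at h2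
  exact le_of_mul_le_mul_left h2 hU0

theorem eps_log_le {q : ℤ} {U : Finset ℤ} {xs : ℤ} (hxs : xs ∈ U) {K : ℝ} (hK : 1 < K)
    (he : eps q U xs ≤ 1 / K) : eps q U xs * Real.log K ≤ ent q U := by
  have hU : U.Nonempty := ⟨xs, hxs⟩
  have hU0 : (0 : ℝ) < U.card := by exact_mod_cast hU.card_pos
  have hK0 : 0 < K := by linarith
  have hc := card_mul_eps (q := q) hU xs
  have h1 : ∑ x ∈ U.filter (fun x => ¬ q ∣ x - xs), Real.log K ≤
      ∑ x ∈ U, Real.log (U.card / (cls q U x).card) := by
    refine le_trans ?_ (Finset.sum_le_sum_of_subset_of_nonneg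
      (Finset.filter_subset (fun x : ℤ => ¬ q ∣ x - xs) U) fun x hx _ => log_ratio_nonneg hx)
    refine Finset.sum_le_sum fun x hx => ?_
    obtain ⟨hxU, hxl⟩ := Finset.mem_filter.1 hx
    have hx0 := cls_posR (q := q) hxU
    refine Real.log_le_log hK0 ?_
    have h2 : cls q U x ⊆ U.filter (fun x : ℤ => ¬ q ∣ x - xs) := by
      intro z hz
      obtain ⟨hz1, hz2⟩ := mem_cls.1 hz
      refine Finset.mem_filter.2 ⟨hz1, fun h => hxl ?_⟩
      have := dvd_sub h hz2
      rwa [show z - xs - (z - x) = x - xs by ring] at this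
    have h3 : ((cls q U x).card : ℝ) ≤ U.card * eps q U xs := by
      have h9 : ((cls q U x).card : ℝ) ≤ (U.filter fun x => ¬ q ∣ x - xs).card := by
        exact_mod_cast Finset.card_le_card h2
      rw [card_light] at h9
      rw [hc]
      exact h9
    rw [le_div_iff₀ hx0]
    calc K * (cls q U x).card ≤ K * (U.card * eps q U xs) :=
          mul_le_mul_of_nonneg_left h3 hK0.le
      _ ≤ K * (U.card * (1 / K)) := by gcongr
      _ = U.card := by field_simp
  rw [Finset.sum_const, nsmul_eq_mul, card_light, ← hc, ← card_mul_ent q hU, mul_assoc] at h1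
  exact le_of_mul_le_mul_left h1 hU0

/-- the one-level inequality -/
theorem cell (q : ℤ) (U V : Finset ℤ) (hU : U.Nonempty) (hV : V.Nonempty) {K : ℝ} (hK : 1 < K) :
    ∑ x ∈ U, ∑ y ∈ V, Real.log (Gam q U V x y) ≤
      U.card * V.card * (Real.log ((U + V).card / (U.card * V.card)) +
        (3 / Real.log K * (ent q U + ent q V) + K * (ent q U * ent q V))) := by
  have hU0 : (0 : ℝ) < U.card := by exact_mod_cast hU.card_pos
  have hV0 : (0 : ℝ) < V.card := by exact_mod_cast hV.card_pos
  have hL : 0 < Real.log K := Real.log_pos hK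
  have hK0 : 0 < K := by linarith
  obtain ⟨xs, hxs, hxm⟩ := Finset.exists_max_image U (fun x => (cls q U x).card) hU
  obtain ⟨ys, hys, hym⟩ := Finset.exists_max_image V (fun x => (cls q V x).card) hV
  have hu := eps_le_ent hxs hxm
  have hv := eps_le_ent hys hym
  have hu0 := ent_nonneg q U
  have hv0 := ent_nonneg q V
  have heu := eps_nonneg (q := q) hU xs
  have hev := eps_nonneg (q := q) hV ys
  have hUV : (0 : ℝ) ≤ U.card * V.card := by positivity
  by_cases h1 : eps q U xs ≤ 1 / K
  · by_cases h2 : eps q V ys ≤ 1 / K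
    · have h3 := eps_log_le hxs hK h1
      have h4 := eps_log_le hys hK h2
      refine (cell3 q U V hxs hys).trans (mul_le_mul_of_nonneg_left ?_ hUV)
      have h5 : eps q U xs ≤ ent q U / Real.log K := by rwa [le_div_iff₀ hL]
      have h6 : eps q V ys ≤ ent q V / Real.log K := by rwa [le_div_iff₀ hL]
      have h7 : eps q U xs * ent q V ≤ K * (ent q U * ent q V) := by
        have h8 : eps q U xs * ent q V ≤ ent q U * ent q V := mul_le_mul_of_nonneg_right hu hv0
        have h9 : 0 ≤ ent q U * ent q V := mul_nonneg hu0 hv0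
        nlinarith
      have h8 : 3 / Real.log K * (ent q U + ent q V) =
          3 * (ent q U / Real.log K + ent q V / Real.log K) := by ring
      rw [h8]
      linarith
    · refine (cell2 q U V hU hV).trans (mul_le_mul_of_nonneg_left ?_ hUV)
      have h3 : 1 ≤ K * ent q V := by
        have : 1 / K ≤ ent q V := by linarith
        rwa [div_le_iff₀ hK0, mul_comm] at this
      have h4 : 0 ≤ 3 / Real.log K * (ent q U + ent q V) := by positivity
      nlinarith
  · refine (cell1 q U V hU hV).trans (mul_le_mul_of_nonneg_left ?_ hUV)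
    have h3 : 1 ≤ K * ent q U := by
      have : 1 / K ≤ ent q U := by linarith
      rwa [div_le_iff₀ hK0, mul_comm] at this
    have h4 : 0 ≤ 3 / Real.log K * (ent q U + ent q V) := by positivity
    nlinarith

end Pool.Agent.W219.SP
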