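import Pool.Agent.W219.SP.Dil

/-!
The defect of a pair of finite sets of integers and its behaviour under partitions.
-/

set_option autoImplicit false

namespace Pool.Agent.W219.SP

open Finset
open scoped Pointwise

/-- the defect of a pair -/
noncomputable def Del (c : ℝ) (U V : Finset ℤ) : ℝ :=
  (1 - c) * (Real.log U.card + Real.log V.card) - Real.log (U + V).card

theorem ruleA {c : ℝ} (hc : 0 ≤ c) {U C V : Finset ℤ} (hC : C.Nonempty) (hV : V.Nonempty)
    (hCU : C ⊆ U) : Del c U V ≤ Del c C V + Real.log (U.card / C.card) := by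
  have hC0 : (0 : ℝ) < C.card := by exact_mod_cast hC.card_pos
  have hU0 : (0 : ℝ) < U.card := by exact_mod_cast (hC.mono hCU).card_pos
  have h1 : Real.log C.card ≤ Real.log U.card :=
    Real.log_le_log hC0 (by exact_mod_cast Finset.card_le_card hCU)
  have h2 : Real.log (C + V).card ≤ Real.log (U + V).card := by
    refine Real.log_le_log (by exact_mod_cast (hC.add hV).card_pos) ?_
    exact_mod_cast Finset.card_le_card (Finset.add_subset_add hCU (Finset.Subset.refl V))
  rw [Real.log_div hU0.ne' hC0.ne']
  unfold Del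
  have h3 : 0 ≤ c * (Real.log U.card - Real.log C.card) := mul_nonneg hc (by linarith)
  nlinarith

theorem ruleB (q : ℤ) (U V : Finset ℤ) (hU : U.Nonempty) (hV : V.Nonempty) {K : ℝ} (hK : 1 < K) :
    (U.card : ℝ) * V.card * Del (3 / Real.log K) U V ≤
      (∑ x ∈ U, ∑ y ∈ V, Del (3 / Real.log K) (cls q U x) (cls q V y)) +
      K * ((U.card * ent q U) * (V.card * ent q V)) := by
  have hU0 : (0 : ℝ) < U.card := by exact_mod_cast hU.card_pos
  have hV0 : (0 : ℝ) < V.card := by exact_mod_cast hV.card_pos
  have hUV0 : (0 : ℝ) < (U + V).card := by exact_mod_cast (hU.add hV).card_pos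
  have h := cell q U V hU hV hK
  set c := 3 / Real.log K with hc
  have h1 : ∀ x ∈ U, ∀ y ∈ V, Real.log (Gam q U V x y) =
      -Del c (cls q U x) (cls q V y) -
        c * (Real.log (cls q U x).card + Real.log (cls q V y).card) := by
    intro x hx y hy
    have e1 := cls_posR (q := q) hx
    have e2 := cls_posR (q := q) hy
    have e3 : (0 : ℝ) < (cls q U x + cls q V y).card := by
      exact_mod_cast Finset.card_pos.2
        ((Finset.Nonempty.add ⟨x, self_mem_cls hx⟩ ⟨y, self_mem_cls hy⟩ :
          (cls q U x + cls q V y).Nonempty))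
    unfold Gam Del
    rw [Real.log_div e3.ne' (mul_pos e1 e2).ne', Real.log_mul e1.ne' e2.ne']
    ring
  have hent : ∀ W : Finset ℤ, W.Nonempty → ∑ x ∈ W, Real.log (cls q W x).card =
      W.card * Real.log W.card - W.card * ent q W := by
    intro W hW
    have hW0 : (0 : ℝ) < W.card := by exact_mod_cast hW.card_pos
    rw [card_mul_ent q hW]
    have e1 : ∀ x ∈ W, Real.log (W.card / (cls q W x).card) =
        Real.log W.card - Real.log (cls q W x).card := fun x hx =>
      Real.log_div hW0.ne' (cls_posR hx).ne'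
    rw [Finset.sum_congr rfl e1, Finset.sum_sub_distrib, Finset.sum_const, nsmul_eq_mul]
    ring
  have h2 : ∑ x ∈ U, ∑ y ∈ V, Real.log (Gam q U V x y) =
      -(∑ x ∈ U, ∑ y ∈ V, Del c (cls q U x) (cls q V y)) -
        c * (V.card * (U.card * Real.log U.card - U.card * ent q U) +
          U.card * (V.card * Real.log V.card - V.card * ent q V)) := by
    rw [Finset.sum_congr rfl fun x hx => Finset.sum_congr rfl fun y hy => h1 x hx y hy]
    rw [← hent U hU, ← hent V hV]
    simp only [Finset.sum_sub_distrib, Finset.sum_neg_distrib, ← Finset.mul_sum,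
      Finset.sum_add_distrib, Finset.sum_const, nsmul_eq_mul]
  rw [h2, Real.log_div hUV0.ne' (mul_pos hU0 hV0).ne', Real.log_mul hU0.ne' hV0.ne'] at h
  unfold Del at h ⊢
  linarith

end Pool.Agent.W219.SP
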