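import Pool.Agent.W219.SP.Prod

/-!
Iterated sumsets, and an example showing that fibres of logarithmic length are needed.
-/

set_option autoImplicit false

namespace Pool.Agent.W219.SP

open Finset
open scoped Pointwise

/-- the `k`-fold sumset -/
def ksum (k : ℕ) (A : Finset ℤ) : Finset ℤ :=
  (Fintype.piFinset fun _ : Fin k => A).image fun f => ∑ i, f i

theorem ksum_nonempty (k : ℕ) {A : Finset ℤ} (hA : A.Nonempty) : (ksum k A).Nonempty := by
  obtain ⟨a, ha⟩ := hA
  exact ⟨_, Finset.mem_image_of_mem _ (Fintype.mem_piFinset.2 fun _ : Fin k => ha)⟩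

theorem ksum_zero (A : Finset ℤ) : ksum 0 A = {0} := by
  ext x
  simp [ksum, eq_comm]

theorem add_ksum_sub (m : ℕ) (A B : Finset ℤ) : A + (ksum m A + B) ⊆ ksum (m + 1) A + B := by
  intro z hz
  obtain ⟨a, ha, w, hw, rfl⟩ := Finset.mem_add.1 hz
  obtain ⟨s, hs, b, hb, rfl⟩ := Finset.mem_add.1 hw
  obtain ⟨f, hf, rfl⟩ := Finset.mem_image.1 hs
  rw [← add_assoc]
  refine Finset.add_mem_add ?_ hb
  refine Finset.mem_image.2 ⟨Fin.cons a f, ?_, ?_⟩
  · rw [Fintype.mem_piFinset] at hf ⊢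
    intro i
    refine Fin.cases ?_ (fun j => ?_) i
    · simpa using ha
    · simpa using hf j
  · rw [Fin.sum_univ_succ]
    simp

theorem kfold_of (A : Finset ℤ) (hA : A.Nonempty) (δ : ℝ) (hδ : 0 < δ)
    (h : ∀ C : Finset ℤ, C.Nonempty →
      ((A.card : ℝ) * C.card) ^ (1 - δ) ≤ ((A + C).card : ℝ))
    (m : ℕ) (hm : (m : ℝ) * δ ≤ 1) (B : Finset ℤ) (hB : B.Nonempty) :
    ((A.card : ℝ) ^ m * B.card) ^ (1 - m * δ) ≤ ((ksum m A + B).card : ℝ) := by
  have hAc : (0 : ℝ) < A.card := by exact_mod_cast hA.card_pos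
  have hBc : (0 : ℝ) < B.card := by exact_mod_cast hB.card_pos
  have hlA : 0 ≤ Real.log A.card := Real.log_natCast_nonneg _
  have hlB : 0 ≤ Real.log B.card := Real.log_natCast_nonneg _
  have key : ∀ n : ℕ, (n : ℝ) * δ ≤ 1 → (1 - n * δ) * (n * Real.log A.card + Real.log B.card) ≤
      Real.log ((ksum n A + B).card : ℝ) := by
    intro n
    induction n with
    | zero =>
      intro _
      rw [ksum_zero]
      simp
    | succ n ih =>
      intro hn
      have hn' : (n : ℝ) * δ ≤ 1 := by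
        push_cast at hn
        nlinarith
      have h1 := ih hn'
      have hC : (ksum n A + B).Nonempty := (ksum_nonempty n hA).add hB
      have hCc : (0 : ℝ) < (ksum n A + B).card := by exact_mod_cast hC.card_pos
      have h2 := h _ hC
      have h3 : (0 : ℝ) < (A + (ksum n A + B)).card := by
        exact_mod_cast (hA.add hC).card_pos
      have h4 : (1 - δ) * (Real.log A.card + Real.log (ksum n A + B).card) ≤
          Real.log (A + (ksum n A + B)).card := by
        have h5 := Real.log_le_log (Real.rpow_pos_of_pos (mul_pos hAc hCc) _) h2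
        rw [Real.log_rpow (mul_pos hAc hCc), Real.log_mul hAc.ne' hCc.ne'] at h5
        exact h5
      have h5 : Real.log (A + (ksum n A + B)).card ≤ Real.log (ksum (n + 1) A + B).card := by
        refine Real.log_le_log h3 ?_
        exact_mod_cast Finset.card_le_card (add_ksum_sub n A B)
      refine le_trans ?_ (h4.trans h5)
      push_cast at hn ⊢
      have hd1 : 0 ≤ 1 - δ := by
        have : 0 ≤ (n : ℝ) * δ := by positivity
        nlinarith
      have h6 := mul_le_mul_of_nonneg_left (add_le_add_right h1 (Real.log A.card)) hd1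
      refine le_trans ?_ h6
      have hn0 : (0 : ℝ) ≤ n := Nat.cast_nonneg n
      have e1 : 0 ≤ δ * δ * n * Real.log B.card := by positivity
      have e2 : 0 ≤ δ * n * Real.log A.card := by positivity
      have e3 : 0 ≤ δ * δ * n * n * Real.log A.card := by positivity
      nlinarith [e1, e2, e3]
  have h1 := key m hm
  have hC : (ksum m A + B).Nonempty := (ksum_nonempty m hA).add hB
  have hCc : (0 : ℝ) < (ksum m A + B).card := by exact_mod_cast hC.card_pos
  have hpow : 0 < (A.card : ℝ) ^ m := pow_pos hAc m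
  rw [Real.rpow_def_of_pos (mul_pos hpow hBc), ← Real.exp_log hCc, Real.exp_le_exp,
    Real.log_mul hpow.ne' hBc.ne', Real.log_pow]
  linarith

open Classical in
theorem kfold (k : ℕ) (hk : 1 ≤ k) (ε : ℝ) (hε : 0 < ε) (hε1 : ε ≤ 1) (t : ℚ) (h0 : t ≠ 0)
    (h1 : t ≠ 1) (h2 : t ≠ -1) (A : Finset ℤ) (hA : A.Nonempty)
    (hfib : ∀ a ∈ A, 4 * k / ε * Real.exp (6 * k / ε) * Real.log (2 * A.card) ≤
      ((A.filter fun x : ℤ => ∃ i : ℤ, (x : ℚ) = a * t ^ i).card : ℝ))
    (B : Finset ℤ) (hB : B.Nonempty) :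
    ((A.card : ℝ) ^ k * B.card) ^ (1 - ε) ≤ ((ksum k A + B).card : ℝ) := by
  have hkR : (1 : ℝ) ≤ k := by exact_mod_cast hk
  have hk0 : (0 : ℝ) < k := by linarith
  have hδ : 0 < ε / k := div_pos hε hk0
  have hδ1 : ε / k ≤ 1 := by
    rw [div_le_one hk0]
    linarith
  have hmul : (k : ℝ) * (ε / k) = ε := by field_simp
  have h := kfold_of A hA (ε / k) hδ (fun C hC => main_rat (ε / k) hδ hδ1 t h0 h1 h2 A C hA hC
    (by
      intro a ha
      have h3 := hfib a ha
      have e1 : 4 / (ε / k) = 4 * k / ε := by field_simp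
      have e2 : 6 / (ε / k) = 6 * k / ε := by field_simp
      rw [e1, e2]
      exact h3)) k (by rw [hmul]; exact hε1) B hB
  rw [hmul] at h
  exact h

open Classical in
/-- the elements in long fibres -/
theorem exists_rich (t : ℚ) (h0 : t ≠ 0) (M : ℝ) (hM0 : 0 < M) (A P : Finset ℤ)
    (hA0 : (0 : ℤ) ∉ A) (hP0 : (0 : ℤ) ∉ P) (hPn : P.Nonempty)
    (hP : ∀ q ∈ P, ∀ q' ∈ P, ∃ i : ℤ, (q' : ℚ) = q * t ^ i)
    (hAP : 2 * M * (A * P).card ≤ (A.card : ℝ) * P.card) :
    ∃ R ⊆ A, (A.card : ℝ) / 2 ≤ R.card ∧ ∀ a ∈ R, M ≤ ((cos R t a).card : ℝ) := by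
  have hPc : (0 : ℝ) < P.card := by exact_mod_cast hPn.card_pos
  set R := A.filter fun a : ℤ => M ≤ ((cos A t a).card : ℝ) with hR
  set S := A.filter fun a : ℤ => ¬ M ≤ ((cos A t a).card : ℝ) with hS
  have hSle := short_le hA0 hP0 hP hM0.le S (Finset.filter_subset _ _)
    (fun a ha => (not_le.1 (Finset.mem_filter.1 ha).2).le)
  have hhalf : (S.card : ℝ) ≤ A.card / 2 := by
    have h3 : (S.card : ℝ) * P.card ≤ (A.card / 2) * P.card := by
      refine hSle.trans ?_
      linarith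
    exact le_of_mul_le_mul_right h3 hPc
  have hsum : (R.card : ℝ) + S.card = A.card := by
    have := Finset.card_filter_add_card_filter_not (s := A)
      (fun a : ℤ => M ≤ ((cos A t a).card : ℝ))
    exact_mod_cast this
  refine ⟨R, Finset.filter_subset _ _, by linarith, fun a ha => ?_⟩
  have hcos : cos A t a ⊆ cos R t a := by
    intro x hx
    obtain ⟨hx1, hx2⟩ := mem_cos.1 hx
    refine mem_cos.2 ⟨Finset.mem_filter.2 ⟨hx1, ?_⟩, hx2⟩
    rw [cos_congr h0 hx2]
    exact (Finset.mem_filter.1 ha).2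
  have h3 : M ≤ ((cos A t a).card : ℝ) := (Finset.mem_filter.1 ha).2
  refine h3.trans ?_
  exact_mod_cast Finset.card_le_card hcos

theorem ksum_mono (k : ℕ) {A A' : Finset ℤ} (h : A ⊆ A') : ksum k A ⊆ ksum k A' := by
  intro z hz
  obtain ⟨f, hf, rfl⟩ := Finset.mem_image.1 hz
  refine Finset.mem_image_of_mem _ ?_
  rw [Fintype.mem_piFinset] at hf ⊢
  exact fun i => h (hf i)

open Classical in
theorem kdichotomy (k : ℕ) (hk : 1 ≤ k) (ε : ℝ) (hε : 0 < ε) (hε1 : ε ≤ 1) (t : ℚ) (h0 : t ≠ 0)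
    (h1 : t ≠ 1) (h2 : t ≠ -1) (A P : Finset ℤ) (hA : A.Nonempty) (hA0 : (0 : ℤ) ∉ A)
    (hP0 : (0 : ℤ) ∉ P) (hPn : P.Nonempty)
    (hP : ∀ q ∈ P, ∀ q' ∈ P, ∃ i : ℤ, (q' : ℚ) = q * t ^ i)
    (hAP : 8 * k / ε * Real.exp (6 * k / ε) * Real.log (2 * A.card) * (A * P).card ≤
      (A.card : ℝ) * P.card) (B : Finset ℤ) (hB : B.Nonempty) :
    (((A.card : ℝ) / 2) ^ k * B.card) ^ (1 - ε) ≤ ((ksum k A + B).card : ℝ) := by
  have hAc : (0 : ℝ) < A.card := by exact_mod_cast hA.card_pos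
  have hAc1 : (1 : ℝ) ≤ A.card := by exact_mod_cast hA.card_pos
  have hBc : (0 : ℝ) < B.card := by exact_mod_cast hB.card_pos
  have hk0 : (0 : ℝ) < k := by exact_mod_cast hk
  have hlog0 : 0 < Real.log (2 * A.card) := Real.log_pos (by linarith)
  obtain ⟨R, hRA, hRc, hRf⟩ := exists_rich t h0
    (4 * k / ε * Real.exp (6 * k / ε) * Real.log (2 * A.card)) (by positivity) A P hA0 hP0 hPn hP
    (by refine le_trans (le_of_eq ?_) hAP; ring)
  have hRpos : (0 : ℝ) < R.card := by linarith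
  have hRn : R.Nonempty := Finset.card_pos.1 (by exact_mod_cast hRpos)
  have hmain := kfold k hk ε hε hε1 t h0 h1 h2 R hRn (by
    intro a ha
    refine le_trans ?_ (hRf a ha)
    refine mul_le_mul_of_nonneg_left ?_ (by positivity)
    refine Real.log_le_log (by positivity) ?_
    have : (R.card : ℝ) ≤ A.card := by exact_mod_cast Finset.card_le_card hRA
    linarith) B hB
  have h3 : (((A.card : ℝ) / 2) ^ k * B.card) ^ (1 - ε) ≤
      ((R.card : ℝ) ^ k * B.card) ^ (1 - ε) := by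
    refine Real.rpow_le_rpow (by positivity) ?_ (by linarith)
    exact mul_le_mul_of_nonneg_right (pow_le_pow_left₀ (by positivity) hRc k) hBc.le
  refine (h3.trans hmain).trans ?_
  exact_mod_cast Finset.card_le_card (Finset.add_subset_add (ksum_mono k hRA)
    (Finset.Subset.refl B))

end Pool.Agent.W219.SP
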