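import Pool.Agent.W219.SP.Red
import Pool.Agent.W219.SP.Kfold

/-!
Products with subsets of a coset of a group of finite rank, and iterated sumsets.
-/

set_option autoImplicit false

namespace Pool.Agent.W219.SP

open Finset
open scoped Pointwise

theorem short_leG {Γ : Subgroup ℚˣ} {A P : Finset ℤ} (hA0 : (0 : ℤ) ∉ A) (hP0 : (0 : ℤ) ∉ P)
    (hP : ∀ q ∈ P, ∀ q' ∈ P, ∃ γ ∈ Γ, (q' : ℚ) = q * (γ : ℚ)) {M : ℝ}
    (hM0 : 0 ≤ M) (S : Finset ℤ) (hS : S ⊆ A) (hM : ∀ a ∈ S, ((cG Γ A a).card : ℝ) ≤ M) :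
    (S.card : ℝ) * P.card ≤ M * (A * P).card := by
  classical
  have h1 : (S ×ˢ P).card = ∑ z ∈ A * P, ((S ×ˢ P).filter fun w => w.1 * w.2 = z).card := by
    refine Finset.card_eq_sum_card_fiberwise (f := fun w : ℤ × ℤ => w.1 * w.2) ?_
    intro w hw
    obtain ⟨h2, h3⟩ := Finset.mem_product.1 (Finset.mem_coe.1 hw)
    exact Finset.mem_coe.2 (Finset.mul_mem_mul (hS h2) h3)
  have h2 : ∀ z ∈ A * P, (((S ×ˢ P).filter fun w => w.1 * w.2 = z).card : ℝ) ≤ M := by
    intro z hz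
    rcases ((S ×ˢ P).filter fun w => w.1 * w.2 = z).eq_empty_or_nonempty with he | ⟨w0, hw0⟩
    · rw [he]
      simpa using hM0
    · obtain ⟨hw1, hw2⟩ := Finset.mem_filter.1 hw0
      obtain ⟨hw3, hw4⟩ := Finset.mem_product.1 hw1
      refine le_trans ?_ (hM w0.1 hw3)
      norm_cast
      refine Finset.card_le_card_of_injOn (fun w => w.1) ?_ ?_
      · intro w hw
        obtain ⟨hv1, hv2⟩ := Finset.mem_filter.1 (Finset.mem_coe.1 hw)
        obtain ⟨hv3, hv4⟩ := Finset.mem_product.1 hv1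
        refine Finset.mem_coe.2 (mem_cG.2 ⟨hS hv3, ?_⟩)
        obtain ⟨i, hiΓ, hi⟩ := hP w.2 hv4 w0.2 hw4
        refine ⟨i, hiΓ, ?_⟩
        have h4 : (w.2 : ℚ) ≠ 0 := by
          have : w.2 ≠ 0 := fun h => hP0 (h ▸ hv4)
          exact_mod_cast this
        have h5 : (w.1 : ℚ) * w.2 = w0.1 * w0.2 := by exact_mod_cast hv2.trans hw2.symm
        rw [hi] at h5
        have h6 : (w.1 : ℚ) * w.2 = (w0.1 * (i : ℚ)) * w.2 := by rw [h5]; ring
        exact mul_right_cancel₀ h4 h6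
      · intro w hw w' hw' hww
        obtain ⟨hv1, hv2⟩ := Finset.mem_filter.1 (Finset.mem_coe.1 hw)
        obtain ⟨hv3, hv4⟩ := Finset.mem_product.1 hv1
        obtain ⟨hu1, hu2⟩ := Finset.mem_filter.1 (Finset.mem_coe.1 hw')
        simp only at hww
        have h4 : w.1 ≠ 0 := fun h => hA0 (h ▸ hS hv3)
        have h5 : w.1 * w.2 = w.1 * w'.2 := by rw [hv2, hww, hu2]
        exact Prod.ext hww (mul_left_cancel₀ h4 h5)
  have h3 : ((S ×ˢ P).card : ℝ) ≤ ∑ z ∈ A * P, M := by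
    rw [h1]
    push_cast
    exact Finset.sum_le_sum h2
  rw [Finset.card_product, Finset.sum_const, nsmul_eq_mul] at h3
  push_cast at h3
  linarith

/-- the elements in large cosets -/
theorem exists_richG {Γ : Subgroup ℚˣ} (M : ℝ) (hM0 : 0 < M) (A P : Finset ℤ)
    (hA0 : (0 : ℤ) ∉ A) (hP0 : (0 : ℤ) ∉ P) (hPn : P.Nonempty)
    (hP : ∀ q ∈ P, ∀ q' ∈ P, ∃ γ ∈ Γ, (q' : ℚ) = q * (γ : ℚ))
    (hAP : 2 * M * (A * P).card ≤ (A.card : ℝ) * P.card) :
    ∃ R ⊆ A, (A.card : ℝ) / 2 ≤ R.card ∧ ∀ a ∈ R, M ≤ ((cG Γ R a).card : ℝ) := by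
  classical
  have hPc : (0 : ℝ) < P.card := by exact_mod_cast hPn.card_pos
  set R := A.filter fun a : ℤ => M ≤ ((cG Γ A a).card : ℝ) with hR
  set S := A.filter fun a : ℤ => ¬ M ≤ ((cG Γ A a).card : ℝ) with hS
  have hSle := short_leG hA0 hP0 hP hM0.le S (Finset.filter_subset _ _)
    (fun a ha => (not_le.1 (Finset.mem_filter.1 ha).2).le)
  have hhalf : (S.card : ℝ) ≤ A.card / 2 := by
    have h3 : (S.card : ℝ) * P.card ≤ (A.card / 2) * P.card := by
      refine hSle.trans ?_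
      linarith
    exact le_of_mul_le_mul_right h3 hPc
  have hsum : (R.card : ℝ) + S.card = A.card := by
    have := Finset.card_filter_add_card_filter_not (s := A)
      (fun a : ℤ => M ≤ ((cG Γ A a).card : ℝ))
    exact_mod_cast this
  refine ⟨R, Finset.filter_subset _ _, by linarith, fun a ha => ?_⟩
  have hcos : cG Γ A a ⊆ cG Γ R a := by
    intro x hx
    obtain ⟨hx1, hx2⟩ := mem_cG.1 hx
    refine mem_cG.2 ⟨Finset.mem_filter.2 ⟨hx1, ?_⟩, hx2⟩
    rw [cG_congr hx2]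
    exact (Finset.mem_filter.1 ha).2
  have h3 : M ≤ ((cG Γ A a).card : ℝ) := (Finset.mem_filter.1 ha).2
  refine h3.trans ?_
  exact_mod_cast Finset.card_le_card hcos

theorem Mc_mono {ε : ℝ} (hε : 0 < ε) {A R : Finset ℤ} (hR : R.Nonempty) (hRA : R ⊆ A) :
    Mc ε R ≤ Mc ε A := by
  have hR0 : (0 : ℝ) < R.card := by exact_mod_cast hR.card_pos
  unfold Mc
  refine mul_le_mul_of_nonneg_left ?_ (by positivity)
  refine Real.log_le_log (by positivity) ?_
  have : (R.card : ℝ) ≤ A.card := by exact_mod_cast Finset.card_le_card hRA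
  linarith

theorem kfold_loss (A : Finset ℤ) (hA : A.Nonempty) (δ : ℝ) (hδ : 0 < δ) (Λ : ℝ) (hΛ : 1 ≤ Λ)
    (h : ∀ C : Finset ℤ, C.Nonempty →
      ((A.card : ℝ) * C.card) ^ (1 - δ) ≤ Λ * ((A + C).card : ℝ))
    (m : ℕ) (hm : (m : ℝ) * δ ≤ 1) (B : Finset ℤ) (hB : B.Nonempty) :
    ((A.card : ℝ) ^ m * B.card) ^ (1 - m * δ) ≤ Λ ^ m * ((ksum m A + B).card : ℝ) := by
  have hAc : (0 : ℝ) < A.card := by exact_mod_cast hA.card_pos
  have hBc : (0 : ℝ) < B.card := by exact_mod_cast hB.card_pos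
  have hlA : 0 ≤ Real.log A.card := Real.log_natCast_nonneg _
  have hlB : 0 ≤ Real.log B.card := Real.log_natCast_nonneg _
  have hΛ0 : 0 < Λ := by linarith
  have hlΛ : 0 ≤ Real.log Λ := Real.log_nonneg hΛ
  have key : ∀ n : ℕ, (n : ℝ) * δ ≤ 1 →
      (1 - n * δ) * (n * Real.log A.card + Real.log B.card) ≤
      n * Real.log Λ + Real.log ((ksum n A + B).card : ℝ) := by
    intro n
    induction n with
    | zero =>
      intro _
      rw [ksum_zero]
      simp
    | succ n ih =>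
      intro hn
      have hn' : (n : ℝ) * δ ≤ 1 := by
        push_cast at hn
        nlinarith
      have h1 := ih hn'
      have hC : (ksum n A + B).Nonempty := (ksum_nonempty n hA).add hB
      have hCc : (0 : ℝ) < (ksum n A + B).card := by exact_mod_cast hC.card_pos
      have h2 := h _ hC
      have h3 : (0 : ℝ) < (A + (ksum n A + B)).card := by
        exact_mod_cast (hA.add hC).card_pos
      have h4 : (1 - δ) * (Real.log A.card + Real.log (ksum n A + B).card) ≤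
          Real.log Λ + Real.log (A + (ksum n A + B)).card := by
        have h5 := Real.log_le_log (Real.rpow_pos_of_pos (mul_pos hAc hCc) _) h2
        rw [Real.log_rpow (mul_pos hAc hCc), Real.log_mul hAc.ne' hCc.ne',
          Real.log_mul hΛ0.ne' h3.ne'] at h5
        exact h5
      have h5 : Real.log (A + (ksum n A + B)).card ≤ Real.log (ksum (n + 1) A + B).card := by
        refine Real.log_le_log h3 ?_
        exact_mod_cast Finset.card_le_card (add_ksum_sub n A B)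
      push_cast at hn ⊢
      have hn0 : (0 : ℝ) ≤ n := Nat.cast_nonneg n
      have hd1 : 0 ≤ 1 - δ := by
        have : 0 ≤ (n : ℝ) * δ := by positivity
        nlinarith
      have h6 := mul_le_mul_of_nonneg_left h1 hd1
      have e1 : 0 ≤ δ * δ * n * Real.log B.card := by positivity
      have e2 : 0 ≤ δ * n * Real.log A.card := by positivity
      have e3 : 0 ≤ δ * δ * n * n * Real.log A.card := by positivity
      have e4 : 0 ≤ δ * (n * Real.log Λ) := by positivity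
      have e5 : (1 - (n + 1) * δ) * ((n + 1) * Real.log A.card + Real.log B.card) ≤
          (1 - δ) * Real.log A.card + (1 - δ) * ((1 - n * δ) *
            (n * Real.log A.card + Real.log B.card)) := by
        nlinarith [e1, e2, e3]
      have e6 : (1 - δ) * (n * Real.log Λ + Real.log ((ksum n A + B).card : ℝ)) =
          n * Real.log Λ - δ * (n * Real.log Λ) + (1 - δ) * Real.log (ksum n A + B).card := by
        ring
      rw [e6] at h6
      have e7 : (1 - δ) * (Real.log A.card + Real.log (ksum n A + B).card) =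
        (1 - δ) * Real.log A.card + (1 - δ) * Real.log (ksum n A + B).card := by ring
      rw [e7] at h4
      linarith
  have h1 := key m hm
  have hC : (ksum m A + B).Nonempty := (ksum_nonempty m hA).add hB
  have hCc : (0 : ℝ) < (ksum m A + B).card := by exact_mod_cast hC.card_pos
  have hpow : 0 < (A.card : ℝ) ^ m := pow_pos hAc m
  have hpΛ : 0 < Λ ^ m := pow_pos hΛ0 m
  rw [Real.rpow_def_of_pos (mul_pos hpow hBc), ← Real.exp_log (mul_pos hpΛ hCc),
    Real.exp_le_exp, Real.log_mul hpow.ne' hBc.ne', Real.log_pow, Real.log_mul hpΛ.ne' hCc.ne',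
    Real.log_pow]
  linarith

/-- the rank `r` theorem for iterated sumsets -/
theorem kfoldG (k : ℕ) (hk : 1 ≤ k) (ε : ℝ) (hε : 0 < ε) (hε1 : ε ≤ 1) (T : Finset ℕ)
    (hT : ∀ q ∈ T, q.Prime) (hTn : T.Nonempty) (Γ : Subgroup ℚˣ)
    (hΓ : ∀ γ ∈ Γ, (∀ q ∈ T, padicValRat q (γ : ℚ) = 0) → γ = 1) (A : Finset ℤ)
    (hA : A.Nonempty) (hfib : ∀ a ∈ A, Mc (ε / k) A ^ T.card ≤ ((cG Γ A a).card : ℝ))
    (B : Finset ℤ) (hB : B.Nonempty) :
    ((A.card : ℝ) ^ k * B.card) ^ (1 - ε) ≤ (T.card * Mc (ε / k) A + 1) ^ (2 * T.card * k) *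
      ((ksum k A + B).card : ℝ) := by
  have hkR : (1 : ℝ) ≤ k := by exact_mod_cast hk
  have hk0 : (0 : ℝ) < k := by linarith
  have hδ : 0 < ε / k := div_pos hε hk0
  have hδ1 : ε / k ≤ 1 := by
    rw [div_le_one hk0]
    linarith
  have hmul : (k : ℝ) * (ε / k) = ε := by field_simp
  have hM := Mc_ge hδ hδ1 hA
  have hΛ : 1 ≤ (T.card * Mc (ε / k) A + 1) ^ (2 * T.card) := by
    refine one_le_pow₀ ?_
    have : 0 ≤ (T.card : ℝ) * Mc (ε / k) A := by positivity
    linarith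
  have h := kfold_loss A hA (ε / k) hδ _ hΛ
    (fun C hC => thmR (ε / k) hδ hδ1 T hT hTn Γ hΓ A C hA hC hfib) k
    (by rw [hmul]; exact hε1) B hB
  rw [hmul, ← pow_mul] at h
  exact h

/-- the dichotomy for products with subsets of a coset of a group of rank `r` -/
theorem kdichG (k : ℕ) (hk : 1 ≤ k) (ε : ℝ) (hε : 0 < ε) (hε1 : ε ≤ 1) (T : Finset ℕ)
    (hT : ∀ q ∈ T, q.Prime) (hTn : T.Nonempty) (Γ : Subgroup ℚˣ)
    (hΓ : ∀ γ ∈ Γ, (∀ q ∈ T, padicValRat q (γ : ℚ) = 0) → γ = 1) (A P : Finset ℤ)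
    (hA : A.Nonempty) (hA0 : (0 : ℤ) ∉ A) (hP0 : (0 : ℤ) ∉ P) (hPn : P.Nonempty)
    (hP : ∀ q ∈ P, ∀ q' ∈ P, ∃ γ ∈ Γ, (q' : ℚ) = q * (γ : ℚ))
    (hAP : 2 * Mc (ε / k) A ^ T.card * (A * P).card ≤ (A.card : ℝ) * P.card)
    (B : Finset ℤ) (hB : B.Nonempty) :
    (((A.card : ℝ) / 2) ^ k * B.card) ^ (1 - ε) ≤
      (T.card * Mc (ε / k) A + 1) ^ (2 * T.card * k) * ((ksum k A + B).card : ℝ) := by
  have hAc : (0 : ℝ) < A.card := by exact_mod_cast hA.card_pos
  have hBc : (0 : ℝ) < B.card := by exact_mod_cast hB.card_pos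
  have hkR : (1 : ℝ) ≤ k := by exact_mod_cast hk
  have hk0 : (0 : ℝ) < k := by linarith
  have hδ : 0 < ε / k := div_pos hε hk0
  have hδ1 : ε / k ≤ 1 := by
    rw [div_le_one hk0]
    linarith
  have hM := Mc_ge hδ hδ1 hA
  obtain ⟨R, hRA, hRc, hRf⟩ := exists_richG (Γ := Γ) (Mc (ε / k) A ^ T.card)
    (by positivity) A P hA0 hP0 hPn hP hAP
  have hRpos : (0 : ℝ) < R.card := by linarith
  have hRn : R.Nonempty := Finset.card_pos.1 (by exact_mod_cast hRpos)
  have hMR := Mc_ge hδ hδ1 hRn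
  have hmono := Mc_mono hδ hRn hRA
  have hmain := kfoldG k hk ε hε hε1 T hT hTn Γ hΓ R hRn
    (fun a ha => (pow_le_pow_left₀ (by linarith) hmono _).trans (hRf a ha)) B hB
  have h3 : (((A.card : ℝ) / 2) ^ k * B.card) ^ (1 - ε) ≤
      ((R.card : ℝ) ^ k * B.card) ^ (1 - ε) := by
    refine Real.rpow_le_rpow (by positivity) ?_ (by linarith)
    exact mul_le_mul_of_nonneg_right (pow_le_pow_left₀ (by positivity) hRc k) hBc.le
  refine (h3.trans hmain).trans ?_
  have h4 : ((ksum k R + B).card : ℝ) ≤ (ksum k A + B).card := by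
    exact_mod_cast Finset.card_le_card (Finset.add_subset_add (ksum_mono k hRA)
      (Finset.Subset.refl B))
  have h5 : (T.card * Mc (ε / k) R + 1) ^ (2 * T.card * k) ≤
      (T.card * Mc (ε / k) A + 1) ^ (2 * T.card * k) := by
    refine pow_le_pow_left₀ (by positivity) ?_ _
    have : (T.card : ℝ) * Mc (ε / k) R ≤ T.card * Mc (ε / k) A :=
      mul_le_mul_of_nonneg_left hmono (Nat.cast_nonneg _)
    linarith
  exact mul_le_mul h5 h4 (Nat.cast_nonneg _) (by positivity)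

end Pool.Agent.W219.SP
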