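import Pool.Agent.W219.SP.Tele

/-!
Sums with dilates: among few multipliers with distinct `p`-adic valuations one gives a large sumset.
-/

set_option autoImplicit false

namespace Pool.Agent.W219.SP

open Finset
open scoped Pointwise

theorem dvd_iff_val {p : ℕ} [Fact p.Prime] {z : ℤ} (hz : z ≠ 0) (j : ℕ) :
    (p : ℤ) ^ j ∣ z ↔ j ≤ padicValInt p z := by
  rw [padicValInt_dvd_iff]
  exact ⟨fun h => h.resolve_left hz, Or.inr⟩

theorem dvd_mul_iff {p : ℕ} [Fact p.Prime] {g : ℤ} (hg : g ≠ 0) (z : ℤ) (j : ℕ) :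
    (p : ℤ) ^ j ∣ g * z ↔ (p : ℤ) ^ (j - padicValInt p g) ∣ z := by
  by_cases hz : z = 0
  · subst hz; simp
  rw [dvd_iff_val (mul_ne_zero hg hz), dvd_iff_val hz, padicValInt.mul hg hz]
  omega

/-- the dilate `g X` -/
def dil (g : ℤ) (X : Finset ℤ) : Finset ℤ := X.image fun x => g * x

theorem card_dil {g : ℤ} (hg : g ≠ 0) (X : Finset ℤ) : (dil g X).card = X.card :=
  Finset.card_image_of_injective _ (mul_right_injective₀ hg)

theorem card_cls_dil {p : ℕ} [Fact p.Prime] {g : ℤ} (hg : g ≠ 0) (X : Finset ℤ) (x : ℤ) (j : ℕ) :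
    (cls ((p : ℤ) ^ j) (dil g X) (g * x)).card =
      (cls ((p : ℤ) ^ (j - padicValInt p g)) X x).card := by
  have h : cls ((p : ℤ) ^ j) (dil g X) (g * x) = dil g (cls ((p : ℤ) ^ (j - padicValInt p g)) X x)
      := by
    ext z
    simp only [mem_cls, dil, Finset.mem_image]
    constructor
    · rintro ⟨⟨y, hy, rfl⟩, h2⟩
      refine ⟨y, ⟨hy, ?_⟩, rfl⟩
      rw [← mul_sub] at h2
      exact (dvd_mul_iff hg _ _).1 h2
    · rintro ⟨y, ⟨hy, h2⟩, rfl⟩
      refine ⟨⟨y, hy, rfl⟩, ?_⟩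
      rw [← mul_sub]
      exact (dvd_mul_iff hg _ _).2 h2
  rw [h, card_dil hg]

theorem drop_dil {p : ℕ} [Fact p.Prime] {g : ℤ} (hg : g ≠ 0) (X : Finset ℤ) (j : ℕ) :
    drop ((p : ℤ) ^ j) ((p : ℤ) ^ (j + 1)) (dil g X) =
      if padicValInt p g ≤ j then drop ((p : ℤ) ^ (j - padicValInt p g))
        ((p : ℤ) ^ (j - padicValInt p g + 1)) X else 0 := by
  have h1 : drop ((p : ℤ) ^ j) ((p : ℤ) ^ (j + 1)) (dil g X) = ∑ x ∈ X,
      Real.log ((cls ((p : ℤ) ^ (j - padicValInt p g)) X x).card /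
        (cls ((p : ℤ) ^ (j + 1 - padicValInt p g)) X x).card) := by
    unfold drop
    rw [show dil g X = X.image fun x => g * x from rfl,
      Finset.sum_image fun x _ y _ h => mul_right_injective₀ hg h]
    refine Finset.sum_congr rfl fun x _ => ?_
    have e1 := card_cls_dil (p := p) hg X x j
    have e2 := card_cls_dil (p := p) hg X x (j + 1)
    unfold dil at e1 e2
    rw [e1, e2]
  rw [h1]
  split_ifs with hv
  · unfold drop
    rw [show j + 1 - padicValInt p g = j - padicValInt p g + 1 by omega]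
  · refine Finset.sum_eq_zero fun x hx => ?_
    rw [show j + 1 - padicValInt p g = 0 by omega, show j - padicValInt p g = 0 by omega,
      div_self (cls_posR hx).ne', Real.log_one]

/-- a level at which the elements of a finite set are separated -/
theorem exists_sep {p : ℤ} (hp : 2 ≤ p) (S : Finset ℤ) :
    ∃ J : ℕ, ∀ x ∈ S, ∀ y ∈ S, p ^ J ∣ x - y → x = y := by
  refine ⟨2 * ∑ x ∈ S, x.natAbs + 1, ?_⟩
  intro x hx y hy h
  by_contra hne
  have h1 : x - y ≠ 0 := sub_ne_zero.2 hne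
  have h2 := Int.natAbs_le_of_dvd_ne_zero h h1
  have h3 : x.natAbs ≤ ∑ x ∈ S, x.natAbs :=
    Finset.single_le_sum (f := fun x : ℤ => x.natAbs) (fun _ _ => Nat.zero_le _) hx
  have h4 : y.natAbs ≤ ∑ x ∈ S, x.natAbs :=
    Finset.single_le_sum (f := fun x : ℤ => x.natAbs) (fun _ _ => Nat.zero_le _) hy
  have h5 : (x - y).natAbs ≤ x.natAbs + y.natAbs := Int.natAbs_sub_le x y
  rw [Int.natAbs_pow] at h2
  have h6 : 2 ≤ p.natAbs := by omega
  have h7 : 2 ^ (2 * ∑ x ∈ S, x.natAbs + 1) ≤ p.natAbs ^ (2 * ∑ x ∈ S, x.natAbs + 1) :=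
    Nat.pow_le_pow_left h6 _
  have h8 : 2 * ∑ x ∈ S, x.natAbs + 1 < 2 ^ (2 * ∑ x ∈ S, x.natAbs + 1) := Nat.lt_two_pow_self
  omega

theorem pow_dvd_of_le {p : ℤ} {J J' : ℕ} (h : J ≤ J') {S : Finset ℤ}
    (hJ : ∀ x ∈ S, ∀ y ∈ S, p ^ J ∣ x - y → x = y) :
    ∀ x ∈ S, ∀ y ∈ S, p ^ J' ∣ x - y → x = y :=
  fun x hx y hy hd => hJ x hx y hy ((pow_dvd_pow p h).trans hd)

/-- from the defect bound to the power bound -/
theorem finish {a b s ε : ℝ} (ha : 0 < a) (hb : 0 < b) (hs : 0 < s)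
    (h : Real.log a + Real.log b - Real.log s ≤ ε * (Real.log a + Real.log b)) :
    (a * b) ^ (1 - ε) ≤ s := by
  rw [Real.rpow_def_of_pos (mul_pos ha hb), ← Real.exp_log hs, Real.exp_le_exp,
    Real.log_mul ha.ne' hb.ne']
  linarith

theorem dilates (p : ℕ) [Fact p.Prime] (ε : ℝ) (hε : 0 < ε) (X B G : Finset ℤ)
    (hX : X.Nonempty) (hB : B.Nonempty) (hG : G.Nonempty) (hG0 : (0 : ℤ) ∉ G)
    (hinj : ∀ g ∈ G, ∀ g' ∈ G, padicValInt p g = padicValInt p g' → g = g')
    (hcard : 2 / ε * Real.exp (6 / ε) * min (Real.log X.card) (Real.log B.card) ≤ G.card) :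
    ∃ g ∈ G, ((X.card : ℝ) * B.card) ^ (1 - ε) ≤ ((dil g X + B).card : ℝ) := by
  have hp2 : (2 : ℤ) ≤ p := by exact_mod_cast (Fact.out : p.Prime).two_le
  have hX0 : (0 : ℝ) < X.card := by exact_mod_cast hX.card_pos
  have hB0 : (0 : ℝ) < B.card := by exact_mod_cast hB.card_pos
  have hGc : (0 : ℝ) < G.card := by exact_mod_cast hG.card_pos
  have hlX : 0 ≤ Real.log X.card := Real.log_natCast_nonneg _
  have hlB : 0 ≤ Real.log B.card := Real.log_natCast_nonneg _
  have hg0 : ∀ g ∈ G, g ≠ 0 := fun g hg h => hG0 (h ▸ hg)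
  set K := Real.exp (6 / ε) with hK
  have hK1 : 1 < K := by
    rw [hK, Real.one_lt_exp_iff]
    positivity
  have hlogK : 3 / Real.log K = ε / 2 := by
    rw [hK, Real.log_exp]
    field_simp
    norm_num
  -- a common level
  have hJ : ∃ J : ℕ, (∀ x ∈ X, ∀ y ∈ X, (p : ℤ) ^ J ∣ x - y → x = y) ∧
      (∀ x ∈ B, ∀ y ∈ B, (p : ℤ) ^ J ∣ x - y → x = y) ∧
      ∀ g ∈ G, ∀ x ∈ dil g X, ∀ y ∈ dil g X, (p : ℤ) ^ J ∣ x - y → x = y := by
    obtain ⟨J, hJ⟩ := exists_sep hp2 (X ∪ B ∪ G.biUnion fun g => dil g X)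
    refine ⟨J, fun x hx y hy => hJ x ?_ y ?_, fun x hx y hy => hJ x ?_ y ?_,
      fun g hg x hx y hy => hJ x ?_ y ?_⟩
    · simp [hx]
    · simp [hy]
    · simp [hx]
    · simp [hy]
    · exact Finset.mem_union_right _ (Finset.mem_biUnion.2 ⟨g, hg, hx⟩)
    · exact Finset.mem_union_right _ (Finset.mem_biUnion.2 ⟨g, hg, hy⟩)
  obtain ⟨J, hJX, hJB, hJG⟩ := hJ
  -- the drops of the dilates add up to at most `|X| log |X|`
  have hdrop : ∀ j ∈ Finset.range J, ∑ g ∈ G, drop ((p : ℤ) ^ j) ((p : ℤ) ^ (j + 1)) (dil g X) ≤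
      X.card * Real.log X.card := by
    intro j hj
    have h1 : ∀ g ∈ G, drop ((p : ℤ) ^ j) ((p : ℤ) ^ (j + 1)) (dil g X) =
        if padicValInt p g ≤ j then drop ((p : ℤ) ^ (j - padicValInt p g))
        ((p : ℤ) ^ (j - padicValInt p g + 1)) X else 0 := fun g hg => drop_dil (hg0 g hg) X j
    rw [Finset.sum_congr rfl h1, ← Finset.sum_filter, ← sum_drop (p : ℤ) X J hJX]
    rw [← Finset.sum_image (f := fun l => drop ((p : ℤ) ^ l) ((p : ℤ) ^ (l + 1)) X)
      (g := fun g => j - padicValInt p g)]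
    · refine Finset.sum_le_sum_of_subset_of_nonneg ?_ fun l _ _ =>
        drop_nonneg (pow_dvd_pow _ (Nat.le_succ l)) X
      intro l hl
      obtain ⟨g, _, rfl⟩ := Finset.mem_image.1 hl
      rw [Finset.mem_range] at hj ⊢
      omega
    · intro g hg g' hg' h
      have hg1 := Finset.mem_filter.1 (Finset.mem_coe.1 hg)
      have hg2 := Finset.mem_filter.1 (Finset.mem_coe.1 hg')
      refine hinj g hg1.1 g' hg2.1 ?_
      simp only at h
      omega
  -- sum of the defects
  have hsum : ∑ g ∈ G, (Real.log X.card + Real.log B.card - Real.log (dil g X + B).card) ≤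
      ∑ g ∈ G, (ε / 2 * (Real.log X.card + Real.log B.card) +
        K / G.card * (Real.log X.card * Real.log B.card)) := by
    have h1 : ∀ g ∈ G, Real.log X.card + Real.log B.card - Real.log (dil g X + B).card ≤
        ε / 2 * (Real.log X.card + Real.log B.card) + K / (X.card * B.card) *
        ∑ j ∈ Finset.range J, drop ((p : ℤ) ^ j) ((p : ℤ) ^ (j + 1)) (dil g X) *
          drop ((p : ℤ) ^ j) ((p : ℤ) ^ (j + 1)) B := by
      intro g hg
      have h2 := star (p : ℤ) (dil g X) B (hX.image _) hB hK1 J (hJG g hg) hJB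
      rw [card_dil (hg0 g hg), hlogK] at h2
      refine h2.trans (le_of_eq ?_)
      ring
    refine (Finset.sum_le_sum h1).trans ?_
    rw [Finset.sum_add_distrib, Finset.sum_add_distrib]
    refine add_le_add le_rfl ?_
    rw [← Finset.mul_sum, Finset.sum_comm, Finset.sum_const, nsmul_eq_mul]
    have h2 : ∑ j ∈ Finset.range J, ∑ g ∈ G,
        drop ((p : ℤ) ^ j) ((p : ℤ) ^ (j + 1)) (dil g X) *
          drop ((p : ℤ) ^ j) ((p : ℤ) ^ (j + 1)) B ≤
        X.card * Real.log X.card * (B.card * Real.log B.card) := by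
      rw [← sum_drop (p : ℤ) B J hJB, Finset.mul_sum]
      refine Finset.sum_le_sum fun j hj => ?_
      rw [← Finset.sum_mul]
      exact mul_le_mul_of_nonneg_right (hdrop j hj)
        (drop_nonneg (pow_dvd_pow _ (Nat.le_succ j)) B)
    calc K / (X.card * B.card) * ∑ j ∈ Finset.range J, ∑ g ∈ G,
        drop ((p : ℤ) ^ j) ((p : ℤ) ^ (j + 1)) (dil g X) *
          drop ((p : ℤ) ^ j) ((p : ℤ) ^ (j + 1)) B ≤ K / (X.card * B.card) *
          (X.card * Real.log X.card * (B.card * Real.log B.card)) :=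
          mul_le_mul_of_nonneg_left h2 (by positivity)
      _ = G.card * (K / G.card * (Real.log X.card * Real.log B.card)) := by
          field_simp
  obtain ⟨g, hg, hgle⟩ := Finset.exists_le_of_sum_le hG hsum
  refine ⟨g, hg, ?_⟩
  have hs : (0 : ℝ) < (dil g X + B).card := by
    exact_mod_cast ((hX.image _).add hB).card_pos
  refine finish hX0 hB0 hs (hgle.trans ?_)
  have h3 : K / G.card * (Real.log X.card * Real.log B.card) ≤
      ε / 2 * (Real.log X.card + Real.log B.card) := by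
    have h4 : Real.log X.card * Real.log B.card = min (Real.log X.card) (Real.log B.card) *
        max (Real.log X.card) (Real.log B.card) := (min_mul_max _ _).symm
    have h5 : max (Real.log (X.card : ℝ)) (Real.log B.card) ≤
        Real.log X.card + Real.log B.card := max_le (by linarith) (by linarith)
    have h6 : 0 ≤ max (Real.log (X.card : ℝ)) (Real.log B.card) := le_max_of_le_left hlX
    rw [h4, div_mul_eq_mul_div, div_le_iff₀ hGc]
    have h7 : K * min (Real.log (X.card : ℝ)) (Real.log B.card) ≤ ε / 2 * G.card := by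
      have h8 := mul_le_mul_of_nonneg_left hcard (by positivity : (0 : ℝ) ≤ ε / 2)
      refine le_trans (le_of_eq ?_) h8
      field_simp
    calc K * (min (Real.log (X.card : ℝ)) (Real.log B.card) *
          max (Real.log (X.card : ℝ)) (Real.log B.card)) =
          (K * min (Real.log (X.card : ℝ)) (Real.log B.card)) *
          max (Real.log (X.card : ℝ)) (Real.log B.card) := by ring
      _ ≤ (ε / 2 * G.card) * max (Real.log (X.card : ℝ)) (Real.log B.card) :=
          mul_le_mul_of_nonneg_right h7 h6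
      _ ≤ (ε / 2 * G.card) * (Real.log X.card + Real.log B.card) :=
          mul_le_mul_of_nonneg_left h5 (by positivity)
      _ = _ := by ring
  linarith

end Pool.Agent.W219.SP
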