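import Pool.Agent.W219.SP.Tele

/-!
The drops of a set all of whose elements lie in long fibres are small.
-/

set_option autoImplicit false

namespace Pool.Agent.W219.SP

open Finset
open scoped Pointwise

/-- data of a labelled set: `e` is the `p`-adic valuation, `lab` a label, and `E l` the relation
the labels agree to precision `l` -/
structure Lab (p : ℤ) (A : Finset ℤ) (e : ℤ → ℕ) (lab : ℤ → ℚ) (E : ℕ → ℤ → ℤ → Prop) :
    Prop where
  val : ∀ x ∈ A, ∀ j : ℕ, p ^ j ∣ x ↔ j ≤ e x
  refl : ∀ l x, E l x x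
  symm : ∀ l x y, E l x y → E l y x
  trans : ∀ l x y z, E l x y → E l y z → E l x z
  mono : ∀ l x y, E (l + 1) x y → E l x y
  dvd : ∀ l, ∀ x ∈ A, ∀ y ∈ A, e x = e y → (E l x y ↔ p ^ (e x + l) ∣ y - x)
  labE : ∀ l x y, lab x = lab y → E l x y
  inj : ∀ x ∈ A, ∀ y ∈ A, lab x = lab y → e x = e y → x = y

section

variable {p : ℤ} {A : Finset ℤ} {e : ℤ → ℕ} {lab : ℤ → ℚ} {E : ℕ → ℤ → ℤ → Prop}

open Classical in
/-- elements of `A` whose label agrees with that of `x` to precision `l` -/
noncomputable def Wset (A : Finset ℤ) (E : ℕ → ℤ → ℤ → Prop) (l : ℕ) (x : ℤ) : Finset ℤ :=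
  A.filter fun y => E l x y

theorem mem_Wset {l : ℕ} {x y : ℤ} : y ∈ Wset A E l x ↔ y ∈ A ∧ E l x y := by
  classical
  simp [Wset]

theorem Wset_pos (h : Lab p A e lab E) (l : ℕ) {x : ℤ} (hx : x ∈ A) :
    (0 : ℝ) < (Wset A E l x).card := by
  exact_mod_cast Finset.card_pos.2 ⟨x, mem_Wset.2 ⟨hx, h.refl l x⟩⟩

theorem Wset_congr (h : Lab p A e lab E) (l : ℕ) {x y : ℤ} (hxy : E l x y) :
    Wset A E l x = Wset A E l y := by
  ext z
  rw [mem_Wset, mem_Wset]
  exact ⟨fun hz => ⟨hz.1, h.trans l y x z (h.symm l x y hxy) hz.2⟩,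
    fun hz => ⟨hz.1, h.trans l x y z hxy hz.2⟩⟩

theorem Wset_sub (h : Lab p A e lab E) (l : ℕ) (x : ℤ) :
    Wset A E (l + 1) x ⊆ Wset A E l x := by
  intro z hz
  rw [mem_Wset] at hz ⊢
  exact ⟨hz.1, h.mono l x z hz.2⟩

/-- elements of a class off the spine have the same valuation -/
theorem val_eq (h : Lab p A e lab E) {j : ℕ} {a x : ℤ} (ha : a ∈ A) (hx : x ∈ A)
    (haj : e a < j) (hd : p ^ j ∣ x - a) : e x = e a := by
  have h1 : p ^ (e a) ∣ a := (h.val a ha _).2 le_rfl
  have h2 : ¬ p ^ (e a + 1) ∣ a := fun h3 => by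
    have := (h.val a ha _).1 h3
    omega
  have h3 : p ^ (e a) ∣ x := by
    have := dvd_add ((pow_dvd_pow p haj.le).trans hd) h1
    rwa [sub_add_cancel] at this
  have h4 : ¬ p ^ (e a + 1) ∣ x := by
    intro h5
    apply h2
    have := dvd_sub h5 ((pow_dvd_pow p (show e a + 1 ≤ j by omega)).trans hd)
    rwa [sub_sub_cancel] at this
  have h5 := (h.val x hx _).1 h3
  have h6 : ¬ e a + 1 ≤ e x := fun h7 => h4 ((h.val x hx _).2 h7)
  omega

/-- the children of a class have total weight at most the weight of the class -/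
theorem child_le (h : Lab p A e lab E) {j : ℕ} {a : ℤ} (ha : a ∈ A) (haj : e a < j) :
    ∑ x ∈ cls (p ^ j) A a, ((Wset A E (j - e a + 1) x).card : ℝ) *
      (1 / (cls (p ^ (j + 1)) A x).card) ≤ (Wset A E (j - e a) a).card := by
  classical
  set l := j - e a with hl
  have h1 : ∀ x ∈ cls (p ^ j) A a, ((Wset A E (l + 1) x).card : ℝ) *
      (1 / (cls (p ^ (j + 1)) A x).card) =
      ∑ z ∈ A, if E (l + 1) x z then (1 / ((cls (p ^ (j + 1)) A x).card : ℝ)) else 0 := by
    intro x _
    rw [← Finset.sum_filter, Finset.sum_const, nsmul_eq_mul]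
    unfold Wset
    rfl
  rw [Finset.sum_congr rfl h1, Finset.sum_comm]
  have h2 : ∀ z ∈ A, ∑ x ∈ cls (p ^ j) A a,
      (if E (l + 1) x z then (1 / ((cls (p ^ (j + 1)) A x).card : ℝ)) else 0) ≤
      if E l a z then 1 else 0 := by
    intro z _
    rw [← Finset.sum_filter]
    have hsame : ∀ x ∈ (cls (p ^ j) A a).filter (fun x => E (l + 1) x z), e x = e a := by
      intro x hx
      obtain ⟨hx1, hx2⟩ := mem_cls.1 (Finset.mem_filter.1 hx).1
      exact val_eq h ha hx1 haj hx2
    have h3 : ∑ x ∈ (cls (p ^ j) A a).filter (fun x => E (l + 1) x z),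
        (1 / ((cls (p ^ (j + 1)) A x).card : ℝ)) ≤ 1 := by
      refine sum_inv_le ((Finset.filter_subset _ _).trans (cls_sub _ _ _)) ?_
      intro x hx y hy
      have hxe := hsame x hx
      have hye := hsame y hy
      have hxA := (mem_cls.1 (Finset.mem_filter.1 hx).1).1
      have hyA := (mem_cls.1 (Finset.mem_filter.1 hy).1).1
      have hE : E (l + 1) y x := h.trans _ y z x (Finset.mem_filter.1 hy).2
        (h.symm _ x z (Finset.mem_filter.1 hx).2)
      have := (h.dvd (l + 1) y hyA x hxA (hye.trans hxe.symm)).1 hE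
      rw [hye] at this
      have e1 : e a + (l + 1) = j + 1 := by omega
      rwa [e1] at this
    by_cases hE : E l a z
    · rw [if_pos hE]
      exact h3
    · rw [if_neg hE]
      refine le_of_eq (Finset.sum_eq_zero fun x hx => ?_)
      exfalso
      apply hE
      obtain ⟨hx1, hx2⟩ := Finset.mem_filter.1 hx
      have hxe := hsame x hx
      have hxA := (mem_cls.1 hx1).1
      have h4 : E l a x := by
        refine (h.dvd l a ha x hxA hxe.symm).2 ?_
        have e1 : e a + l = j := by omega
        rw [e1]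
        exact (mem_cls.1 hx1).2
      exact h.trans _ a x z h4 (h.mono _ x z hx2)
  refine (Finset.sum_le_sum h2).trans (le_of_eq ?_)
  rw [← Finset.sum_filter, Finset.sum_const, nsmul_eq_mul, mul_one]
  unfold Wset
  rfl

/-- reference drop of an element -/
noncomputable def ref (p : ℤ) (A : Finset ℤ) (e : ℤ → ℕ) (E : ℕ → ℤ → ℤ → Prop) (j : ℕ) (x : ℤ) :
    ℝ :=
  if e x < j then Real.log ((Wset A E (j - e x) x).card / (Wset A E (j - e x + 1) x).card)
  else Real.log ((cls (p ^ j) A x).card / (cls (p ^ (j + 1)) A x).card)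

/-- Gibbs' inequality -/
theorem gibbs (h : Lab p A e lab E) (j : ℕ) :
    drop (p ^ j) (p ^ (j + 1)) A ≤ ∑ x ∈ A, ref p A e E j x := by
  let z : ℤ → ℝ := fun x => if e x < j then
    ((cls (p ^ j) A x).card : ℝ) / (Wset A E (j - e x) x).card *
      ((Wset A E (j - e x + 1) x).card * (1 / (cls (p ^ (j + 1)) A x).card)) else 1
  have h1 : ∀ x ∈ A, Real.log ((cls (p ^ j) A x).card / (cls (p ^ (j + 1)) A x).card) ≤
      ref p A e E j x + (z x - 1) := by
    intro x hx
    have c1 := cls_posR (q := p ^ j) hx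
    have c2 := cls_posR (q := p ^ (j + 1)) hx
    have w1 := Wset_pos h (j - e x) hx
    have w2 := Wset_pos h (j - e x + 1) hx
    by_cases hj : e x < j
    · simp only [ref, z, if_pos hj]
      have h2 := Real.log_le_sub_one_of_pos (x := ((cls (p ^ j) A x).card : ℝ) /
        (Wset A E (j - e x) x).card * ((Wset A E (j - e x + 1) x).card *
          (1 / (cls (p ^ (j + 1)) A x).card))) (by positivity)
      rw [Real.log_mul (by positivity) (by positivity), Real.log_div c1.ne' w1.ne',
        Real.log_mul w2.ne' (by positivity), one_div, Real.log_inv] at h2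
      rw [Real.log_div c1.ne' c2.ne', Real.log_div w1.ne' w2.ne', one_div]
      linarith
    · simp only [ref, z, if_neg hj]
      linarith
  have h2 : ∑ x ∈ A, z x ≤ A.card := by
    rw [← avg_cls (p ^ j) A z]
    have h3 : ∀ a ∈ A, (1 / ((cls (p ^ j) A a).card : ℝ)) * ∑ x ∈ cls (p ^ j) A a, z x ≤ 1 := by
      intro a ha
      have c1 := cls_posR (q := p ^ j) ha
      have h4 : ∑ x ∈ cls (p ^ j) A a, z x ≤ (cls (p ^ j) A a).card := by
        by_cases hj : e a < j
        · have h5 : ∀ x ∈ cls (p ^ j) A a, z x = ((cls (p ^ j) A a).card : ℝ) /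
              (Wset A E (j - e a) a).card * ((Wset A E (j - e a + 1) x).card *
              (1 / (cls (p ^ (j + 1)) A x).card)) := by
            intro x hx
            obtain ⟨hx1, hx2⟩ := mem_cls.1 hx
            have hxe := val_eq h ha hx1 hj hx2
            have hE : E (j - e a) x a := by
              refine h.symm _ a x ((h.dvd _ a ha x hx1 hxe.symm).2 ?_)
              have e1 : e a + (j - e a) = j := by omega
              rw [e1]
              exact hx2
            simp only [z]
            rw [hxe, if_pos hj, cls_congr hx2, Wset_congr h _ hE]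
          rw [Finset.sum_congr rfl h5, ← Finset.mul_sum]
          have w1 := Wset_pos h (j - e a) ha
          calc ((cls (p ^ j) A a).card : ℝ) / (Wset A E (j - e a) a).card *
              ∑ x ∈ cls (p ^ j) A a, ((Wset A E (j - e a + 1) x).card : ℝ) *
              (1 / (cls (p ^ (j + 1)) A x).card) ≤ ((cls (p ^ j) A a).card : ℝ) /
              (Wset A E (j - e a) a).card * (Wset A E (j - e a) a).card :=
                mul_le_mul_of_nonneg_left (child_le h ha hj) (by positivity)
            _ = _ := by field_simp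
        · have h5 : ∀ x ∈ cls (p ^ j) A a, z x = 1 := by
            intro x hx
            obtain ⟨hx1, hx2⟩ := mem_cls.1 hx
            have h6 : p ^ j ∣ x := by
              have := dvd_add hx2 ((h.val a ha j).2 (by omega))
              rwa [sub_add_cancel] at this
            have h7 := (h.val x hx1 j).1 h6
            simp only [z]
            rw [if_neg (by omega)]
          rw [Finset.sum_congr rfl h5]
          simp
      rw [one_div, inv_mul_le_iff₀ c1, mul_one]
      exact h4
    refine (Finset.sum_le_sum h3).trans ?_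
    simp
  have h3 := Finset.sum_le_sum h1
  rw [Finset.sum_add_distrib, Finset.sum_sub_distrib] at h3
  unfold drop
  have h4 : ∑ x ∈ A, (1 : ℝ) = A.card := by simp
  rw [h4] at h3
  linarith

open Classical in
/-- the fibre of `a` -/
noncomputable def fib (A : Finset ℤ) (lab : ℤ → ℚ) (a : ℤ) : Finset ℤ :=
  A.filter fun x => lab x = lab a

theorem mem_fib {a x : ℤ} : x ∈ fib A lab a ↔ x ∈ A ∧ lab x = lab a := by
  classical
  simp [fib]

theorem avg_fib (A : Finset ℤ) (lab : ℤ → ℚ) (f : ℤ → ℝ) :
    ∑ a ∈ A, (1 / ((fib A lab a).card : ℝ)) * ∑ x ∈ fib A lab a, f x = ∑ x ∈ A, f x := by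
  refine avg_gen A (fib A lab) (fun a _ x hx => (mem_fib.1 hx).1)
    (fun a ha => mem_fib.2 ⟨ha, rfl⟩) (fun a _ x hx => ?_) f
  ext z
  rw [mem_fib, mem_fib, (mem_fib.1 hx).2]

/-- averages over long fibres -/
theorem avg_fib_le {M : ℝ} (hM : 0 < M) (hfib : ∀ a ∈ A, M ≤ ((fib A lab a).card : ℝ))
    (f : ℤ → ℝ) (c : ℝ) (hc0 : 0 ≤ c) (hc : ∀ a ∈ A, ∑ x ∈ fib A lab a, f x ≤ c) :
    ∑ x ∈ A, f x ≤ A.card * (c / M) := by
  rw [← avg_fib A lab f]
  have h1 : ∀ a ∈ A, (1 / ((fib A lab a).card : ℝ)) * ∑ x ∈ fib A lab a, f x ≤ c / M := by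
    intro a ha
    have h2 := hfib a ha
    have h3 : (0 : ℝ) < (fib A lab a).card := by linarith
    calc (1 / ((fib A lab a).card : ℝ)) * ∑ x ∈ fib A lab a, f x ≤
        (1 / ((fib A lab a).card : ℝ)) * c :=
          mul_le_mul_of_nonneg_left (hc a ha) (by positivity)
      _ ≤ (1 / M) * c := mul_le_mul_of_nonneg_right (one_div_le_one_div_of_le hM h2) hc0
      _ = c / M := by ring
  refine (Finset.sum_le_sum h1).trans (le_of_eq ?_)
  rw [Finset.sum_const, nsmul_eq_mul]

/-- at most one element of a fibre has a given valuation -/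
theorem fib_val_le (h : Lab p A e lab E) (a : ℤ) (j : ℕ) :
    ((fib A lab a).filter fun x => e x = j).card ≤ 1 := by
  rw [Finset.card_le_one]
  intro x hx y hy
  obtain ⟨hx1, hx2⟩ := Finset.mem_filter.1 hx
  obtain ⟨hy1, hy2⟩ := Finset.mem_filter.1 hy
  rw [mem_fib] at hx1 hy1
  exact h.inj x hx1.1 y hy1.1 (hx1.2.trans hy1.2.symm) (hx2.trans hy2.symm)

theorem count_val (h : Lab p A e lab E) {M : ℝ} (hM : 0 < M)
    (hfib : ∀ a ∈ A, M ≤ ((fib A lab a).card : ℝ)) (j : ℕ) :
    ((A.filter fun x => e x = j).card : ℝ) ≤ A.card * (1 / M) := by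
  have h1 := avg_fib_le hM hfib (fun x => if e x = j then 1 else 0) 1 zero_le_one (by
    intro a _
    rw [← Finset.sum_filter, Finset.sum_const, nsmul_eq_mul, mul_one]
    exact_mod_cast fib_val_le h a j)
  rw [← Finset.sum_filter, Finset.sum_const, nsmul_eq_mul, mul_one] at h1
  exact h1

/-- the part of the reference drop off the spine -/
theorem off_spine (h : Lab p A e lab E) {M : ℝ} (hM : 0 < M)
    (hfib : ∀ a ∈ A, M ≤ ((fib A lab a).card : ℝ)) (j : ℕ) :
    ∑ x ∈ A.filter (fun x => e x < j), ref p A e E j x ≤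
      A.card * (Real.log A.card / M) := by
  rw [Finset.sum_filter]
  rcases A.eq_empty_or_nonempty with hA | hA
  · subst hA; simp
  refine avg_fib_le hM hfib _ _ (Real.log_natCast_nonneg _) ?_
  intro a ha
  let φ : ℕ → ℝ := fun l => Real.log ((Wset A E l a).card / (Wset A E (l + 1) a).card)
  have hφ0 : ∀ l, 0 ≤ φ l := by
    intro l
    refine Real.log_nonneg ?_
    rw [le_div_iff₀ (Wset_pos h (l + 1) ha), one_mul]
    exact_mod_cast Finset.card_le_card (Wset_sub h l a)
  have h1 : ∑ x ∈ fib A lab a, (if e x < j then ref p A e E j x else 0) =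
      ∑ x ∈ (fib A lab a).filter (fun x => e x < j), φ (j - e x) := by
    rw [Finset.sum_filter]
    refine Finset.sum_congr rfl fun x hx => ?_
    by_cases hj : e x < j
    · rw [if_pos hj, if_pos hj]
      have hlab := (mem_fib.1 hx).2
      simp only [ref, φ]
      rw [if_pos hj, Wset_congr h _ (h.labE (j - e x) x a hlab),
        Wset_congr h _ (h.labE (j - e x + 1) x a hlab)]
    · rw [if_neg hj, if_neg hj]
  rw [h1]
  have hinj : Set.InjOn (fun x => j - e x)
      ((fib A lab a).filter (fun x => e x < j) : Set ℤ) := by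
    intro x hx y hy hxy
    obtain ⟨hx1, hx2⟩ := Finset.mem_filter.1 (Finset.mem_coe.1 hx)
    obtain ⟨hy1, hy2⟩ := Finset.mem_filter.1 (Finset.mem_coe.1 hy)
    rw [mem_fib] at hx1 hy1
    refine h.inj x hx1.1 y hy1.1 (hx1.2.trans hy1.2.symm) ?_
    simp only at hxy
    omega
  rw [← Finset.sum_image (f := φ) (g := fun x => j - e x) (fun x hx y hy hxy =>
    hinj (Finset.mem_coe.2 hx) (Finset.mem_coe.2 hy) hxy)]
  have h2 : ((fib A lab a).filter (fun x => e x < j)).image (fun x => j - e x) ⊆
      Finset.range (j + 1) := by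
    intro l hl
    obtain ⟨x, _, rfl⟩ := Finset.mem_image.1 hl
    rw [Finset.mem_range]
    omega
  refine (Finset.sum_le_sum_of_subset_of_nonneg h2 fun l _ _ => hφ0 l).trans ?_
  have h3 : ∀ l ∈ Finset.range (j + 1), φ l =
      Real.log (Wset A E l a).card - Real.log (Wset A E (l + 1) a).card := by
    intro l _
    exact Real.log_div (Wset_pos h l ha).ne' (Wset_pos h (l + 1) ha).ne'
  rw [Finset.sum_congr rfl h3, Finset.sum_range_sub']
  have h4 : 0 ≤ Real.log (Wset A E (j + 1) a).card := Real.log_natCast_nonneg _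
  have h5 : Real.log (Wset A E 0 a).card ≤ Real.log A.card := by
    refine Real.log_le_log (Wset_pos h 0 ha) ?_
    exact_mod_cast Finset.card_le_card (fun z hz => (mem_Wset.1 hz).1)
  linarith

/-- the part of the reference drop on the spine -/
theorem on_spine (h : Lab p A e lab E) {M : ℝ} (hM : 0 < M)
    (hfib : ∀ a ∈ A, M ≤ ((fib A lab a).card : ℝ)) (j : ℕ) :
    ∑ x ∈ A.filter (fun x => ¬ e x < j), ref p A e E j x ≤
      A.card * ((1 + Real.log A.card) / M) := by
  rcases A.eq_empty_or_nonempty with hA | hA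
  · subst hA; simp
  have hA0 : (0 : ℝ) < A.card := by exact_mod_cast hA.card_pos
  have hcl : ∀ i : ℕ, ∀ x ∈ A, i ≤ e x → cls (p ^ i) A x = A.filter fun y => i ≤ e y := by
    intro i x hx hix
    have hx2 := (h.val x hx i).2 hix
    ext y
    rw [mem_cls, Finset.mem_filter]
    constructor
    · rintro ⟨h1, h2⟩
      refine ⟨h1, (h.val y h1 i).1 ?_⟩
      have := dvd_add h2 hx2
      rwa [sub_add_cancel] at this
    · rintro ⟨h1, h2⟩
      exact ⟨h1, dvd_sub ((h.val y h1 i).2 h2) hx2⟩
  set Z : ℕ → Finset ℤ := fun i => A.filter fun y => i ≤ e y with hZ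
  have hcard : ((Z j).card : ℝ) = (A.filter fun x => e x = j).card + (Z (j + 1)).card := by
    have h1 : Z j = (A.filter fun x => e x = j) ∪ Z (j + 1) := by
      ext x
      simp only [hZ, Finset.mem_union, Finset.mem_filter]
      constructor
      · rintro ⟨h2, h3⟩
        by_cases h4 : e x = j
        · exact Or.inl ⟨h2, h4⟩
        · exact Or.inr ⟨h2, by omega⟩
      · rintro (⟨h2, h3⟩ | ⟨h2, h3⟩)
        · exact ⟨h2, by omega⟩
        · exact ⟨h2, by omega⟩
    have h2 : Disjoint (A.filter fun x => e x = j) (Z (j + 1)) := by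
      rw [Finset.disjoint_left]
      intro x hx hx2
      have e1 := (Finset.mem_filter.1 hx).2
      have e2 := (Finset.mem_filter.1 hx2).2
      omega
    rw [h1, Finset.card_union_of_disjoint h2]
    push_cast
    ring
  have hm := count_val h hM hfib j
  have hsplit : A.filter (fun x => ¬ e x < j) = (A.filter fun x => e x = j) ∪ Z (j + 1) := by
    ext x
    simp only [hZ, Finset.mem_union, Finset.mem_filter]
    constructor
    · rintro ⟨h2, h3⟩
      by_cases h4 : e x = j
      · exact Or.inl ⟨h2, h4⟩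
      · exact Or.inr ⟨h2, by omega⟩
    · rintro (⟨h2, h3⟩ | ⟨h2, h3⟩)
      · exact ⟨h2, by omega⟩
      · exact ⟨h2, by omega⟩
  have hdisj : Disjoint (A.filter fun x => e x = j) (Z (j + 1)) := by
    rw [Finset.disjoint_left]
    intro x hx hx2
    have e1 := (Finset.mem_filter.1 hx).2
    have e2 := (Finset.mem_filter.1 hx2).2
    omega
  rw [hsplit, Finset.sum_union hdisj]
  have hlogA : 0 ≤ Real.log A.card := Real.log_natCast_nonneg _
  -- elements of valuation `j`
  have h1 : ∑ x ∈ A.filter (fun x => e x = j), ref p A e E j x ≤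
      (A.filter fun x => e x = j).card * Real.log A.card := by
    rw [← nsmul_eq_mul, ← Finset.sum_const]
    refine Finset.sum_le_sum fun x hx => ?_
    obtain ⟨hx1, hx2⟩ := Finset.mem_filter.1 hx
    simp only [ref]
    rw [if_neg (by omega)]
    refine Real.log_le_log (div_pos (cls_posR hx1) (cls_posR hx1)) ?_
    rw [div_le_iff₀ (cls_posR hx1)]
    have e1 : ((cls (p ^ j) A x).card : ℝ) ≤ A.card := by
      exact_mod_cast Finset.card_le_card (cls_sub _ _ _)
    have e2 : (1 : ℝ) ≤ (cls (p ^ (j + 1)) A x).card := by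
      exact_mod_cast cls_pos (q := p ^ (j + 1)) hx1
    nlinarith
  -- elements of larger valuation
  have h2 : ∑ x ∈ Z (j + 1), ref p A e E j x ≤ (A.filter fun x => e x = j).card := by
    have h3 : ∀ x ∈ Z (j + 1), ref p A e E j x =
        Real.log ((Z j).card / (Z (j + 1)).card) := by
      intro x hx
      obtain ⟨hx1, hx2⟩ := Finset.mem_filter.1 hx
      simp only [ref]
      rw [if_neg (by omega), hcl j x hx1 (by omega), hcl (j + 1) x hx1 hx2]
    rw [Finset.sum_congr rfl h3, Finset.sum_const, nsmul_eq_mul]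
    rcases (Z (j + 1)).eq_empty_or_nonempty with h0 | h0
    · rw [h0]
      simp
    · have hz : (0 : ℝ) < (Z (j + 1)).card := by exact_mod_cast h0.card_pos
      have hz2 : (0 : ℝ) < (Z j).card := by
        rw [hcard]
        positivity
      have h4 := Real.log_le_sub_one_of_pos (div_pos hz2 hz)
      have h5 := mul_le_mul_of_nonneg_left h4 hz.le
      rw [mul_sub, mul_one, mul_div_cancel₀ _ hz.ne'] at h5
      linarith
  have h3 : ((A.filter fun x => e x = j).card : ℝ) * Real.log A.card ≤
      A.card * (1 / M) * Real.log A.card := mul_le_mul_of_nonneg_right hm hlogA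
  calc _ ≤ ((A.filter fun x => e x = j).card : ℝ) * Real.log A.card +
        (A.filter fun x => e x = j).card := add_le_add h1 h2
    _ ≤ A.card * (1 / M) * Real.log A.card + A.card * (1 / M) := add_le_add h3 hm
    _ = A.card * ((1 + Real.log A.card) / M) := by ring

/-- the drops of a set with long fibres are small -/
theorem drop_le (h : Lab p A e lab E) {M : ℝ} (hM : 0 < M)
    (hfib : ∀ a ∈ A, M ≤ ((fib A lab a).card : ℝ)) (j : ℕ) :
    drop (p ^ j) (p ^ (j + 1)) A ≤ A.card * ((1 + 2 * Real.log A.card) / M) := by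
  refine (gibbs h j).trans ?_
  rw [← Finset.sum_filter_add_sum_filter_not A (fun x => e x < j)]
  refine (add_le_add (off_spine h hM hfib j) (on_spine h hM hfib j)).trans (le_of_eq ?_)
  ring

end

end Pool.Agent.W219.SP
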