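import Pool.Agent.W219.SP.Fib
import Pool.Agent.W219.SP.Dil

/-!
Sumsets of finite sets of integers all of whose elements lie in long fibres.
-/

set_option autoImplicit false

namespace Pool.Agent.W219.SP

open Finset
open scoped Pointwise

/-- the label of `x` with respect to the sequence `g` -/
noncomputable def labl (p : ℕ) (g : ℕ → ℚ) (x : ℤ) : ℚ := (x : ℚ) / g (padicValInt p x)

/-- agreement of the labels to precision `l` -/
def Rel (p : ℕ) (g : ℕ → ℚ) (l : ℕ) (x y : ℤ) : Prop :=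
  padicNorm p (labl p g y - labl p g x) ≤ (p : ℚ) ^ (-(l : ℤ))

theorem lab_inst (p : ℕ) [hp : Fact p.Prime] (g : ℕ → ℚ)
    (hg : ∀ n, padicNorm p (g n) = (p : ℚ) ^ (-(n : ℤ))) (A : Finset ℤ) (h0 : (0 : ℤ) ∉ A) :
    Lab (p : ℤ) A (padicValInt p) (labl p g) (Rel p g) := by
  have hp0 : (0 : ℚ) < p := by exact_mod_cast hp.out.pos
  have hp1 : (1 : ℚ) ≤ p := by exact_mod_cast hp.out.one_lt.le
  have hne : ∀ x ∈ A, x ≠ 0 := fun x hx h => h0 (h ▸ hx)
  have hgn : ∀ n, g n ≠ 0 := by
    intro n h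
    have h1 := hg n
    rw [h, padicNorm.zero] at h1
    exact (zpow_pos hp0 _).ne h1
  refine ⟨?_, ?_, ?_, ?_, ?_, ?_, ?_, ?_⟩
  · intro x hx j
    exact dvd_iff_val (hne x hx) j
  · intro l x
    unfold Rel
    rw [sub_self, padicNorm.zero]
    positivity
  · intro l x y h
    unfold Rel at *
    rwa [← neg_sub, padicNorm.neg]
  · intro l x y z h1 h2
    unfold Rel at *
    have h3 : labl p g z - labl p g x = (labl p g z - labl p g y) + (labl p g y - labl p g x) := by
      ring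
    rw [h3]
    exact padicNorm.nonarchimedean.trans (max_le h2 h1)
  · intro l x y h
    unfold Rel at *
    refine h.trans (zpow_le_zpow_right₀ hp1 ?_)
    push_cast
    omega
  · intro l x _ y _ hxy
    unfold Rel labl
    rw [hxy, ← sub_div, padicNorm.div, hg, div_le_iff₀ (zpow_pos hp0 _), ← zpow_add₀ hp0.ne']
    have h1 := padicNorm.dvd_iff_norm_le (p := p) (n := padicValInt p y + l) (z := y - x)
    push_cast at h1
    rw [h1]
    rw [show -(l : ℤ) + -(padicValInt p y : ℤ) = -((padicValInt p y : ℤ) + l) by ring]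
  · intro l x y h
    unfold Rel
    rw [h, sub_self, padicNorm.zero]
    positivity
  · intro x _ y _ h1 h2
    unfold labl at h1
    rw [h2] at h1
    have h3 := (div_left_inj' (hgn _)).1 h1
    exact_mod_cast h3

theorem main_gen (p : ℕ) [hp : Fact p.Prime] (g : ℕ → ℚ)
    (hg : ∀ n, padicNorm p (g n) = (p : ℚ) ^ (-(n : ℤ))) (ε : ℝ) (hε : 0 < ε)
    (A B : Finset ℤ) (h0 : (0 : ℤ) ∉ A) (hA : A.Nonempty) (hB : B.Nonempty)
    (hfib : ∀ a ∈ A, 4 / ε * Real.exp (6 / ε) * Real.log (2 * A.card) ≤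
      ((fib A (labl p g) a).card : ℝ)) :
    ((A.card : ℝ) * B.card) ^ (1 - ε) ≤ ((A + B).card : ℝ) := by
  have hp2 : (2 : ℤ) ≤ p := by exact_mod_cast hp.out.two_le
  have hA0 : (0 : ℝ) < A.card := by exact_mod_cast hA.card_pos
  have hA1 : (1 : ℝ) ≤ A.card := by exact_mod_cast hA.card_pos
  have hB0 : (0 : ℝ) < B.card := by exact_mod_cast hB.card_pos
  have hs : (0 : ℝ) < (A + B).card := by exact_mod_cast (hA.add hB).card_pos
  have hlA : 0 ≤ Real.log A.card := Real.log_natCast_nonneg _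
  have hlB : 0 ≤ Real.log B.card := Real.log_natCast_nonneg _
  set K := Real.exp (6 / ε) with hK
  have hK1 : 1 < K := by
    rw [hK, Real.one_lt_exp_iff]
    positivity
  have hlogK : 3 / Real.log K = ε / 2 := by
    rw [hK, Real.log_exp]
    field_simp
    norm_num
  have hl2 : (1 : ℝ) / 2 ≤ Real.log 2 := by
    have := Real.log_two_gt_d9
    linarith
  have hlog : Real.log (2 * A.card) = Real.log 2 + Real.log A.card :=
    Real.log_mul (by norm_num) hA0.ne'
  set M := 4 / ε * K * Real.log (2 * A.card) with hM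
  have hM0 : 0 < M := by
    rw [hM, hlog]
    positivity
  obtain ⟨J, hJ⟩ := exists_sep hp2 (A ∪ B)
  have hJA : ∀ x ∈ A, ∀ y ∈ A, (p : ℤ) ^ J ∣ x - y → x = y :=
    fun x hx y hy => hJ x (Finset.mem_union_left _ hx) y (Finset.mem_union_left _ hy)
  have hJB : ∀ x ∈ B, ∀ y ∈ B, (p : ℤ) ^ J ∣ x - y → x = y :=
    fun x hx y hy => hJ x (Finset.mem_union_right _ hx) y (Finset.mem_union_right _ hy)
  have h := star_unif (p : ℤ) A B hA hB hK1 J hJA hJB ((1 + 2 * Real.log A.card) / M)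
    (fun j _ => drop_le (lab_inst p g hg A h0) hM0 hfib j)
  refine finish hA0 hB0 hs (h.trans ?_)
  rw [hlogK]
  have h1 : K * ((1 + 2 * Real.log A.card) / M) ≤ ε / 2 := by
    rw [← mul_div_assoc, div_le_iff₀ hM0, hM, hlog]
    have h2 : ε / 2 * (4 / ε * K * (Real.log 2 + Real.log A.card)) =
        K * (2 * Real.log 2 + 2 * Real.log A.card) := by
      field_simp
      ring
    rw [h2]
    refine mul_le_mul_of_nonneg_left ?_ (by linarith)
    linarith
  have h3 : K * ((1 + 2 * Real.log A.card) / M * Real.log B.card) ≤ ε / 2 * Real.log B.card := by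
    rw [← mul_assoc]
    exact mul_le_mul_of_nonneg_right h1 hlB
  nlinarith

/-- a prime at which a rational number different from `0`, `1`, `-1` is not a unit -/
theorem exists_prime_val {t : ℚ} (h0 : t ≠ 0) (h1 : t ≠ 1) (h2 : t ≠ -1) :
    ∃ p : ℕ, p.Prime ∧ padicValRat p t ≠ 0 := by
  by_contra hcon
  push Not at hcon
  have hden : t.den = 1 := by
    by_contra hd
    obtain ⟨p, hp, hpd⟩ := Nat.exists_prime_and_dvd hd
    have := Fact.mk hp
    have h3 := hcon p hp
    have h4 : ¬ p ∣ t.num.natAbs := by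
      intro h5
      have := Nat.dvd_gcd h5 hpd
      rw [t.reduced] at this
      exact hp.one_lt.ne' (Nat.dvd_one.1 this)
    have h5 : 1 ≤ padicValNat p t.den := one_le_padicValNat_of_dvd t.den_nz hpd
    have h6 : padicValInt p t.num = 0 := by
      unfold padicValInt
      exact padicValNat.eq_zero_of_not_dvd h4
    unfold padicValRat at h3
    rw [h6] at h3
    omega
  have hnum : t.num.natAbs = 1 := by
    by_contra hd
    obtain ⟨p, hp, hpd⟩ := Nat.exists_prime_and_dvd hd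
    have := Fact.mk hp
    have h3 := hcon p hp
    have hn0 : t.num.natAbs ≠ 0 := Int.natAbs_ne_zero.2 (Rat.num_ne_zero.2 h0)
    have h5 : 1 ≤ padicValNat p t.num.natAbs := one_le_padicValNat_of_dvd hn0 hpd
    unfold padicValRat padicValInt at h3
    rw [hden, padicValNat_one_right] at h3
    omega
  have ht : (t.num : ℚ) = t := by
    have := Rat.num_div_den t
    rw [hden] at this
    simpa using this
  rcases Int.natAbs_eq t.num with h | h
  · rw [hnum] at h
    apply h1
    rw [← ht, h]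
    norm_num
  · rw [hnum] at h
    apply h2
    rw [← ht, h]
    norm_num

/-- the sequence of multipliers attached to `t` -/
noncomputable def gseq (p v : ℕ) (t : ℚ) (n : ℕ) : ℚ := t ^ (n / v) * (p : ℚ) ^ (n % v)

theorem gseq_norm {p v : ℕ} [hp : Fact p.Prime] {t : ℚ} (h0 : t ≠ 0)
    (hv : padicValRat p t = v) (n : ℕ) :
    padicNorm p (gseq p v t n) = (p : ℚ) ^ (-(n : ℤ)) := by
  have hp0 : (p : ℚ) ≠ 0 := by exact_mod_cast hp.out.ne_zero
  have hgt : gseq p v t n ≠ 0 := mul_ne_zero (pow_ne_zero _ h0) (pow_ne_zero _ hp0)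
  rw [padicNorm.eq_zpow_of_nonzero hgt]
  congr 2
  unfold gseq
  rw [padicValRat.mul (pow_ne_zero _ h0) (pow_ne_zero _ hp0), padicValRat.pow,
    padicValRat.pow, hv, padicValRat.self hp.out.one_lt]
  have := Nat.div_add_mod n v
  have h2 : (v : ℤ) * (n / v : ℕ) + (n % v : ℕ) = n := by exact_mod_cast this
  linarith

theorem fib_rat {p v : ℕ} [hp : Fact p.Prime] {t : ℚ} (h0 : t ≠ 0) (hv0 : 0 < v)
    (hv : padicValRat p t = v) {a x : ℤ} (ha : a ≠ 0) {i : ℤ} (hx : (x : ℚ) = a * t ^ i) :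
    labl p (gseq p v t) x = labl p (gseq p v t) a := by
  have hp0 : (p : ℚ) ≠ 0 := by exact_mod_cast hp.out.ne_zero
  have haq : (a : ℚ) ≠ 0 := by exact_mod_cast ha
  have hval : (padicValInt p x : ℤ) = padicValInt p a + v * i := by
    have h1 : padicValRat p (x : ℚ) = padicValRat p (a : ℚ) + padicValRat p (t ^ i) := by
      rw [hx, padicValRat.mul haq (zpow_ne_zero _ h0)]
    rw [padicValRat.zpow, hv, padicValRat.of_int, padicValRat.of_int] at h1
    linarith
  set m := padicValInt p a with hm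
  set n := padicValInt p x with hn
  have hdiv : ((n / v : ℕ) : ℤ) = (m / v : ℕ) + i ∧ n % v = m % v := by
    have hv' : (0 : ℤ) < v := by exact_mod_cast hv0
    constructor
    · have h1 : (n : ℤ) / v = m / v + i := by
        rw [hval, Int.add_mul_ediv_left _ _ hv'.ne']
      push_cast
      exact h1
    · have h1 : (n : ℤ) % v = m % v := by
        rw [hval, Int.add_mul_emod_self_left]
      exact_mod_cast h1
  unfold labl gseq
  rw [← hm, ← hn, hdiv.2, hx]
  have h2 : t ^ (n / v) = t ^ (m / v) * t ^ i := by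
    rw [← zpow_natCast, hdiv.1, zpow_add₀ h0, zpow_natCast]
  rw [h2]
  have h3 : t ^ i ≠ 0 := zpow_ne_zero _ h0
  have h4 : t ^ (m / v) ≠ 0 := pow_ne_zero _ h0
  have h5 : (p : ℚ) ^ (m % v) ≠ 0 := pow_ne_zero _ hp0
  field_simp

open Classical in
theorem main_rat (ε : ℝ) (hε : 0 < ε) (hε1 : ε ≤ 1) (t : ℚ) (h0 : t ≠ 0) (h1 : t ≠ 1)
    (h2 : t ≠ -1) (A B : Finset ℤ) (hA : A.Nonempty) (hB : B.Nonempty)
    (hfib : ∀ a ∈ A, 4 / ε * Real.exp (6 / ε) * Real.log (2 * A.card) ≤
      ((A.filter fun x : ℤ => ∃ i : ℤ, (x : ℚ) = a * t ^ i).card : ℝ)) :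
    ((A.card : ℝ) * B.card) ^ (1 - ε) ≤ ((A + B).card : ℝ) := by
  have hA0 : (0 : ℝ) < A.card := by exact_mod_cast hA.card_pos
  have hA1 : (1 : ℝ) ≤ A.card := by exact_mod_cast hA.card_pos
  -- zero is not an element
  have hz : (0 : ℤ) ∉ A := by
    intro hz
    have h3 := hfib 0 hz
    have h4 : (A.filter fun x : ℤ => ∃ i : ℤ, (x : ℚ) = ((0 : ℤ) : ℚ) * t ^ i) ⊆ {0} := by
      intro x hx
      obtain ⟨_, i, hi⟩ := Finset.mem_filter.1 hx
      rw [Int.cast_zero, zero_mul] at hi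
      rw [Finset.mem_singleton]
      exact_mod_cast hi
    have h5 : ((A.filter fun x : ℤ => ∃ i : ℤ, (x : ℚ) = ((0 : ℤ) : ℚ) * t ^ i).card : ℝ) ≤ 1 := by
      exact_mod_cast (Finset.card_le_card h4).trans (by simp)
    have h6 : (1 : ℝ) / 2 ≤ Real.log (2 * A.card) := by
      have h7 : Real.log 2 ≤ Real.log (2 * A.card) := Real.log_le_log (by norm_num) (by linarith)
      have := Real.log_two_gt_d9
      linarith
    have h7 : (4 : ℝ) ≤ 4 / ε := by
      rw [le_div_iff₀ hε]
      linarith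
    have h8 : (1 : ℝ) ≤ Real.exp (6 / ε) := Real.one_le_exp (by positivity)
    have h9 : (4 : ℝ) ≤ 4 / ε * Real.exp (6 / ε) := by nlinarith
    have h10 : (4 : ℝ) * (1 / 2) ≤ 4 / ε * Real.exp (6 / ε) * Real.log (2 * A.card) :=
      mul_le_mul h9 h6 (by norm_num) (by linarith)
    have h11 := le_trans h10 (le_trans h3 (by convert h5))
    norm_num at h11
  -- the case of positive valuation
  have key : ∀ s : ℚ, s ≠ 0 → ∀ p v : ℕ, p.Prime → 0 < v → padicValRat p s = v →
      (∀ a ∈ A, 4 / ε * Real.exp (6 / ε) * Real.log (2 * A.card) ≤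
        ((A.filter fun x : ℤ => ∃ i : ℤ, (x : ℚ) = a * s ^ i).card : ℝ)) →
      ((A.card : ℝ) * B.card) ^ (1 - ε) ≤ ((A + B).card : ℝ) := by
    intro s hs p v hp hv0 hv hf
    have := Fact.mk hp
    refine main_gen p (gseq p v s) (gseq_norm hs hv) ε hε A B hz hA hB ?_
    intro a ha
    refine (hf a ha).trans ?_
    have h3 : (A.filter fun x : ℤ => ∃ i : ℤ, (x : ℚ) = a * s ^ i) ⊆
        fib A (labl p (gseq p v s)) a := by
      intro x hx
      obtain ⟨hxA, i, hi⟩ := Finset.mem_filter.1 hx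
      exact mem_fib.2 ⟨hxA, fib_rat hs hv0 hv (fun h => hz (h ▸ ha)) hi⟩
    exact_mod_cast Finset.card_le_card h3
  obtain ⟨p, hp, hpt⟩ := exists_prime_val h0 h1 h2
  rcases lt_or_gt_of_ne hpt with h | h
  · have := Fact.mk hp
    refine key t⁻¹ (inv_ne_zero h0) p (-padicValRat p t).toNat hp (by omega) ?_ ?_
    · rw [padicValRat.inv]
      omega
    · intro a ha
      refine (hfib a ha).trans ?_
      have h3 : (A.filter fun x : ℤ => ∃ i : ℤ, (x : ℚ) = a * t ^ i) ⊆
          A.filter fun x : ℤ => ∃ i : ℤ, (x : ℚ) = a * t⁻¹ ^ i := by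
        intro x hx
        obtain ⟨hxA, i, hi⟩ := Finset.mem_filter.1 hx
        refine Finset.mem_filter.2 ⟨hxA, -i, ?_⟩
        rw [inv_zpow, zpow_neg, inv_inv, hi]
      exact_mod_cast Finset.card_le_card h3
  · exact key t h0 p (padicValRat p t).toNat hp (by omega) (by omega) hfib

end Pool.Agent.W219.SP
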