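import Pool.Agent.W219.SP.Dil

/-!
Sumsets of sets with many partners under a finite set of rational multipliers.
-/

set_option autoImplicit false

namespace Pool.Agent.W219.SP

open Finset
open scoped Pointwise

/-- divisibility of a rational multiple -/
theorem dvd_rat_mul {p : ℕ} [hp : Fact p.Prime] {g : ℚ} (hg : g ≠ 0) {d d' : ℤ}
    (h : (d' : ℚ) = g * d) (j : ℕ) :
    (p : ℤ) ^ j ∣ d' ↔ (p : ℤ) ^ (((j : ℤ) - padicValRat p g).toNat) ∣ d := by
  by_cases hd : d = 0
  · subst hd
    have : d' = 0 := by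
      have h2 : (d' : ℚ) = 0 := by rw [h]; simp
      exact_mod_cast h2
    simp [this]
  have hdq : (d : ℚ) ≠ 0 := by exact_mod_cast hd
  have hd' : d' ≠ 0 := by
    intro h2
    rw [h2, Int.cast_zero] at h
    exact (mul_ne_zero hg hdq) h.symm
  rw [dvd_iff_val hd', dvd_iff_val hd]
  have h1 : padicValRat p (d' : ℚ) = padicValRat p g + padicValRat p (d : ℚ) := by
    rw [h, padicValRat.mul hg hdq]
  rw [padicValRat.of_int, padicValRat.of_int] at h1
  omega

/-- Gibbs' inequality for a subset -/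
theorem gibbs_sub {q q' : ℤ} (hq : q ∣ q') {X S : Finset ℤ} (hX : X ⊆ S) :
    drop q q' X ≤ ∑ x ∈ X, Real.log ((cls q S x).card / (cls q' S x).card) := by
  classical
  let z : ℤ → ℝ := fun x => ((cls q X x).card : ℝ) / (cls q S x).card *
    ((cls q' S x).card * (1 / (cls q' X x).card))
  have h1 : ∀ x ∈ X, Real.log ((cls q X x).card / (cls q' X x).card) ≤
      Real.log ((cls q S x).card / (cls q' S x).card) + (z x - 1) := by
    intro x hx
    have c1 := cls_posR (q := q) hx
    have c2 := cls_posR (q := q') hx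
    have w1 := cls_posR (q := q) (hX hx)
    have w2 := cls_posR (q := q') (hX hx)
    have h2 := Real.log_le_sub_one_of_pos (x := z x) (by simp only [z]; positivity)
    simp only [z] at h2 ⊢
    rw [Real.log_mul (by positivity) (by positivity), Real.log_div c1.ne' w1.ne',
      Real.log_mul w2.ne' (by positivity), one_div, Real.log_inv] at h2
    rw [Real.log_div c1.ne' c2.ne', Real.log_div w1.ne' w2.ne', one_div]
    linarith
  have hchild : ∀ a ∈ X, ∑ x ∈ cls q X a, ((cls q' S x).card : ℝ) *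
      (1 / (cls q' X x).card) ≤ (cls q S a).card := by
    intro a _
    have h1 : ∀ x ∈ cls q X a, ((cls q' S x).card : ℝ) * (1 / (cls q' X x).card) =
        ∑ z ∈ S, if q' ∣ z - x then (1 / ((cls q' X x).card : ℝ)) else 0 := by
      intro x _
      rw [← Finset.sum_filter, Finset.sum_const, nsmul_eq_mul]
      rfl
    rw [Finset.sum_congr rfl h1, Finset.sum_comm]
    have h2 : ∀ z ∈ S, ∑ x ∈ cls q X a,
        (if q' ∣ z - x then (1 / ((cls q' X x).card : ℝ)) else 0) ≤
        if q ∣ z - a then 1 else 0 := by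
      intro z _
      rw [← Finset.sum_filter]
      by_cases hE : q ∣ z - a
      · rw [if_pos hE]
        refine sum_inv_le ((Finset.filter_subset _ _).trans (cls_sub _ _ _)) ?_
        intro x hx y hy
        have e1 := (Finset.mem_filter.1 hx).2
        have e2 := (Finset.mem_filter.1 hy).2
        have := dvd_sub e2 e1
        rwa [show z - y - (z - x) = x - y by ring] at this
      · rw [if_neg hE]
        refine le_of_eq (Finset.sum_eq_zero fun x hx => ?_)
        exfalso
        apply hE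
        obtain ⟨hx1, hx2⟩ := Finset.mem_filter.1 hx
        have := dvd_add (hq.trans hx2) (mem_cls.1 hx1).2
        rwa [show z - x + (x - a) = z - a by ring] at this
    refine (Finset.sum_le_sum h2).trans (le_of_eq ?_)
    rw [← Finset.sum_filter, Finset.sum_const, nsmul_eq_mul, mul_one]
    rfl
  have h2 : ∑ x ∈ X, z x ≤ X.card := by
    rw [← avg_cls q X z]
    have h3 : ∀ a ∈ X, (1 / ((cls q X a).card : ℝ)) * ∑ x ∈ cls q X a, z x ≤ 1 := by
      intro a ha
      have c1 := cls_posR (q := q) ha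
      have w1 := cls_posR (q := q) (hX ha)
      have h4 : ∑ x ∈ cls q X a, z x ≤ (cls q X a).card := by
        have h5 : ∀ x ∈ cls q X a, z x = ((cls q X a).card : ℝ) / (cls q S a).card *
            ((cls q' S x).card * (1 / (cls q' X x).card)) := by
          intro x hx
          have hx2 := (mem_cls.1 hx).2
          simp only [z]
          rw [cls_congr hx2, cls_congr (U := S) hx2]
        rw [Finset.sum_congr rfl h5, ← Finset.mul_sum]
        calc ((cls q X a).card : ℝ) / (cls q S a).card *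
            ∑ x ∈ cls q X a, ((cls q' S x).card : ℝ) * (1 / (cls q' X x).card) ≤
            ((cls q X a).card : ℝ) / (cls q S a).card * (cls q S a).card :=
              mul_le_mul_of_nonneg_left (hchild a ha) (by positivity)
          _ = _ := by field_simp
      rw [one_div, inv_mul_le_iff₀ c1, mul_one]
      exact h4
    refine (Finset.sum_le_sum h3).trans ?_
    simp
  have h3 := Finset.sum_le_sum h1
  rw [Finset.sum_add_distrib, Finset.sum_sub_distrib] at h3
  unfold drop
  have h4 : ∑ x ∈ X, (1 : ℝ) = X.card := by simp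
  rw [h4] at h3
  linarith

/-- the integral dilate by a rational number -/
def ydil (g : ℚ) (X : Finset ℤ) : Finset ℤ := X.image fun x : ℤ => (g * (x : ℚ)).num

section

variable {g : ℚ} {X : Finset ℤ}

theorem num_eq (h : ∀ x ∈ X, ∃ y : ℤ, (y : ℚ) = g * x) {x : ℤ} (hx : x ∈ X) :
    (((g * x).num : ℤ) : ℚ) = g * x := by
  obtain ⟨y, hy⟩ := h x hx
  rw [← hy]
  simp

theorem num_inj (hg : g ≠ 0) (h : ∀ x ∈ X, ∃ y : ℤ, (y : ℚ) = g * x) {x x' : ℤ} (hx : x ∈ X)
    (hx' : x' ∈ X) (he : (g * x).num = (g * x').num) : x = x' := by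
  have h1 := num_eq h hx
  have h2 := num_eq h hx'
  rw [he, h2] at h1
  have h3 := mul_left_cancel₀ hg h1
  exact_mod_cast h3.symm

theorem card_ydil (hg : g ≠ 0) (h : ∀ x ∈ X, ∃ y : ℤ, (y : ℚ) = g * x) :
    (ydil g X).card = X.card :=
  Finset.card_image_of_injOn fun _ hx _ hx' he =>
    num_inj hg h (Finset.mem_coe.1 hx) (Finset.mem_coe.1 hx') he

theorem card_cls_ydil {p : ℕ} [Fact p.Prime] (hg : g ≠ 0)
    (h : ∀ x ∈ X, ∃ y : ℤ, (y : ℚ) = g * x) {x : ℤ} (hx : x ∈ X) (j : ℕ) :
    (cls ((p : ℤ) ^ j) (ydil g X) (g * x).num).card =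
      (cls ((p : ℤ) ^ (((j : ℤ) - padicValRat p g).toNat)) X x).card := by
  have hd : ∀ y ∈ X, ((((g * y).num - (g * x).num : ℤ)) : ℚ) = g * ((y - x : ℤ) : ℚ) := by
    intro y hy
    push_cast
    rw [num_eq h hy, num_eq h hx]
    ring
  have h1 : cls ((p : ℤ) ^ j) (ydil g X) (g * x).num =
      (cls ((p : ℤ) ^ (((j : ℤ) - padicValRat p g).toNat)) X x).image
        fun y : ℤ => (g * y).num := by
    ext z
    simp only [mem_cls, ydil, Finset.mem_image]
    constructor
    · rintro ⟨⟨y, hy, rfl⟩, h2⟩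
      exact ⟨y, ⟨hy, (dvd_rat_mul hg (hd y hy) j).1 h2⟩, rfl⟩
    · rintro ⟨y, ⟨hy, h2⟩, rfl⟩
      exact ⟨⟨y, hy, rfl⟩, (dvd_rat_mul hg (hd y hy) j).2 h2⟩
  rw [h1]
  refine Finset.card_image_of_injOn fun y hy y' hy' he => ?_
  exact num_inj hg h (mem_cls.1 (Finset.mem_coe.1 hy)).1 (mem_cls.1 (Finset.mem_coe.1 hy')).1 he

theorem drop_ydil {p : ℕ} [Fact p.Prime] (hg : g ≠ 0)
    (h : ∀ x ∈ X, ∃ y : ℤ, (y : ℚ) = g * x) {S : Finset ℤ} (hXS : X ⊆ S) (j : ℕ) :
    drop ((p : ℤ) ^ j) ((p : ℤ) ^ (j + 1)) (ydil g X) ≤ ∑ x ∈ X,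
      if padicValRat p g ≤ j then
        Real.log ((cls ((p : ℤ) ^ (((j : ℤ) - padicValRat p g).toNat)) S x).card /
          (cls ((p : ℤ) ^ (((j : ℤ) - padicValRat p g).toNat + 1)) S x).card) else 0 := by
  have h1 : drop ((p : ℤ) ^ j) ((p : ℤ) ^ (j + 1)) (ydil g X) = ∑ x ∈ X,
      Real.log ((cls ((p : ℤ) ^ (((j : ℤ) - padicValRat p g).toNat)) X x).card /
        (cls ((p : ℤ) ^ ((((j + 1 : ℕ) : ℤ) - padicValRat p g).toNat)) X x).card) := by
    unfold drop
    rw [show ydil g X = X.image fun x : ℤ => (g * (x : ℚ)).num from rfl,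
      Finset.sum_image fun x hx y hy he =>
        num_inj hg h (Finset.mem_coe.1 hx) (Finset.mem_coe.1 hy) he]
    refine Finset.sum_congr rfl fun x hx => ?_
    have e1 := card_cls_ydil (p := p) hg h hx j
    have e2 := card_cls_ydil (p := p) hg h hx (j + 1)
    unfold ydil at e1 e2
    rw [e1, e2]
  rw [h1]
  by_cases hv : padicValRat p g ≤ j
  · simp only [if_pos hv]
    have e1 : (((j + 1 : ℕ) : ℤ) - padicValRat p g).toNat =
        ((j : ℤ) - padicValRat p g).toNat + 1 := by
      push_cast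
      omega
    rw [e1]
    exact gibbs_sub (pow_dvd_pow _ (Nat.le_succ _)) hXS
  · simp only [if_neg hv, Finset.sum_const_zero]
    refine le_of_eq (Finset.sum_eq_zero fun x hx => ?_)
    have e1 : (((j + 1 : ℕ) : ℤ) - padicValRat p g).toNat = 0 := by
      push_cast
      omega
    have e2 : ((j : ℤ) - padicValRat p g).toNat = 0 := by omega
    rw [e1, e2, div_self (cls_posR hx).ne', Real.log_one]

end

/-- a lower bound for `∑ c log c` -/
theorem ent_dist {ι : Type*} (s : Finset ι) (c : ι → ℝ) (hc : ∀ i ∈ s, 0 < c i) (N m : ℝ)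
    (hN : ∑ i ∈ s, c i = N) (hN0 : 0 < N) (hm0 : 0 < m) (hm : (s.card : ℝ) ≤ m) :
    N * Real.log (N / m) ≤ ∑ i ∈ s, c i * Real.log (c i) := by
  have h4 : ∀ i ∈ s, c i * Real.log (N / m) ≤ c i * Real.log (c i) + (N / m - c i) := by
    intro i hi
    have hi0 := hc i hi
    have hNm : 0 < N / m := div_pos hN0 hm0
    have h5 := Real.log_le_sub_one_of_pos (div_pos hNm hi0)
    rw [Real.log_div hNm.ne' hi0.ne'] at h5
    have h6 := mul_le_mul_of_nonneg_left h5 hi0.le
    have h7 : c i * (N / m / c i - 1) = N / m - c i := by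
      field_simp
    rw [h7] at h6
    linarith
  have h5 := Finset.sum_le_sum h4
  rw [← Finset.sum_mul, Finset.sum_add_distrib, Finset.sum_sub_distrib, hN,
    Finset.sum_const, nsmul_eq_mul] at h5
  have h6 : (s.card : ℝ) * (N / m) ≤ N := by
    calc (s.card : ℝ) * (N / m) ≤ m * (N / m) :=
          mul_le_mul_of_nonneg_right hm (div_pos hN0 hm0).le
      _ = N := by field_simp
  linarith

/-- many partners under multipliers of different valuations -/
theorem stars (p : ℕ) [Fact p.Prime] (ε : ℝ) (hε : 0 < ε) (hε1 : ε ≤ 1) (A S B : Finset ℤ)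
    (G : Finset ℚ) (X : ℚ → Finset ℤ) (hB : B.Nonempty) (hG0 : ∀ g ∈ G, g ≠ 0)
    (hXS : ∀ g ∈ G, X g ⊆ S) (hXA : ∀ g ∈ G, ∀ x ∈ X g, ∃ y ∈ A, (y : ℚ) = g * x)
    (hinj : ∀ x ∈ S, ∀ g ∈ G, ∀ g' ∈ G, x ∈ X g → x ∈ X g' →
      padicValRat p g = padicValRat p g' → g = g')
    (hpos : 0 < ∑ g ∈ G, (X g).card)
    (hcount : 2 / ε * Real.exp (6 / ε) * (S.card * Real.log S.card) ≤
      ((∑ g ∈ G, (X g).card : ℕ) : ℝ)) :
    (((∑ g ∈ G, (X g).card : ℕ) : ℝ) / G.card * B.card) ^ (1 - ε) ≤ ((A + B).card : ℝ) := by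
  classical
  have hp2 : (2 : ℤ) ≤ p := by exact_mod_cast (Fact.out : p.Prime).two_le
  have hB0 : (0 : ℝ) < B.card := by exact_mod_cast hB.card_pos
  have hlB : 0 ≤ Real.log B.card := Real.log_natCast_nonneg _
  set K := Real.exp (6 / ε) with hK
  have hK1 : 1 < K := by
    rw [hK, Real.one_lt_exp_iff]
    positivity
  have hlogK : 3 / Real.log K = ε / 2 := by
    rw [hK, Real.log_exp]
    field_simp
    norm_num
  -- restrict to the multipliers with nonempty set
  set N : ℝ := ((∑ g ∈ G, (X g).card : ℕ) : ℝ) with hN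
  have hN0 : 0 < N := by rw [hN]; exact_mod_cast hpos
  set G' := G.filter fun g => (X g).Nonempty with hG'
  have hG'G : G' ⊆ G := Finset.filter_subset _ _
  have hNsum : N = ∑ g ∈ G', ((X g).card : ℝ) := by
    rw [hN]
    push_cast
    rw [hG', Finset.sum_filter_of_ne]
    intro g _ hne
    exact Finset.card_pos.1 (Nat.pos_of_ne_zero fun h => hne (by rw [h]; simp))
  have hg1 : ∀ g ∈ G', (X g).Nonempty := fun g hg => (Finset.mem_filter.1 hg).2
  clear_value N K G'
  have hG'n : G'.Nonempty := by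
    rcases G'.eq_empty_or_nonempty with h | h
    · rw [h, Finset.sum_empty] at hNsum
      linarith
    · exact h
  have hGc : (0 : ℝ) < G.card := by exact_mod_cast (hG'n.mono hG'G).card_pos
  have hint : ∀ g ∈ G, ∀ x ∈ X g, ∃ y : ℤ, (y : ℚ) = g * x := by
    intro g hg x hx
    obtain ⟨y, _, hy⟩ := hXA g hg x hx
    exact ⟨y, hy⟩
  have hYA : ∀ g ∈ G, ydil g (X g) ⊆ A := by
    intro g hg z hz
    obtain ⟨x, hx, rfl⟩ := Finset.mem_image.1 hz
    obtain ⟨y, hy, hyx⟩ := hXA g hg x hx
    have h1 := num_eq (hint g hg) hx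
    rw [← hyx] at h1
    have h2 : ((y : ℚ)).num = y := by
      simp
    rw [← hyx, h2]
    exact hy
  -- a common level
  obtain ⟨J, hJ⟩ := exists_sep hp2 (A ∪ B)
  have hJA : ∀ x ∈ A, ∀ y ∈ A, (p : ℤ) ^ J ∣ x - y → x = y :=
    fun x hx y hy => hJ x (Finset.mem_union_left _ hx) y (Finset.mem_union_left _ hy)
  have hJB : ∀ x ∈ B, ∀ y ∈ B, (p : ℤ) ^ J ∣ x - y → x = y :=
    fun x hx y hy => hJ x (Finset.mem_union_right _ hx) y (Finset.mem_union_right _ hy)
  obtain ⟨g0, hg0⟩ := hG'n
  obtain ⟨x0, hx0⟩ := hg1 g0 hg0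
  have hAn : A.Nonempty := by
    obtain ⟨y, hy, _⟩ := hXA g0 (hG'G hg0) x0 hx0
    exact ⟨y, hy⟩
  have hs : (0 : ℝ) < (A + B).card := by exact_mod_cast (hAn.add hB).card_pos
  -- total drop
  have hdrop : ∀ j : ℕ, ∑ g ∈ G', drop ((p : ℤ) ^ j) ((p : ℤ) ^ (j + 1)) (ydil g (X g)) ≤
      S.card * Real.log S.card := by
    intro j
    let ℓ : ℕ → ℤ → ℝ := fun l x =>
      Real.log ((cls ((p : ℤ) ^ l) S x).card / (cls ((p : ℤ) ^ (l + 1)) S x).card)
    have hℓ0 : ∀ l, ∀ x ∈ S, 0 ≤ ℓ l x := by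
      intro l x hx
      refine Real.log_nonneg ?_
      rw [le_div_iff₀ (cls_posR hx), one_mul]
      have : cls ((p : ℤ) ^ (l + 1)) S x ⊆ cls ((p : ℤ) ^ l) S x := by
        intro z hz
        rw [mem_cls] at hz ⊢
        exact ⟨hz.1, (pow_dvd_pow _ (Nat.le_succ l)).trans hz.2⟩
      exact_mod_cast Finset.card_le_card this
    have h1 : ∀ g ∈ G', drop ((p : ℤ) ^ j) ((p : ℤ) ^ (j + 1)) (ydil g (X g)) ≤
        ∑ x ∈ S, if x ∈ X g ∧ padicValRat p g ≤ j then
          ℓ (((j : ℤ) - padicValRat p g).toNat) x else 0 := by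
      intro g hg
      refine (drop_ydil (hG0 g (hG'G hg)) (hint g (hG'G hg)) (hXS g (hG'G hg)) j).trans
        (le_of_eq ?_)
      symm
      have h2 : ∑ x ∈ S, (if x ∈ X g ∧ padicValRat p g ≤ j then
          ℓ (((j : ℤ) - padicValRat p g).toNat) x else 0) = ∑ x ∈ S, if x ∈ X g then
          (if padicValRat p g ≤ j then ℓ (((j : ℤ) - padicValRat p g).toNat) x else 0) else 0 := by
        refine Finset.sum_congr rfl fun x _ => ?_
        by_cases h3 : x ∈ X g
        · simp [h3]
        · simp [h3]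
      rw [h2, ← Finset.sum_filter]
      have h3 : S.filter (fun x => x ∈ X g) = X g := by
        ext x
        rw [Finset.mem_filter]
        exact ⟨fun h3 => h3.2, fun h3 => ⟨hXS g (hG'G hg) h3, h3⟩⟩
      rw [h3]
    refine (Finset.sum_le_sum h1).trans ?_
    rw [Finset.sum_comm]
    have h2 : ∀ x ∈ S, ∑ g ∈ G', (if x ∈ X g ∧ padicValRat p g ≤ j then
        ℓ (((j : ℤ) - padicValRat p g).toNat) x else 0) ≤ Real.log S.card := by
      intro x hx
      rw [← Finset.sum_filter]
      have hinj2 : ∀ g ∈ G'.filter (fun g => x ∈ X g ∧ padicValRat p g ≤ j),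
          ∀ g' ∈ G'.filter (fun g => x ∈ X g ∧ padicValRat p g ≤ j),
          ((j : ℤ) - padicValRat p g).toNat = ((j : ℤ) - padicValRat p g').toNat → g = g' := by
        intro g hg g' hg' he
        obtain ⟨e1, e2, e3⟩ := Finset.mem_filter.1 hg
        obtain ⟨f1, f2, f3⟩ := Finset.mem_filter.1 hg'
        refine hinj x hx g (hG'G e1) g' (hG'G f1) e2 f2 ?_
        omega
      rw [← Finset.sum_image (f := fun l => ℓ l x)
        (g := fun g => ((j : ℤ) - padicValRat p g).toNat)
        (fun g hg g' hg' he => hinj2 g (Finset.mem_coe.1 hg) g' (Finset.mem_coe.1 hg') he)]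
      set T := (G'.filter (fun g => x ∈ X g ∧ padicValRat p g ≤ j)).image
        fun g => ((j : ℤ) - padicValRat p g).toNat with hT
      have h3 : T ⊆ Finset.range (T.sup id + 1) := by
        intro l hl
        rw [Finset.mem_range]
        have := Finset.le_sup (f := id) hl
        simp only [id] at this
        omega
      refine (Finset.sum_le_sum_of_subset_of_nonneg h3 fun l _ _ => hℓ0 l x hx).trans ?_
      have h4 : ∀ l ∈ Finset.range (T.sup id + 1), ℓ l x =
          Real.log (cls ((p : ℤ) ^ l) S x).card - Real.log (cls ((p : ℤ) ^ (l + 1)) S x).card := by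
        intro l _
        exact Real.log_div (cls_posR hx).ne' (cls_posR hx).ne'
      rw [Finset.sum_congr rfl h4, Finset.sum_range_sub']
      have h5 : 0 ≤ Real.log (cls ((p : ℤ) ^ (T.sup id + 1)) S x).card :=
        Real.log_natCast_nonneg _
      have h6 : Real.log (cls ((p : ℤ) ^ 0) S x).card ≤ Real.log S.card := by
        refine Real.log_le_log (cls_posR hx) ?_
        exact_mod_cast Finset.card_le_card (cls_sub _ _ _)
      linarith
    refine (Finset.sum_le_sum h2).trans (le_of_eq ?_)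
    rw [Finset.sum_const, nsmul_eq_mul]
  -- sum of the defects
  have hstar : ∀ g ∈ G', ((X g).card : ℝ) * ((1 - ε / 2) * (Real.log (X g).card +
      Real.log B.card) - Real.log (A + B).card) ≤ K / B.card *
        ∑ j ∈ Finset.range J, drop ((p : ℤ) ^ j) ((p : ℤ) ^ (j + 1)) (ydil g (X g)) *
          drop ((p : ℤ) ^ j) ((p : ℤ) ^ (j + 1)) B := by
    intro g hg
    have hXn := hg1 g hg
    have hXc : (0 : ℝ) < (X g).card := by exact_mod_cast hXn.card_pos
    have hYn : (ydil g (X g)).Nonempty := hXn.image _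
    have hYsub := hYA g (hG'G hg)
    have h2 := star (p : ℤ) (ydil g (X g)) B hYn hB hK1 J
      (fun x hx y hy => hJA x (hYsub hx) y (hYsub hy)) hJB
    rw [card_ydil (hG0 g (hG'G hg)) (hint g (hG'G hg)), hlogK] at h2
    have h3 : Real.log (ydil g (X g) + B).card ≤ Real.log (A + B).card := by
      refine Real.log_le_log (by exact_mod_cast (hYn.add hB).card_pos) ?_
      exact_mod_cast Finset.card_le_card (Finset.add_subset_add hYsub (Finset.Subset.refl B))
    have h4 : (1 - ε / 2) * (Real.log (X g).card + Real.log B.card) - Real.log (A + B).card ≤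
        K * ((∑ j ∈ Finset.range J, drop ((p : ℤ) ^ j) ((p : ℤ) ^ (j + 1)) (ydil g (X g)) *
          drop ((p : ℤ) ^ j) ((p : ℤ) ^ (j + 1)) B) / ((X g).card * B.card)) := by linarith
    refine (mul_le_mul_of_nonneg_left h4 hXc.le).trans (le_of_eq ?_)
    field_simp
  have hsum := Finset.sum_le_sum hstar
  rw [← Finset.mul_sum, Finset.sum_comm] at hsum
  have h2 : ∑ j ∈ Finset.range J, ∑ g ∈ G',
      drop ((p : ℤ) ^ j) ((p : ℤ) ^ (j + 1)) (ydil g (X g)) *
        drop ((p : ℤ) ^ j) ((p : ℤ) ^ (j + 1)) B ≤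
      S.card * Real.log S.card * (B.card * Real.log B.card) := by
    rw [← sum_drop (p : ℤ) B J hJB, Finset.mul_sum]
    refine Finset.sum_le_sum fun j _ => ?_
    rw [← Finset.sum_mul]
    exact mul_le_mul_of_nonneg_right (hdrop j)
      (drop_nonneg (pow_dvd_pow _ (Nat.le_succ j)) B)
  have h3 : K / B.card * ∑ j ∈ Finset.range J, ∑ g ∈ G',
      drop ((p : ℤ) ^ j) ((p : ℤ) ^ (j + 1)) (ydil g (X g)) *
        drop ((p : ℤ) ^ j) ((p : ℤ) ^ (j + 1)) B ≤ ε / 2 * N * Real.log B.card := by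
    calc _ ≤ K / B.card * (S.card * Real.log S.card * (B.card * Real.log B.card)) :=
          mul_le_mul_of_nonneg_left h2 (by positivity)
      _ = (K * (S.card * Real.log S.card)) * Real.log B.card := by field_simp
      _ ≤ (ε / 2 * N) * Real.log B.card := by
          refine mul_le_mul_of_nonneg_right ?_ hlB
          have h8 := mul_le_mul_of_nonneg_left hcount (by positivity : (0 : ℝ) ≤ ε / 2)
          refine le_trans (le_of_eq ?_) h8
          field_simp
  -- the entropy of the distribution of the multipliers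
  have hent : N * Real.log (N / G.card) ≤ ∑ g ∈ G', ((X g).card : ℝ) * Real.log (X g).card := by
    refine ent_dist G' (fun g => ((X g).card : ℝ)) (fun g hg => ?_) N G.card hNsum.symm hN0 hGc ?_
    · exact_mod_cast (hg1 g hg).card_pos
    · exact_mod_cast Finset.card_le_card hG'G
  set Y := ∑ g ∈ G', ((X g).card : ℝ) * Real.log (X g).card with hY
  have hY0 : 0 ≤ Y := Finset.sum_nonneg fun g _ =>
    mul_nonneg (Nat.cast_nonneg _) (Real.log_natCast_nonneg _)
  have hleft : ∑ g ∈ G', ((X g).card : ℝ) * ((1 - ε / 2) * (Real.log (X g).card +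
      Real.log B.card) - Real.log (A + B).card) =
      (1 - ε / 2) * (Y + N * Real.log B.card) - N * Real.log (A + B).card := by
    rw [hY, hNsum, mul_add, Finset.mul_sum, Finset.sum_mul, Finset.mul_sum, Finset.sum_mul,
      ← Finset.sum_add_distrib, ← Finset.sum_sub_distrib]
    refine Finset.sum_congr rfl fun g _ => ?_
    ring
  rw [hleft] at hsum
  have hfin : N * ((1 - ε) * (Real.log (N / G.card) + Real.log B.card)) ≤
      N * Real.log (A + B).card := by
    have h4 := hsum.trans h3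
    -- `(1 - ε/2) Y ≥ (1 - ε) N log (N/|G|)`
    have h5 : (1 - ε) * (N * Real.log (N / G.card)) ≤ (1 - ε / 2) * Y := by
      have h6 := mul_le_mul_of_nonneg_left hent (by linarith : (0 : ℝ) ≤ 1 - ε)
      have h7 : (1 - ε) * Y ≤ (1 - ε / 2) * Y :=
        mul_le_mul_of_nonneg_right (by linarith) hY0
      linarith
    linarith
  have hfin2 := le_of_mul_le_mul_left hfin hN0
  have hNG : 0 < N / G.card := div_pos hN0 hGc
  rw [Real.rpow_def_of_pos (mul_pos hNG hB0), ← Real.exp_log hs, Real.exp_le_exp,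
    Real.log_mul hNG.ne' hB0.ne']
  linarith

end Pool.Agent.W219.SP
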