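import Pool.Agent.W219.SP.State
import Pool.Agent.W219.SP.Main
import Pool.Agent.W219.SP.Stars

/-!
The last stage: labels.
-/

set_option autoImplicit false

namespace Pool.Agent.W219.SP

open Finset
open scoped Pointwise

/-- Gibbs' inequality with weights -/
theorem gibbs_w {q q' : ℤ} {X : Finset ℤ} (w1 w2 : ℤ → ℝ) (h1 : ∀ x ∈ X, 0 < w1 x)
    (h2 : ∀ x ∈ X, 0 < w2 x) (hc : ∀ a ∈ X, ∀ x ∈ cls q X a, w1 x = w1 a)
    (hchild : ∀ a ∈ X, ∑ x ∈ cls q X a, w2 x * (1 / (cls q' X x).card) ≤ w1 a) :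
    drop q q' X ≤ ∑ x ∈ X, Real.log (w1 x / w2 x) := by
  let z : ℤ → ℝ := fun x => ((cls q X x).card : ℝ) / w1 x * (w2 x * (1 / (cls q' X x).card))
  have h3 : ∀ x ∈ X, Real.log ((cls q X x).card / (cls q' X x).card) ≤
      Real.log (w1 x / w2 x) + (z x - 1) := by
    intro x hx
    have c1 := cls_posR (q := q) hx
    have c2 := cls_posR (q := q') hx
    have e1 := h1 x hx
    have e2 := h2 x hx
    have e3 := Real.log_le_sub_one_of_pos (x := z x) (by simp only [z]; positivity)
    simp only [z] at e3 ⊢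
    rw [Real.log_mul (by positivity) (by positivity), Real.log_div c1.ne' e1.ne',
      Real.log_mul e2.ne' (by positivity), one_div, Real.log_inv] at e3
    rw [Real.log_div c1.ne' c2.ne', Real.log_div e1.ne' e2.ne', one_div]
    linarith
  have h4 : ∑ x ∈ X, z x ≤ X.card := by
    rw [← avg_cls q X z]
    have h5 : ∀ a ∈ X, (1 / ((cls q X a).card : ℝ)) * ∑ x ∈ cls q X a, z x ≤ 1 := by
      intro a ha
      have c1 := cls_posR (q := q) ha
      have e1 := h1 a ha
      have h6 : ∑ x ∈ cls q X a, z x ≤ (cls q X a).card := by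
        have h7 : ∀ x ∈ cls q X a, z x = ((cls q X a).card : ℝ) / w1 a *
            (w2 x * (1 / (cls q' X x).card)) := by
          intro x hx
          simp only [z]
          rw [hc a ha x hx, cls_congr (mem_cls.1 hx).2]
        rw [Finset.sum_congr rfl h7, ← Finset.mul_sum]
        calc ((cls q X a).card : ℝ) / w1 a *
              ∑ x ∈ cls q X a, w2 x * (1 / (cls q' X x).card) ≤
              ((cls q X a).card : ℝ) / w1 a * w1 a :=
              mul_le_mul_of_nonneg_left (hchild a ha) (by positivity)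
          _ = _ := by field_simp
      rw [one_div, inv_mul_le_iff₀ c1, mul_one]
      exact h6
    refine (Finset.sum_le_sum h5).trans ?_
    simp
  have h5 := Finset.sum_le_sum h3
  rw [Finset.sum_add_distrib, Finset.sum_sub_distrib] at h5
  unfold drop
  have h6 : ∑ x ∈ X, (1 : ℝ) = X.card := by simp
  rw [h6] at h5
  linarith

/-- the label of `x` with respect to the multipliers `g` -/
noncomputable def lbl (g : ℤ → ℚ) (x : ℤ) : ℚ := (x : ℚ) / g x

/-- agreement of the labels to precision `l` -/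
def Rl (p : ℕ) (g : ℤ → ℚ) (l : ℕ) (x y : ℤ) : Prop :=
  padicNorm p (lbl g y - lbl g x) ≤ (p : ℚ) ^ (-(l : ℤ))

section

variable {p : ℕ} [hp : Fact p.Prime] {g : ℤ → ℚ} {A : Finset ℤ}

theorem Rl_refl (l : ℕ) (x : ℤ) : Rl p g l x x := by
  have hp0 : (0 : ℚ) < p := by exact_mod_cast hp.out.pos
  unfold Rl
  rw [sub_self, padicNorm.zero]
  positivity

omit hp in
theorem Rl_symm {l : ℕ} {x y : ℤ} (h : Rl p g l x y) : Rl p g l y x := by
  unfold Rl at *
  rwa [← neg_sub, padicNorm.neg]

theorem Rl_trans {l : ℕ} {x y z : ℤ} (h1 : Rl p g l x y) (h2 : Rl p g l y z) : Rl p g l x z := by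
  unfold Rl at *
  have h3 : lbl g z - lbl g x = (lbl g z - lbl g y) + (lbl g y - lbl g x) := by ring
  rw [h3]
  exact padicNorm.nonarchimedean.trans (max_le h2 h1)

theorem Rl_mono {l : ℕ} {x y : ℤ} (h : Rl p g (l + 1) x y) : Rl p g l x y := by
  have hp1 : (1 : ℚ) ≤ p := by exact_mod_cast hp.out.one_lt.le
  unfold Rl at *
  refine h.trans (zpow_le_zpow_right₀ hp1 ?_)
  push_cast
  omega

theorem Rl_of_eq {l : ℕ} {x y : ℤ} (h : lbl g x = lbl g y) : Rl p g l x y := by
  have hp0 : (0 : ℚ) < p := by exact_mod_cast hp.out.pos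
  unfold Rl
  rw [h, sub_self, padicNorm.zero]
  positivity

theorem Rl_dvd (hg : ∀ x ∈ A, padicNorm p (g x) = (p : ℚ) ^ (-(padicValInt p x : ℤ)))
    {x y : ℤ} (hx : x ∈ A) (hxy : g x = g y) (l : ℕ) :
    Rl p g l x y ↔ (p : ℤ) ^ (padicValInt p x + l) ∣ y - x := by
  have hp0 : (0 : ℚ) < p := by exact_mod_cast hp.out.pos
  unfold Rl lbl
  rw [← hxy, ← sub_div, padicNorm.div, hg x hx, div_le_iff₀ (zpow_pos hp0 _), ← zpow_add₀ hp0.ne']
  have h1 := padicNorm.dvd_iff_norm_le (p := p) (n := padicValInt p x + l) (z := y - x)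
  push_cast at h1
  rw [h1]
  rw [show -(l : ℤ) + -(padicValInt p x : ℤ) = -((padicValInt p x : ℤ) + l) by ring]

/-- elements whose label agrees with that of `x` -/
noncomputable def Wl (p : ℕ) (g : ℤ → ℚ) (A : Finset ℤ) (l : ℕ) (x : ℤ) : Finset ℤ :=
  Wset A (Rl p g) l x

omit hp in
theorem mem_Wl {l : ℕ} {x y : ℤ} : y ∈ Wl p g A l x ↔ y ∈ A ∧ Rl p g l x y := mem_Wset

theorem Wl_pos {l : ℕ} {x : ℤ} (hx : x ∈ A) : (0 : ℝ) < (Wl p g A l x).card := by
  exact_mod_cast Finset.card_pos.2 ⟨x, mem_Wl.2 ⟨hx, Rl_refl l x⟩⟩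

theorem Wl_congr {l : ℕ} {x y : ℤ} (h : Rl p g l x y) : Wl p g A l x = Wl p g A l y := by
  ext z
  rw [mem_Wl, mem_Wl]
  exact ⟨fun hz => ⟨hz.1, Rl_trans (Rl_symm h) hz.2⟩, fun hz => ⟨hz.1, Rl_trans h hz.2⟩⟩

/-- reference drop -/
noncomputable def rf (p : ℕ) (g : ℤ → ℚ) (A : Finset ℤ) (j : ℕ) (x : ℤ) : ℝ :=
  if padicValInt p x ≤ j then Real.log ((Wl p g A (j - padicValInt p x) x).card /
    (Wl p g A (j - padicValInt p x + 1) x).card) else 0

theorem drop_cell (h0 : (0 : ℤ) ∉ A)
    (hg : ∀ x ∈ A, padicNorm p (g x) = (p : ℚ) ^ (-(padicValInt p x : ℤ)))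
    {X : Finset ℤ} (hX : X ⊆ A) (hval : ∀ x ∈ X, ∀ y ∈ X, padicValInt p x = padicValInt p y)
    (hgX : ∀ x ∈ X, ∀ y ∈ X, g x = g y) (j : ℕ) :
    drop ((p : ℤ) ^ j) ((p : ℤ) ^ (j + 1)) X ≤ ∑ x ∈ X, rf p g A j x := by
  classical
  rcases X.eq_empty_or_nonempty with he | ⟨x0, hx0⟩
  · subst he
    simp [drop]
  have hne : ∀ z ∈ A, z ≠ 0 := fun z hz h => h0 (h ▸ hz)
  set e := padicValInt p x0 with he
  have hve : ∀ x ∈ X, padicValInt p x = e := fun x hx => hval x hx x0 hx0
  by_cases hj : e ≤ j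
  · set l := j - e with hl
    have h1 : ∑ x ∈ X, rf p g A j x = ∑ x ∈ X, Real.log (((Wl p g A l x).card : ℝ) /
        (Wl p g A (l + 1) x).card) := by
      refine Finset.sum_congr rfl fun x hx => ?_
      unfold rf
      rw [hve x hx, if_pos hj]
    rw [h1]
    have hrel : ∀ x ∈ X, ∀ y ∈ X, ∀ i : ℕ, Rl p g i x y ↔ (p : ℤ) ^ (e + i) ∣ y - x := by
      intro x hx y hy i
      rw [Rl_dvd hg (hX hx) (hgX x hx y hy), hve x hx]
    refine gibbs_w (fun x => ((Wl p g A l x).card : ℝ)) (fun x => ((Wl p g A (l + 1) x).card : ℝ))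
      (fun x hx => Wl_pos (hX hx)) (fun x hx => Wl_pos (hX hx)) ?_ ?_
    · intro a ha x hx
      obtain ⟨hx1, hx2⟩ := mem_cls.1 hx
      have : Rl p g l a x := by
        rw [hrel a ha x hx1, show e + l = j by omega]
        exact hx2
      rw [Wl_congr this]
    · intro a ha
      have h2 : ∀ x ∈ cls ((p : ℤ) ^ j) X a, ((Wl p g A (l + 1) x).card : ℝ) *
          (1 / (cls ((p : ℤ) ^ (j + 1)) X x).card) =
          ∑ z ∈ A, if Rl p g (l + 1) x z then
            (1 / ((cls ((p : ℤ) ^ (j + 1)) X x).card : ℝ)) else 0 := by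
        intro x _
        rw [← Finset.sum_filter, Finset.sum_const, nsmul_eq_mul]
        unfold Wl Wset
        rfl
      rw [Finset.sum_congr rfl h2, Finset.sum_comm]
      have h3 : ∀ z ∈ A, ∑ x ∈ cls ((p : ℤ) ^ j) X a,
          (if Rl p g (l + 1) x z then (1 / ((cls ((p : ℤ) ^ (j + 1)) X x).card : ℝ)) else 0) ≤
          if Rl p g l a z then 1 else 0 := by
        intro z _
        rw [← Finset.sum_filter]
        have h4 : ∑ x ∈ (cls ((p : ℤ) ^ j) X a).filter (fun x => Rl p g (l + 1) x z),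
            (1 / ((cls ((p : ℤ) ^ (j + 1)) X x).card : ℝ)) ≤ 1 := by
          refine sum_inv_le ((Finset.filter_subset _ _).trans (cls_sub _ _ _)) ?_
          intro x hx y hy
          obtain ⟨hx1, hx2⟩ := Finset.mem_filter.1 hx
          obtain ⟨hy1, hy2⟩ := Finset.mem_filter.1 hy
          have hE : Rl p g (l + 1) y x := Rl_trans hy2 (Rl_symm hx2)
          rw [hrel y (mem_cls.1 hy1).1 x (mem_cls.1 hx1).1,
            show e + (l + 1) = j + 1 by omega] at hE
          exact hE
        by_cases hE : Rl p g l a z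
        · rw [if_pos hE]
          exact h4
        · rw [if_neg hE]
          refine le_of_eq (Finset.sum_eq_zero fun x hx => ?_)
          exfalso
          apply hE
          obtain ⟨hx1, hx2⟩ := Finset.mem_filter.1 hx
          obtain ⟨hx3, hx4⟩ := mem_cls.1 hx1
          have h5 : Rl p g l a x := by
            rw [hrel a ha x hx3, show e + l = j by omega]
            exact hx4
          exact Rl_trans h5 (Rl_mono hx2)
      refine (Finset.sum_le_sum h3).trans (le_of_eq ?_)
      rw [← Finset.sum_filter, Finset.sum_const, nsmul_eq_mul, mul_one]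
      unfold Wl Wset
      rfl
  · have h1 : ∀ x ∈ X, ∀ i ≤ e, cls ((p : ℤ) ^ i) X x = X := by
      intro x hx i hi
      ext z
      rw [mem_cls]
      refine ⟨fun h => h.1, fun h => ⟨h, ?_⟩⟩
      have d1 := (dvd_iff_val (p := p) (hne z (hX h)) i).2 (by rw [hve z h]; exact hi)
      have d2 := (dvd_iff_val (p := p) (hne x (hX hx)) i).2 (by rw [hve x hx]; exact hi)
      exact dvd_sub d1 d2
    have h2 : drop ((p : ℤ) ^ j) ((p : ℤ) ^ (j + 1)) X = 0 := by
      unfold drop
      refine Finset.sum_eq_zero fun x hx => ?_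
      rw [h1 x hx j (by omega), h1 x hx (j + 1) (by omega), div_self, Real.log_one]
      exact_mod_cast (Finset.card_pos.2 ⟨x0, hx0⟩).ne'
    rw [h2]
    refine Finset.sum_nonneg fun x hx => ?_
    unfold rf
    rw [hve x hx, if_neg hj]

theorem sum_rf {M : ℝ} (hM : 0 < M) (D : ℤ → Finset ℤ) (dsub : ∀ a ∈ A, D a ⊆ A)
    (dself : ∀ a ∈ A, a ∈ D a) (dcong : ∀ a ∈ A, ∀ x ∈ D a, D x = D a)
    (dlab : ∀ a ∈ A, ∀ x ∈ D a, lbl g x = lbl g a)
    (hfib : ∀ a ∈ A, ∀ n : ℕ, M * (Es p (D a) n).card ≤ ((D a).card : ℝ)) (j : ℕ) :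
    ∑ x ∈ A, rf p g A j x ≤ A.card * (Real.log A.card / M) := by
  rw [← avg_gen A D dsub dself dcong]
  have h1 : ∀ a ∈ A, (1 / ((D a).card : ℝ)) * ∑ x ∈ D a, rf p g A j x ≤
      Real.log A.card / M := by
    intro a ha
    have hF0 : (0 : ℝ) < (D a).card := by
      exact_mod_cast Finset.card_pos.2 ⟨a, dself a ha⟩
    let φ : ℕ → ℝ := fun l => Real.log ((Wl p g A l a).card / (Wl p g A (l + 1) a).card)
    have hφ0 : ∀ l, 0 ≤ φ l := by
      intro l
      refine Real.log_nonneg ?_
      rw [le_div_iff₀ (Wl_pos ha), one_mul]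
      have : Wl p g A (l + 1) a ⊆ Wl p g A l a := by
        intro z hz
        rw [mem_Wl] at hz ⊢
        exact ⟨hz.1, Rl_mono hz.2⟩
      exact_mod_cast Finset.card_le_card this
    have h2 : ∑ x ∈ D a, rf p g A j x ≤
        ∑ l ∈ Finset.range (j + 1), φ l * (Es p (D a) (j - l)).card := by
      have h3 : ∀ x ∈ D a, rf p g A j x ≤
          ∑ l ∈ Finset.range (j + 1), if padicValInt p x = j - l then φ l else 0 := by
        intro x hx
        have hlab := dlab a ha x hx
        unfold rf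
        split_ifs with h4
        · rw [Wl_congr (Rl_of_eq hlab), Wl_congr (Rl_of_eq hlab)]
          have h5 := Finset.single_le_sum (s := Finset.range (j + 1))
            (f := fun l => if padicValInt p x = j - l then φ l else 0)
            (fun l _ => by
              split_ifs
              · exact hφ0 l
              · exact le_rfl) (a := j - padicValInt p x) (Finset.mem_range.2 (by omega))
          rw [if_pos (by omega)] at h5
          exact h5
        · refine Finset.sum_nonneg fun l _ => ?_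
          split_ifs
          · exact hφ0 l
          · exact le_rfl
      refine (Finset.sum_le_sum h3).trans (le_of_eq ?_)
      rw [Finset.sum_comm]
      refine Finset.sum_congr rfl fun l _ => ?_
      rw [← Finset.sum_filter, Finset.sum_const, nsmul_eq_mul, mul_comm]
      rfl
    have h3 : ∑ l ∈ Finset.range (j + 1), φ l * (Es p (D a) (j - l)).card ≤
        ∑ l ∈ Finset.range (j + 1), φ l * ((D a).card / M) := by
      refine Finset.sum_le_sum fun l _ => mul_le_mul_of_nonneg_left ?_ (hφ0 l)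
      rw [le_div_iff₀ hM, mul_comm]
      exact hfib a ha _
    have h4 : ∑ l ∈ Finset.range (j + 1), φ l ≤ Real.log A.card := by
      have h5 : ∀ l ∈ Finset.range (j + 1), φ l =
          Real.log (Wl p g A l a).card - Real.log (Wl p g A (l + 1) a).card := by
        intro l _
        exact Real.log_div (Wl_pos ha).ne' (Wl_pos ha).ne'
      rw [Finset.sum_congr rfl h5, Finset.sum_range_sub']
      have h6 : 0 ≤ Real.log (Wl p g A (j + 1) a).card := Real.log_natCast_nonneg _
      have h7 : Real.log (Wl p g A 0 a).card ≤ Real.log A.card := by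
        refine Real.log_le_log (Wl_pos ha) ?_
        exact_mod_cast Finset.card_le_card (fun z hz => (mem_Wl.1 hz).1)
      linarith
    rw [← Finset.sum_mul] at h3
    have h5 := mul_le_mul_of_nonneg_left (h2.trans h3) (one_div_pos.2 hF0).le
    refine h5.trans ?_
    calc (1 / ((D a).card : ℝ)) * ((∑ l ∈ Finset.range (j + 1), φ l) *
          ((D a).card / M)) = (∑ l ∈ Finset.range (j + 1), φ l) / M := by
          field_simp
      _ ≤ Real.log A.card / M := div_le_div_of_nonneg_right h4 hM.le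
  refine (Finset.sum_le_sum h1).trans (le_of_eq ?_)
  rw [Finset.sum_const, nsmul_eq_mul]

end

end Pool.Agent.W219.SP
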