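import Pool.Agent.W219.SP.DichG

/-!
Groups generated by `r` positive rational numbers.
-/

set_option autoImplicit false

namespace Pool.Agent.W219.SP

open Finset
open scoped Pointwise

/-- the group generated by `t` -/
def grp {r : ℕ} (t : Fin r → ℚ) (ht : ∀ i, 0 < t i) : Subgroup ℚˣ where
  carrier := {γ | ∃ n : Fin r → ℤ, (γ : ℚ) = ∏ i, t i ^ n i}
  mul_mem' := by
    rintro γ δ ⟨n, hn⟩ ⟨m, hm⟩
    refine ⟨n + m, ?_⟩
    rw [Units.val_mul, hn, hm, ← Finset.prod_mul_distrib]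
    refine Finset.prod_congr rfl fun i _ => ?_
    rw [Pi.add_apply, zpow_add₀ (ht i).ne']
  one_mem' := ⟨0, by simp⟩
  inv_mem' := by
    rintro γ ⟨n, hn⟩
    refine ⟨-n, ?_⟩
    rw [Units.val_inv_eq_inv_val, hn, ← Finset.prod_inv_distrib]
    refine Finset.prod_congr rfl fun i _ => ?_
    rw [Pi.neg_apply, zpow_neg]

theorem mem_grp {r : ℕ} {t : Fin r → ℚ} {ht : ∀ i, 0 < t i} {γ : ℚˣ} :
    γ ∈ grp t ht ↔ ∃ n : Fin r → ℤ, (γ : ℚ) = ∏ i, t i ^ n i := Iff.rfl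

/-- the valuation of a product of powers -/
theorem val_prod {q : ℕ} [hq : Fact q.Prime] {r : ℕ} {t : Fin r → ℚ} (ht : ∀ i, 0 < t i)
    (n : Fin r → ℤ) : padicValRat q (∏ i, t i ^ n i) = ∑ i, n i * padicValRat q (t i) := by
  classical
  have h : ∀ s : Finset (Fin r), padicValRat q (∏ i ∈ s, t i ^ n i) =
      ∑ i ∈ s, n i * padicValRat q (t i) := by
    intro s
    induction s using Finset.induction_on with
    | empty => simp
    | insert a s ha ih =>
      rw [Finset.prod_insert ha, Finset.sum_insert ha, padicValRat.mul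
        (zpow_ne_zero _ (ht a).ne') (Finset.prod_ne_zero_iff.2 fun i _ =>
          zpow_ne_zero _ (ht i).ne'), padicValRat.zpow, ih]
  exact h Finset.univ

/-- the linear form of the valuation at `q` -/
noncomputable def Lf {r : ℕ} (t : Fin r → ℚ) (q : ℕ) : (Fin r → ℚ) →ₗ[ℚ] ℚ :=
  ∑ i, (padicValRat q (t i) : ℚ) • LinearMap.proj i

theorem Lf_apply {r : ℕ} (t : Fin r → ℚ) (q : ℕ) (n : Fin r → ℚ) :
    Lf t q n = ∑ i, (padicValRat q (t i) : ℚ) * n i := by
  simp [Lf, LinearMap.sum_apply]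

/-- at most `r` primes determine the valuations -/
theorem exists_primes {r : ℕ} (t : Fin r → ℚ) :
    ∃ T : Finset ℕ, (∀ q ∈ T, q.Prime) ∧ T.card ≤ r ∧ ∀ n : Fin r → ℚ,
      (∀ q ∈ T, Lf t q n = 0) → ∀ q : ℕ, q.Prime → Lf t q n = 0 := by
  classical
  have key : ∀ k : ℕ, ∀ T : Finset ℕ, (∀ q ∈ T, q.Prime) → ∀ V : Submodule ℚ (Fin r → ℚ),
      (∀ n, n ∈ V ↔ ∀ q ∈ T, Lf t q n = 0) → Module.finrank ℚ V = k → T.card + k ≤ r →
      ∃ T : Finset ℕ, (∀ q ∈ T, q.Prime) ∧ T.card ≤ r ∧ ∀ n : Fin r → ℚ,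
        (∀ q ∈ T, Lf t q n = 0) → ∀ q : ℕ, q.Prime → Lf t q n = 0 := by
    intro k
    induction k using Nat.strong_induction_on with
    | _ k ih =>
      intro T hT V hV hk hTk
      by_cases h : ∀ n ∈ V, ∀ q : ℕ, q.Prime → Lf t q n = 0
      · exact ⟨T, hT, by omega, fun n hn q hq => h n ((hV n).2 hn) q hq⟩
      · push Not at h
        obtain ⟨n, hn, q, hq, hne⟩ := h
        have hqT : q ∉ T := fun hqT => hne ((hV n).1 hn q hqT)
        let W : Submodule ℚ (Fin r → ℚ) := V ⊓ LinearMap.ker (Lf t q)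
        have hWV : W < V := by
          refine lt_of_le_of_ne inf_le_left fun hWV => hne ?_
          have : n ∈ W := by rw [hWV]; exact hn
          exact LinearMap.mem_ker.1 this.2
        have hlt := Submodule.finrank_lt_finrank_of_lt hWV
        refine ih (Module.finrank ℚ W) (by omega) (insert q T) ?_ W ?_ rfl ?_
        · intro q' hq'
          rcases Finset.mem_insert.1 hq' with h1 | h1
          · rw [h1]; exact hq
          · exact hT q' h1
        · intro m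
          constructor
          · intro hm q' hq'
            rcases Finset.mem_insert.1 hq' with h1 | h1
            · rw [h1]; exact LinearMap.mem_ker.1 hm.2
            · exact (hV m).1 hm.1 q' h1
          · intro hm
            exact ⟨(hV m).2 fun q' hq' => hm q' (Finset.mem_insert_of_mem hq'),
              LinearMap.mem_ker.2 (hm q (Finset.mem_insert_self _ _))⟩
        · rw [Finset.card_insert_of_notMem hqT]
          omega
  refine key (Module.finrank ℚ (⊤ : Submodule ℚ (Fin r → ℚ))) ∅ (by simp) ⊤ (by simp) rfl ?_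
  rw [finrank_top, Module.finrank_fin_fun]
  simp

/-- the primes of the theorem -/
theorem exists_T {r : ℕ} (t : Fin r → ℚ) (ht : ∀ i, 0 < t i) :
    ∃ T : Finset ℕ, (∀ q ∈ T, q.Prime) ∧ T.card ≤ r ∧
      ∀ γ ∈ grp t ht, (∀ q ∈ T, padicValRat q (γ : ℚ) = 0) → γ = 1 := by
  obtain ⟨T, hT, hTr, h⟩ := exists_primes t
  refine ⟨T, hT, hTr, fun γ hγ h0 => ?_⟩
  obtain ⟨n, hn⟩ := mem_grp.1 hγ
  have hval : ∀ q : ℕ, q.Prime → (padicValRat q (γ : ℚ) : ℚ) = Lf t q (fun i => (n i : ℚ)) := by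
    intro q hq
    have := Fact.mk hq
    rw [hn, val_prod ht, Lf_apply]
    push_cast
    exact Finset.sum_congr rfl fun i _ => mul_comm _ _
  have h1 : ∀ q : ℕ, q.Prime → padicValRat q (γ : ℚ) = 0 := by
    intro q hq
    have h2 := h (fun i => (n i : ℚ)) (fun q' hq' => by
      rw [← hval q' (hT q' hq'), h0 q' hq']
      simp) q hq
    rw [← hval q hq] at h2
    exact_mod_cast h2
  have hpos : 0 < (γ : ℚ) := by
    rw [hn]
    exact Finset.prod_pos fun i _ => zpow_pos (ht i) _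
  have h2 : (γ : ℚ) = 1 := by
    by_contra hne
    obtain ⟨p, hp, hpv⟩ := exists_prime_val hpos.ne' hne (by linarith)
    exact hpv (h1 p hp)
  exact Units.ext h2

open Classical in
theorem cG_grp {r : ℕ} (t : Fin r → ℚ) (ht : ∀ i, 0 < t i) (A : Finset ℤ) (a : ℤ) :
    cG (grp t ht) A a =
      A.filter fun x : ℤ => ∃ n : Fin r → ℤ, (x : ℚ) = a * ∏ i, t i ^ n i := by
  ext x
  rw [mem_cG, Finset.mem_filter]
  refine and_congr_right fun _ => ?_
  constructor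
  · rintro ⟨γ, hγ, hx⟩
    obtain ⟨n, hn⟩ := mem_grp.1 hγ
    exact ⟨n, by rw [hx, hn]⟩
  · rintro ⟨n, hn⟩
    have hne : ∏ i, t i ^ n i ≠ 0 := Finset.prod_ne_zero_iff.2 fun i _ =>
      zpow_ne_zero _ (ht i).ne'
    exact ⟨Units.mk0 _ hne, mem_grp.2 ⟨n, rfl⟩, by rw [hn]; rfl⟩

/-- `T` may be taken nonempty when a fibre is large -/
theorem T_nonempty {r : ℕ} {t : Fin r → ℚ} {ht : ∀ i, 0 < t i} {T : Finset ℕ}
    (hT : ∀ γ ∈ grp t ht, (∀ q ∈ T, padicValRat q (γ : ℚ) = 0) → γ = 1) {A : Finset ℤ} {a : ℤ}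
    (h : 2 ≤ (cG (grp t ht) A a).card) : T.Nonempty := by
  by_contra hcon
  rw [Finset.not_nonempty_iff_eq_empty] at hcon
  subst hcon
  obtain ⟨x, hx, y, hy, hxy⟩ := Finset.one_lt_card.1 (show 1 < (cG (grp t ht) A a).card by omega)
  obtain ⟨_, γ, h1, h2⟩ := mem_cG.1 hx
  obtain ⟨_, δ, h3, h4⟩ := mem_cG.1 hy
  have e1 := hT γ h1 (by simp)
  have e2 := hT δ h3 (by simp)
  rw [e1] at h2
  rw [e2] at h4
  apply hxy
  have : (x : ℚ) = y := by rw [h2, h4]
  exact_mod_cast this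

/-- **The rank `r` fibre theorem.** -/
theorem fibre (k r : ℕ) (hk : 1 ≤ k) (hr : 1 ≤ r) (ε : ℝ) (hε : 0 < ε) (hε1 : ε ≤ 1)
    (t : Fin r → ℚ) (ht : ∀ i, 0 < t i) (A : Finset ℤ) (hA : A.Nonempty)
    (hfib : ∀ a ∈ A, Mc (ε / k) A ^ r ≤ ((cG (grp t ht) A a).card : ℝ))
    (B : Finset ℤ) (hB : B.Nonempty) :
    ((A.card : ℝ) ^ k * B.card) ^ (1 - ε) ≤ (r * Mc (ε / k) A + 1) ^ (2 * r * k) *
      ((ksum k A + B).card : ℝ) := by
  have hkR : (1 : ℝ) ≤ k := by exact_mod_cast hk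
  have hk0 : (0 : ℝ) < k := by linarith
  have hδ : 0 < ε / k := div_pos hε hk0
  have hδ1 : ε / k ≤ 1 := by
    rw [div_le_one hk0]
    linarith
  have hM := Mc_ge hδ hδ1 hA
  obtain ⟨T, hT, hTr, hΓ⟩ := exists_T t ht
  have hTn : T.Nonempty := by
    obtain ⟨a, ha⟩ := hA
    refine T_nonempty hΓ (A := A) (a := a) ?_
    have h1 : (2 : ℝ) ≤ (cG (grp t ht) A a).card := by
      refine le_trans ?_ (hfib a ha)
      calc (2 : ℝ) ≤ Mc (ε / k) A := hM
        _ = Mc (ε / k) A ^ 1 := (pow_one _).symm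
        _ ≤ Mc (ε / k) A ^ r := pow_le_pow_right₀ (by linarith) hr
    exact_mod_cast h1
  have h := kfoldG k hk ε hε hε1 T hT hTn (grp t ht) hΓ A hA
    (fun a ha => (pow_le_pow_right₀ (by linarith) hTr).trans (hfib a ha)) B hB
  refine h.trans ?_
  refine mul_le_mul_of_nonneg_right ?_ (Nat.cast_nonneg _)
  have hTrR : (T.card : ℝ) ≤ r := by exact_mod_cast hTr
  have h1 : (T.card : ℝ) * Mc (ε / k) A + 1 ≤ r * Mc (ε / k) A + 1 := by
    have := mul_le_mul_of_nonneg_right hTrR (by linarith : (0 : ℝ) ≤ Mc (ε / k) A)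
    linarith
  have h2 : 1 ≤ (r : ℝ) * Mc (ε / k) A + 1 := by
    have : 0 ≤ (r : ℝ) * Mc (ε / k) A := by positivity
    linarith
  calc (T.card * Mc (ε / k) A + 1) ^ (2 * T.card * k) ≤
        (r * Mc (ε / k) A + 1) ^ (2 * T.card * k) :=
        pow_le_pow_left₀ (by positivity) h1 _
    _ ≤ (r * Mc (ε / k) A + 1) ^ (2 * r * k) := by
        refine pow_le_pow_right₀ h2 ?_
        exact Nat.mul_le_mul_right k (Nat.mul_le_mul_left 2 hTr)

/-- **The rank `r` dichotomy.** -/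
theorem dich (k r : ℕ) (hk : 1 ≤ k) (hr : 1 ≤ r) (ε : ℝ) (hε : 0 < ε) (hε1 : ε ≤ 1)
    (t : Fin r → ℚ) (ht : ∀ i, 0 < t i) (A P : Finset ℤ) (hA : A.Nonempty)
    (hA0 : (0 : ℤ) ∉ A) (hP0 : (0 : ℤ) ∉ P) (hPn : P.Nonempty)
    (hP : ∀ q ∈ P, ∀ q' ∈ P, ∃ n : Fin r → ℤ, (q' : ℚ) = q * ∏ i, t i ^ n i)
    (hAP : 2 * Mc (ε / k) A ^ r * (A * P).card ≤ (A.card : ℝ) * P.card)
    (B : Finset ℤ) (hB : B.Nonempty) :
    (((A.card : ℝ) / 2) ^ k * B.card) ^ (1 - ε) ≤
      (r * Mc (ε / k) A + 1) ^ (2 * r * k) * ((ksum k A + B).card : ℝ) := by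
  have hAc : (0 : ℝ) < A.card := by exact_mod_cast hA.card_pos
  have hBc : (0 : ℝ) < B.card := by exact_mod_cast hB.card_pos
  have hkR : (1 : ℝ) ≤ k := by exact_mod_cast hk
  have hk0 : (0 : ℝ) < k := by linarith
  have hδ : 0 < ε / k := div_pos hε hk0
  have hδ1 : ε / k ≤ 1 := by
    rw [div_le_one hk0]
    linarith
  have hM := Mc_ge hδ hδ1 hA
  obtain ⟨R, hRA, hRc, hRf⟩ := exists_richG (Γ := grp t ht) (Mc (ε / k) A ^ r)
    (by positivity) A P hA0 hP0 hPn (fun q hq q' hq' => by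
      obtain ⟨n, hn⟩ := hP q hq q' hq'
      have hne : ∏ i, t i ^ n i ≠ 0 := Finset.prod_ne_zero_iff.2 fun i _ =>
        zpow_ne_zero _ (ht i).ne'
      exact ⟨Units.mk0 _ hne, mem_grp.2 ⟨n, rfl⟩, by rw [hn]; rfl⟩) hAP
  have hRpos : (0 : ℝ) < R.card := by linarith
  have hRn : R.Nonempty := Finset.card_pos.1 (by exact_mod_cast hRpos)
  have hMR := Mc_ge hδ hδ1 hRn
  have hmono := Mc_mono hδ hRn hRA
  have hmain := fibre k r hk hr ε hε hε1 t ht R hRn
    (fun a ha => (pow_le_pow_left₀ (by linarith) hmono _).trans (hRf a ha)) B hB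
  have h3 : (((A.card : ℝ) / 2) ^ k * B.card) ^ (1 - ε) ≤
      ((R.card : ℝ) ^ k * B.card) ^ (1 - ε) := by
    refine Real.rpow_le_rpow (by positivity) ?_ (by linarith)
    exact mul_le_mul_of_nonneg_right (pow_le_pow_left₀ (by positivity) hRc k) hBc.le
  refine (h3.trans hmain).trans ?_
  have h4 : ((ksum k R + B).card : ℝ) ≤ (ksum k A + B).card := by
    exact_mod_cast Finset.card_le_card (Finset.add_subset_add (ksum_mono k hRA)
      (Finset.Subset.refl B))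
  have h5 : (r * Mc (ε / k) R + 1) ^ (2 * r * k) ≤
      (r * Mc (ε / k) A + 1) ^ (2 * r * k) := by
    refine pow_le_pow_left₀ (by positivity) ?_ _
    have : (r : ℝ) * Mc (ε / k) R ≤ r * Mc (ε / k) A :=
      mul_le_mul_of_nonneg_left hmono (Nat.cast_nonneg _)
    linarith
  exact mul_le_mul h5 h4 (Nat.cast_nonneg _) (by positivity)

end Pool.Agent.W219.SP
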