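import Pool.Agent.W219.SP.Rzero

/-!
Multipliers for a multiplicative group of finite rank, and the choice of the last prime.
-/

set_option autoImplicit false

namespace Pool.Agent.W219.SP

open Finset
open scoped Pointwise

theorem exists_mult (T : Finset ℕ) (hT : ∀ q ∈ T, q.Prime) (Γ : Subgroup ℚˣ)
    (hΓ : ∀ γ ∈ Γ, (∀ q ∈ T, padicValRat q (γ : ℚ) = 0) → γ = 1) {p : ℕ} (hp : p ∈ T) :
    ∃ g : ℤ → ℚ, (∀ x : ℤ, padicNorm p (g x) = (p : ℚ) ^ (-(padicValInt p x : ℤ))) ∧
      (∀ x y : ℤ, (∀ q ∈ T, padicValInt q x = padicValInt q y) → g x = g y) ∧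
      (∀ x y : ℤ, x ≠ 0 → y ≠ 0 → (∃ γ ∈ Γ, (x : ℚ) = y * (γ : ℚ)) → lbl g x = lbl g y) := by
  classical
  have hmul : ∀ q ∈ T, ∀ γ δ : ℚˣ, padicValRat q ((γ * δ : ℚˣ) : ℚ) =
      padicValRat q (γ : ℚ) + padicValRat q (δ : ℚ) := by
    intro q hq γ δ
    have := Fact.mk (hT q hq)
    rw [Units.val_mul, padicValRat.mul γ.ne_zero δ.ne_zero]
  have hinv : ∀ q ∈ T, ∀ γ : ℚˣ, padicValRat q ((γ⁻¹ : ℚˣ) : ℚ) = -padicValRat q (γ : ℚ) := by
    intro q hq γ
    have := Fact.mk (hT q hq)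
    rw [Units.val_inv_eq_inv_val, padicValRat.inv]
  let r : (ℕ → ℤ) → (ℕ → ℤ) → Prop := fun u v =>
    ∃ γ ∈ Γ, ∀ q ∈ T, v q = u q + padicValRat q (γ : ℚ)
  have hrefl : ∀ u, r u u := fun u => ⟨1, Γ.one_mem, fun q _ => by simp⟩
  have hsymm : ∀ {u v}, r u v → r v u := by
    rintro u v ⟨γ, h1, h2⟩
    refine ⟨γ⁻¹, Γ.inv_mem h1, fun q hq => ?_⟩
    rw [hinv q hq, h2 q hq]
    ring
  have htrans : ∀ {u v w}, r u v → r v w → r u w := by
    rintro u v w ⟨γ, h1, h2⟩ ⟨δ, h3, h4⟩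
    refine ⟨γ * δ, Γ.mul_mem h1 h3, fun q hq => ?_⟩
    rw [hmul q hq, h4 q hq, h2 q hq]
    ring
  let S : Setoid (ℕ → ℤ) := ⟨r, hrefl, hsymm, htrans⟩
  let rep : (ℕ → ℤ) → (ℕ → ℤ) := fun u => (Quotient.mk S u).out
  have hrep : ∀ u, r (rep u) u := fun u => Quotient.mk_out (s := S) u
  have hrepeq : ∀ u v, r u v → rep u = rep v := by
    intro u v h
    have : Quotient.mk S u = Quotient.mk S v := Quotient.sound h
    simp only [rep, this]
  choose γ hγ1 hγ2 using hrep
  let vec : ℤ → ℕ → ℤ := fun x q => if q ∈ T then (padicValInt q x : ℤ) else 0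
  have hpp := hT p hp
  have hpF := Fact.mk hpp
  have hp0 : (p : ℚ) ≠ 0 := by exact_mod_cast hpp.ne_zero
  let g : ℤ → ℚ := fun x => (p : ℚ) ^ (rep (vec x) p) * ((γ (vec x) : ℚˣ) : ℚ)
  refine ⟨g, ?_, ?_, ?_⟩
  · intro x
    have h1 : g x ≠ 0 := mul_ne_zero (zpow_ne_zero _ hp0) (γ (vec x)).ne_zero
    rw [padicNorm.eq_zpow_of_nonzero h1]
    congr 2
    simp only [g]
    rw [padicValRat.mul (zpow_ne_zero _ hp0) (γ (vec x)).ne_zero, padicValRat.zpow,
      padicValRat.self hpp.one_lt, mul_one]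
    have h2 := hγ2 (vec x) p hp
    have h3 : vec x p = padicValInt p x := by
      simp only [vec]
      rw [if_pos hp]
    rw [h3] at h2
    exact h2.symm
  · intro x y h
    have h1 : vec x = vec y := by
      funext q
      simp only [vec]
      split_ifs with hq
      · rw [h q hq]
      · rfl
    simp only [g]
    rw [h1]
  · rintro x y hx hy ⟨δ, hδ1, hδ2⟩
    have hyQ : (y : ℚ) ≠ 0 := by exact_mod_cast hy
    have hv : ∀ q ∈ T, vec x q = vec y q + padicValRat q (δ : ℚ) := by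
      intro q hq
      have := Fact.mk (hT q hq)
      simp only [vec]
      rw [if_pos hq, if_pos hq]
      have h1 : padicValRat q (x : ℚ) = padicValRat q (y : ℚ) + padicValRat q (δ : ℚ) := by
        rw [hδ2, padicValRat.mul hyQ δ.ne_zero]
      rw [padicValRat.of_int, padicValRat.of_int] at h1
      exact h1
    have hr : rep (vec y) = rep (vec x) := hrepeq _ _ ⟨δ, hδ1, hv⟩
    have hγ : γ (vec x) = γ (vec y) * δ := by
      have h1 : γ (vec x) * (γ (vec y) * δ)⁻¹ = 1 := by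
        refine hΓ _ (Γ.mul_mem (hγ1 _) (Γ.inv_mem (Γ.mul_mem (hγ1 _) hδ1))) fun q hq => ?_
        rw [hmul q hq, hinv q hq, hmul q hq]
        have h2 := hγ2 (vec x) q hq
        have h3 := hγ2 (vec y) q hq
        have h4 := hv q hq
        rw [hr] at h3
        linarith
      rwa [mul_inv_eq_one] at h1
    unfold lbl
    simp only [g]
    rw [hγ, hr, Units.val_mul, hδ2]
    have e1 : (p : ℚ) ^ (rep (vec x) p) ≠ 0 := zpow_ne_zero _ hp0
    have e2 : ((γ (vec y) : ℚˣ) : ℚ) ≠ 0 := (γ (vec y)).ne_zero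
    have e3 : (δ : ℚ) ≠ 0 := δ.ne_zero
    field_simp

/-- the choice of the last prime -/
theorem select {M : ℝ} (hM : 1 ≤ M) (T : Finset ℕ) : ∀ F : Finset ℤ, 2 ≤ F.card →
    M ^ T.card ≤ F.card →
    (∀ x ∈ F, ∀ y ∈ F, (∀ q ∈ T, padicValInt q x = padicValInt q y) → x = y) →
    ∃ p ∈ T, ∃ F' ⊆ F, F'.Nonempty ∧ (F.card : ℝ) ≤ M ^ T.card * F'.card ∧
      ∀ n : ℕ, M * (Es p F' n).card ≤ (F'.card : ℝ) := by
  classical
  have hM0 : 0 < M := by linarith
  induction T using Finset.induction_on with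
  | empty =>
    intro F h1 _ h3
    exfalso
    obtain ⟨x, hx, y, hy, hxy⟩ := Finset.one_lt_card.1 (show 1 < F.card by omega)
    exact hxy (h3 x hx y hy (by simp))
  | insert p T hpT ih =>
    intro F h1 h2 h3
    rw [Finset.card_insert_of_notMem hpT] at h2 ⊢
    have hF0 : (0 : ℝ) < F.card := by
      have : 0 < F.card := by omega
      exact_mod_cast this
    by_cases h : ∀ n : ℕ, M * (Es p F n).card ≤ (F.card : ℝ)
    · refine ⟨p, Finset.mem_insert_self _ _, F, Finset.Subset.refl F,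
        Finset.card_pos.1 (by omega), ?_, h⟩
      have h4 : 1 ≤ M ^ (T.card + 1) := one_le_pow₀ hM
      nlinarith
    · push Not at h
      obtain ⟨n, hn⟩ := h
      have hT1 : 1 ≤ M ^ T.card := one_le_pow₀ hM
      have h4 : M ^ T.card < (Es p F n).card := by
        have h5 : M * M ^ T.card < M * (Es p F n).card := by
          rw [← pow_succ']
          linarith
        exact lt_of_mul_lt_mul_left h5 hM0.le
      have h5 : 2 ≤ (Es p F n).card := by
        have h6 : (1 : ℝ) < (Es p F n).card := by linarith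
        have h7 : 1 < (Es p F n).card := by exact_mod_cast h6
        omega
      obtain ⟨q, hq, F', hF', hn', hc, hs⟩ := ih (Es p F n) h5 h4.le (by
        intro x hx y hy hxy
        obtain ⟨hx1, hx2⟩ := mem_Es.1 hx
        obtain ⟨hy1, hy2⟩ := mem_Es.1 hy
        refine h3 x hx1 y hy1 fun q hq => ?_
        rcases Finset.mem_insert.1 hq with h6 | h6
        · rw [h6, hx2, hy2]
        · exact hxy q h6)
      refine ⟨q, Finset.mem_insert_of_mem hq, F', hF'.trans (Finset.filter_subset _ _), hn', ?_,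
        hs⟩
      calc (F.card : ℝ) ≤ M * (Es p F n).card := hn.le
        _ ≤ M * (M ^ T.card * F'.card) := mul_le_mul_of_nonneg_left hc hM0.le
        _ = M ^ (T.card + 1) * F'.card := by ring

end Pool.Agent.W219.SP
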