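import Pool.Agent.W219.SP.Main

/-!
Either the product with a subset of a geometric progression is almost maximal, or all sumsets are.
-/

set_option autoImplicit false

namespace Pool.Agent.W219.SP

open Finset
open scoped Pointwise

open Classical in
/-- elements of `A` in the coset of `a` -/
noncomputable def cos (A : Finset ℤ) (t : ℚ) (a : ℤ) : Finset ℤ :=
  A.filter fun x : ℤ => ∃ i : ℤ, (x : ℚ) = a * t ^ i

theorem mem_cos {A : Finset ℤ} {t : ℚ} {a x : ℤ} :
    x ∈ cos A t a ↔ x ∈ A ∧ ∃ i : ℤ, (x : ℚ) = a * t ^ i := by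
  classical
  simp [cos]

theorem cos_congr {A : Finset ℤ} {t : ℚ} (h0 : t ≠ 0) {a b : ℤ}
    (h : ∃ i : ℤ, (b : ℚ) = a * t ^ i) : cos A t b = cos A t a := by
  obtain ⟨i, hi⟩ := h
  ext x
  rw [mem_cos, mem_cos]
  constructor
  · rintro ⟨h1, j, hj⟩
    refine ⟨h1, i + j, ?_⟩
    rw [hj, hi, zpow_add₀ h0]
    ring
  · rintro ⟨h1, j, hj⟩
    refine ⟨h1, j - i, ?_⟩
    rw [hj, hi, zpow_sub₀ h0]
    have : t ^ i ≠ 0 := zpow_ne_zero _ h0
    field_simp

/-- the number of elements in short fibres -/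
theorem short_le {t : ℚ} {A P : Finset ℤ} (hA0 : (0 : ℤ) ∉ A) (hP0 : (0 : ℤ) ∉ P)
    (hP : ∀ q ∈ P, ∀ q' ∈ P, ∃ i : ℤ, (q' : ℚ) = q * t ^ i) {M : ℝ}
    (hM0 : 0 ≤ M) (S : Finset ℤ) (hS : S ⊆ A) (hM : ∀ a ∈ S, ((cos A t a).card : ℝ) ≤ M) :
    (S.card : ℝ) * P.card ≤ M * (A * P).card := by
  classical
  have h1 : (S ×ˢ P).card = ∑ z ∈ A * P, ((S ×ˢ P).filter fun w => w.1 * w.2 = z).card := by
    refine Finset.card_eq_sum_card_fiberwise (f := fun w : ℤ × ℤ => w.1 * w.2) ?_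
    intro w hw
    obtain ⟨h2, h3⟩ := Finset.mem_product.1 (Finset.mem_coe.1 hw)
    exact Finset.mem_coe.2 (Finset.mul_mem_mul (hS h2) h3)
  have h2 : ∀ z ∈ A * P, (((S ×ˢ P).filter fun w => w.1 * w.2 = z).card : ℝ) ≤ M := by
    intro z hz
    rcases ((S ×ˢ P).filter fun w => w.1 * w.2 = z).eq_empty_or_nonempty with he | ⟨w0, hw0⟩
    · rw [he]
      simpa using hM0
    · obtain ⟨hw1, hw2⟩ := Finset.mem_filter.1 hw0
      obtain ⟨hw3, hw4⟩ := Finset.mem_product.1 hw1
      refine le_trans ?_ (hM w0.1 hw3)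
      norm_cast
      refine Finset.card_le_card_of_injOn (fun w => w.1) ?_ ?_
      · intro w hw
        obtain ⟨hv1, hv2⟩ := Finset.mem_filter.1 (Finset.mem_coe.1 hw)
        obtain ⟨hv3, hv4⟩ := Finset.mem_product.1 hv1
        refine Finset.mem_coe.2 (mem_cos.2 ⟨hS hv3, ?_⟩)
        obtain ⟨i, hi⟩ := hP w.2 hv4 w0.2 hw4
        refine ⟨i, ?_⟩
        have h4 : (w.2 : ℚ) ≠ 0 := by
          have : w.2 ≠ 0 := fun h => hP0 (h ▸ hv4)
          exact_mod_cast this
        have h5 : (w.1 : ℚ) * w.2 = w0.1 * w0.2 := by exact_mod_cast hv2.trans hw2.symm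
        rw [hi] at h5
        have h6 : (w.1 : ℚ) * w.2 = (w0.1 * t ^ i) * w.2 := by rw [h5]; ring
        exact mul_right_cancel₀ h4 h6
      · intro w hw w' hw' hww
        obtain ⟨hv1, hv2⟩ := Finset.mem_filter.1 (Finset.mem_coe.1 hw)
        obtain ⟨hv3, hv4⟩ := Finset.mem_product.1 hv1
        obtain ⟨hu1, hu2⟩ := Finset.mem_filter.1 (Finset.mem_coe.1 hw')
        simp only at hww
        have h4 : w.1 ≠ 0 := fun h => hA0 (h ▸ hS hv3)
        have h5 : w.1 * w.2 = w.1 * w'.2 := by rw [hv2, hww, hu2]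
        exact Prod.ext hww (mul_left_cancel₀ h4 h5)
  have h3 : ((S ×ˢ P).card : ℝ) ≤ ∑ z ∈ A * P, M := by
    rw [h1]
    push_cast
    exact Finset.sum_le_sum h2
  rw [Finset.card_product, Finset.sum_const, nsmul_eq_mul] at h3
  push_cast at h3
  linarith

open Classical in
/-- the dichotomy -/
theorem dichotomy (ε : ℝ) (hε : 0 < ε) (hε1 : ε ≤ 1) (t : ℚ) (h0 : t ≠ 0) (h1 : t ≠ 1)
    (h2 : t ≠ -1) (A P : Finset ℤ) (hA : A.Nonempty) (hA0 : (0 : ℤ) ∉ A) (hP0 : (0 : ℤ) ∉ P)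
    (hPn : P.Nonempty) (hP : ∀ q ∈ P, ∀ q' ∈ P, ∃ i : ℤ, (q' : ℚ) = q * t ^ i)
    (hAP : 8 / ε * Real.exp (6 / ε) * Real.log (2 * A.card) * (A * P).card ≤
      (A.card : ℝ) * P.card) (B : Finset ℤ) (hB : B.Nonempty) :
    ((A.card : ℝ) * B.card / 2) ^ (1 - ε) ≤ ((A + B).card : ℝ) := by
  have hAc : (0 : ℝ) < A.card := by exact_mod_cast hA.card_pos
  have hAc1 : (1 : ℝ) ≤ A.card := by exact_mod_cast hA.card_pos
  have hPc : (0 : ℝ) < P.card := by exact_mod_cast hPn.card_pos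
  have hBc : (0 : ℝ) < B.card := by exact_mod_cast hB.card_pos
  have hlog0 : 0 < Real.log (2 * A.card) := Real.log_pos (by linarith)
  set M := 4 / ε * Real.exp (6 / ε) * Real.log (2 * A.card) with hM
  have hM0 : 0 < M := by positivity
  set R := A.filter fun a : ℤ => M ≤ ((cos A t a).card : ℝ) with hR
  set S := A.filter fun a : ℤ => ¬ M ≤ ((cos A t a).card : ℝ) with hS
  have hSle := short_le hA0 hP0 hP hM0.le S (Finset.filter_subset _ _)
    (fun a ha => (not_le.1 (Finset.mem_filter.1 ha).2).le)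
  have hhalf : (S.card : ℝ) ≤ A.card / 2 := by
    have h3 : (S.card : ℝ) * P.card ≤ (A.card / 2) * P.card := by
      refine hSle.trans ?_
      have : M * (A * P).card = (8 / ε * Real.exp (6 / ε) * Real.log (2 * A.card) *
        (A * P).card) / 2 := by
        rw [hM]
        ring
      rw [this]
      linarith
    exact le_of_mul_le_mul_right h3 hPc
  have hsum : (R.card : ℝ) + S.card = A.card := by
    have := Finset.card_filter_add_card_filter_not (s := A)
      (fun a : ℤ => M ≤ ((cos A t a).card : ℝ))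
    exact_mod_cast this
  have hRc : (A.card : ℝ) / 2 ≤ R.card := by linarith
  have hRpos : (0 : ℝ) < R.card := by linarith
  have hRn : R.Nonempty := Finset.card_pos.1 (by exact_mod_cast hRpos)
  have hRA : R ⊆ A := Finset.filter_subset _ _
  have hcos : ∀ a ∈ R, cos A t a ⊆ cos R t a := by
    intro a ha x hx
    obtain ⟨hx1, hx2⟩ := mem_cos.1 hx
    refine mem_cos.2 ⟨Finset.mem_filter.2 ⟨hx1, ?_⟩, hx2⟩
    rw [cos_congr h0 hx2]
    exact (Finset.mem_filter.1 ha).2
  have hmain := main_rat ε hε hε1 t h0 h1 h2 R B hRn hB (by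
    intro a ha
    have h3 : M ≤ ((cos A t a).card : ℝ) := (Finset.mem_filter.1 ha).2
    have h4 : ((cos A t a).card : ℝ) ≤ (cos R t a).card := by
      exact_mod_cast Finset.card_le_card (hcos a ha)
    have h5 : 4 / ε * Real.exp (6 / ε) * Real.log (2 * R.card) ≤ M := by
      rw [hM]
      refine mul_le_mul_of_nonneg_left ?_ (by positivity)
      refine Real.log_le_log (by positivity) ?_
      have : (R.card : ℝ) ≤ A.card := by exact_mod_cast Finset.card_le_card hRA
      linarith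
    exact (h5.trans h3).trans h4)
  have h3 : ((A.card : ℝ) * B.card / 2) ^ (1 - ε) ≤ ((R.card : ℝ) * B.card) ^ (1 - ε) := by
    refine Real.rpow_le_rpow (by positivity) ?_ (by linarith)
    nlinarith
  refine (h3.trans hmain).trans ?_
  exact_mod_cast Finset.card_le_card (Finset.add_subset_add hRA (Finset.Subset.refl B))

end Pool.Agent.W219.SP
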