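import Pool.Agent.W219.SP.Mult

/-!
Sumsets of sets all of whose elements lie in large cosets of a group of finite rank.
-/

set_option autoImplicit false

namespace Pool.Agent.W219.SP

open Finset
open scoped Pointwise

open Classical in
/-- the elements of `A` in the coset of `a` -/
noncomputable def cG (Γ : Subgroup ℚˣ) (A : Finset ℤ) (a : ℤ) : Finset ℤ :=
  A.filter fun x : ℤ => ∃ γ ∈ Γ, (x : ℚ) = a * (γ : ℚ)

section

variable {Γ : Subgroup ℚˣ} {A : Finset ℤ}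

theorem mem_cG {a x : ℤ} : x ∈ cG Γ A a ↔ x ∈ A ∧ ∃ γ ∈ Γ, (x : ℚ) = a * (γ : ℚ) := by
  classical
  simp [cG]

theorem cG_sub (a : ℤ) : cG Γ A a ⊆ A := fun _ hx => (mem_cG.1 hx).1

theorem cG_self {a : ℤ} (ha : a ∈ A) : a ∈ cG Γ A a :=
  mem_cG.2 ⟨ha, 1, Γ.one_mem, by simp⟩

theorem cG_congr {a b : ℤ} (h : ∃ γ ∈ Γ, (b : ℚ) = a * (γ : ℚ)) : cG Γ A b = cG Γ A a := by
  obtain ⟨γ, h1, h2⟩ := h
  ext x
  rw [mem_cG, mem_cG]
  constructor
  · rintro ⟨h3, δ, h4, h5⟩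
    refine ⟨h3, γ * δ, Γ.mul_mem h1 h4, ?_⟩
    rw [h5, h2, Units.val_mul]
    ring
  · rintro ⟨h3, δ, h4, h5⟩
    refine ⟨h3, δ * γ⁻¹, Γ.mul_mem h4 (Γ.inv_mem h1), ?_⟩
    rw [h5, h2, Units.val_mul, Units.val_inv_eq_inv_val]
    have := γ.ne_zero
    field_simp

theorem cG_inj (h0 : (0 : ℤ) ∉ A) (T : Finset ℕ) (hT : ∀ q ∈ T, q.Prime)
    (hΓ : ∀ γ ∈ Γ, (∀ q ∈ T, padicValRat q (γ : ℚ) = 0) → γ = 1) {a x y : ℤ}
    (hx : x ∈ cG Γ A a) (hy : y ∈ cG Γ A a)
    (hxy : ∀ q ∈ T, padicValInt q x = padicValInt q y) : x = y := by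
  obtain ⟨hxA, γ, h1, h2⟩ := mem_cG.1 hx
  obtain ⟨hyA, δ, h3, h4⟩ := mem_cG.1 hy
  have hx0 : (x : ℚ) ≠ 0 := by
    have : x ≠ 0 := fun h => h0 (h ▸ hxA)
    exact_mod_cast this
  have hy0 : (y : ℚ) ≠ 0 := by
    have : y ≠ 0 := fun h => h0 (h ▸ hyA)
    exact_mod_cast this
  have h5 : (x : ℚ) = y * ((δ⁻¹ * γ : ℚˣ) : ℚ) := by
    rw [h2, h4, Units.val_mul, Units.val_inv_eq_inv_val]
    have := δ.ne_zero
    field_simp
  have h6 : δ⁻¹ * γ = 1 := by
    refine hΓ _ (Γ.mul_mem (Γ.inv_mem h3) h1) fun q hq => ?_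
    have := Fact.mk (hT q hq)
    have h7 : padicValRat q (x : ℚ) = padicValRat q (y : ℚ) +
        padicValRat q ((δ⁻¹ * γ : ℚˣ) : ℚ) := by
      rw [h5, padicValRat.mul hy0 (δ⁻¹ * γ).ne_zero]
    rw [padicValRat.of_int, padicValRat.of_int, hxy q hq] at h7
    linarith
  rw [h6, Units.val_one, mul_one] at h5
  exact_mod_cast h5

end

/-- the constant -/
noncomputable def Mc (ε : ℝ) (A : Finset ℤ) : ℝ :=
  4 / ε * Real.exp (6 / ε) * Real.log (2 * A.card)

theorem Mc_ge {ε : ℝ} (hε : 0 < ε) (hε1 : ε ≤ 1) {A : Finset ℤ} (hA : A.Nonempty) :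
    2 ≤ Mc ε A := by
  have hA1 : (1 : ℝ) ≤ A.card := by exact_mod_cast hA.card_pos
  have h6 : (1 : ℝ) / 2 ≤ Real.log (2 * A.card) := by
    have h7 : Real.log 2 ≤ Real.log (2 * A.card) := Real.log_le_log (by norm_num) (by linarith)
    have := Real.log_two_gt_d9
    linarith
  have h7 : (4 : ℝ) ≤ 4 / ε := by
    rw [le_div_iff₀ hε]
    linarith
  have h8 : (1 : ℝ) ≤ Real.exp (6 / ε) := Real.one_le_exp (by positivity)
  have h9 : (4 : ℝ) ≤ 4 / ε * Real.exp (6 / ε) := by nlinarith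
  have h10 : (4 : ℝ) * (1 / 2) ≤ 4 / ε * Real.exp (6 / ε) * Real.log (2 * A.card) :=
    mul_le_mul h9 h6 (by norm_num) (by linarith)
  unfold Mc
  linarith

theorem thmR (ε : ℝ) (hε : 0 < ε) (hε1 : ε ≤ 1) (T : Finset ℕ) (hT : ∀ q ∈ T, q.Prime)
    (hTn : T.Nonempty) (Γ : Subgroup ℚˣ)
    (hΓ : ∀ γ ∈ Γ, (∀ q ∈ T, padicValRat q (γ : ℚ) = 0) → γ = 1) (A B : Finset ℤ)
    (hA : A.Nonempty) (hB : B.Nonempty)
    (hfib : ∀ a ∈ A, Mc ε A ^ T.card ≤ ((cG Γ A a).card : ℝ)) :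
    ((A.card : ℝ) * B.card) ^ (1 - ε) ≤ (T.card * Mc ε A + 1) ^ (2 * T.card) *
      ((A + B).card : ℝ) := by
  classical
  have hAc : (0 : ℝ) < A.card := by exact_mod_cast hA.card_pos
  have hBc : (0 : ℝ) < B.card := by exact_mod_cast hB.card_pos
  have hM2 := Mc_ge hε hε1 hA
  set M := Mc ε A with hM
  have hM0 : 0 < M := by linarith
  set r := T.card with hr
  have hr1 : 1 ≤ r := hTn.card_pos
  have hrR : (1 : ℝ) ≤ r := by exact_mod_cast hr1
  have hMr : 2 ≤ M ^ r := by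
    calc (2 : ℝ) ≤ M := hM2
      _ = M ^ 1 := (pow_one M).symm
      _ ≤ M ^ r := pow_le_pow_right₀ (by linarith) hr1
  -- zero is not an element
  have h0 : (0 : ℤ) ∉ A := by
    intro hz
    have h3 := hfib 0 hz
    have h4 : cG Γ A 0 ⊆ {0} := by
      intro x hx
      obtain ⟨_, γ, _, hγ⟩ := mem_cG.1 hx
      rw [Int.cast_zero, zero_mul] at hγ
      rw [Finset.mem_singleton]
      exact_mod_cast hγ
    have h5 : ((cG Γ A 0).card : ℝ) ≤ 1 := by
      exact_mod_cast (Finset.card_le_card h4).trans (by simp)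
    linarith
  have hne : ∀ x ∈ A, x ≠ 0 := fun x hx h => h0 (h ▸ hx)
  -- the choice of the last prime for each fibre
  have hsel : ∀ a ∈ A, ∃ p ∈ T, ∃ F' ⊆ cG Γ A a, F'.Nonempty ∧
      ((cG Γ A a).card : ℝ) ≤ M ^ r * F'.card ∧
      ∀ n : ℕ, M * (Es p F' n).card ≤ (F'.card : ℝ) := by
    intro a ha
    refine select (by linarith) T (cG Γ A a) ?_ (hfib a ha)
      fun x hx y hy hxy => cG_inj h0 T hT hΓ hx hy hxy
    have : (2 : ℝ) ≤ (cG Γ A a).card := hMr.trans (hfib a ha)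
    exact_mod_cast this
  have hsel2 : ∀ F : Finset ℤ, ∃ p : ℕ, ∃ F' : Finset ℤ, (∃ a ∈ A, F = cG Γ A a) →
      p ∈ T ∧ F' ⊆ F ∧ F'.Nonempty ∧ (F.card : ℝ) ≤ M ^ r * F'.card ∧
      ∀ n : ℕ, M * (Es p F' n).card ≤ (F'.card : ℝ) := by
    intro F
    by_cases hF : ∃ a ∈ A, F = cG Γ A a
    · obtain ⟨a, ha, rfl⟩ := hF
      obtain ⟨p, hp, F', h1, h2, h3, h4⟩ := hsel a ha
      exact ⟨p, F', fun _ => ⟨hp, h1, h2, h3, h4⟩⟩
    · exact ⟨0, ∅, fun h => absurd h hF⟩
  choose pf Ff hF using hsel2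
  have hFa : ∀ a ∈ A, pf (cG Γ A a) ∈ T ∧ Ff (cG Γ A a) ⊆ cG Γ A a ∧
      (Ff (cG Γ A a)).Nonempty ∧ ((cG Γ A a).card : ℝ) ≤ M ^ r * (Ff (cG Γ A a)).card ∧
      ∀ n : ℕ, M * (Es (pf (cG Γ A a)) (Ff (cG Γ A a)) n).card ≤
        ((Ff (cG Γ A a)).card : ℝ) := fun a ha => hF _ ⟨a, ha, rfl⟩
  have hcongr : ∀ a x : ℤ, x ∈ cG Γ A a → cG Γ A x = cG Γ A a := fun a x hx =>
    cG_congr (mem_cG.1 hx).2
  set A2 := A.filter fun a => a ∈ Ff (cG Γ A a) with hA2
  have hcount : (A.card : ℝ) ≤ M ^ r * A2.card := by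
    have h1 : ((A2.card : ℕ) : ℝ) = ∑ x ∈ A, if x ∈ Ff (cG Γ A x) then (1 : ℝ) else 0 := by
      rw [← Finset.sum_filter, Finset.sum_const, nsmul_eq_mul, mul_one]
    rw [h1, ← avg_gen A (cG Γ A) (fun a _ => cG_sub a) (fun a ha => cG_self ha)
      (fun a _ x hx => hcongr a x hx), Finset.mul_sum]
    have h2 : ∀ a ∈ A, (1 : ℝ) ≤ M ^ r * ((1 / ((cG Γ A a).card : ℝ)) *
        ∑ x ∈ cG Γ A a, if x ∈ Ff (cG Γ A x) then (1 : ℝ) else 0) := by
      intro a ha
      obtain ⟨_, e1, _, e2, _⟩ := hFa a ha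
      have hc0 : (0 : ℝ) < (cG Γ A a).card := by
        exact_mod_cast Finset.card_pos.2 ⟨a, cG_self ha⟩
      have h3 : ∑ x ∈ cG Γ A a, (if x ∈ Ff (cG Γ A x) then (1 : ℝ) else 0) =
          (Ff (cG Γ A a)).card := by
        have h4 : ∀ x ∈ cG Γ A a, (if x ∈ Ff (cG Γ A x) then (1 : ℝ) else 0) =
            if x ∈ Ff (cG Γ A a) then (1 : ℝ) else 0 := by
          intro x hx
          rw [hcongr a x hx]
        rw [Finset.sum_congr rfl h4, ← Finset.sum_filter, Finset.sum_const, nsmul_eq_mul, mul_one]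
        congr 2
        ext x
        rw [Finset.mem_filter]
        exact ⟨fun h => h.2, fun h => ⟨e1 h, h⟩⟩
      rw [h3, mul_comm (1 / ((cG Γ A a).card : ℝ)), mul_one_div, ← mul_div_assoc,
        le_div_iff₀ hc0, one_mul]
      exact e2
    calc (A.card : ℝ) = ∑ a ∈ A, (1 : ℝ) := by simp
      _ ≤ _ := Finset.sum_le_sum h2
  -- the popular prime
  obtain ⟨p, hpT, hp⟩ : ∃ p ∈ T, (A2.card : ℝ) ≤
      r * (A2.filter fun a => pf (cG Γ A a) = p).card := by
    by_contra hcon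
    push Not at hcon
    have h1 : ∑ p ∈ T, (r : ℝ) * (A2.filter fun a => pf (cG Γ A a) = p).card <
        ∑ p ∈ T, (A2.card : ℝ) := Finset.sum_lt_sum_of_nonempty hTn hcon
    rw [← Finset.mul_sum, Finset.sum_const, nsmul_eq_mul, ← hr] at h1
    have h2 : ∑ p ∈ T, ((A2.filter fun a => pf (cG Γ A a) = p).card : ℝ) = A2.card := by
      have h3 := Finset.card_eq_sum_card_fiberwise (s := A2) (t := T)
        (f := fun a => pf (cG Γ A a)) (fun a ha =>
          (hFa a (Finset.mem_filter.1 (Finset.mem_coe.1 ha)).1).1)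
      exact_mod_cast h3.symm
    rw [h2] at h1
    exact lt_irrefl _ h1
  have hpF := Fact.mk (hT p hpT)
  set A' := A2.filter fun a => pf (cG Γ A a) = p with hA'
  have hA'A : A' ⊆ A := (Finset.filter_subset _ _).trans (Finset.filter_subset _ _)
  have hA'mem : ∀ x, x ∈ A' ↔ x ∈ A ∧ x ∈ Ff (cG Γ A x) ∧ pf (cG Γ A x) = p := by
    intro x
    rw [hA', Finset.mem_filter, hA2, Finset.mem_filter]
    tauto
  have hcard : (A.card : ℝ) ≤ (r * M + 1) ^ r * A'.card := by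
    have h1 : (A.card : ℝ) ≤ M ^ r * (r * A'.card) :=
      hcount.trans (mul_le_mul_of_nonneg_left hp (by positivity))
    have h2 : (r : ℝ) ≤ (r : ℝ) ^ r := by
      have : r ≤ r ^ r := Nat.le_self_pow (by omega) r
      exact_mod_cast this
    have h3 : M ^ r * r ≤ (r * M + 1) ^ r := by
      calc M ^ r * (r : ℝ) ≤ M ^ r * (r : ℝ) ^ r := mul_le_mul_of_nonneg_left h2 (by positivity)
        _ = (r * M) ^ r := by rw [mul_comm, mul_pow]
        _ ≤ (r * M + 1) ^ r := pow_le_pow_left₀ (by positivity) (by linarith) r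
    calc (A.card : ℝ) ≤ M ^ r * (r * A'.card) := h1
      _ = M ^ r * r * A'.card := by ring
      _ ≤ (r * M + 1) ^ r * A'.card := mul_le_mul_of_nonneg_right h3 (Nat.cast_nonneg _)
  have hA'c : (0 : ℝ) < A'.card := by
    by_contra hcon
    have : (A'.card : ℝ) = 0 := le_antisymm (not_lt.1 hcon) (Nat.cast_nonneg _)
    rw [this, mul_zero] at hcard
    linarith
  have hA'n : A'.Nonempty := Finset.card_pos.1 (by exact_mod_cast hA'c)
  -- the multipliers
  obtain ⟨g, hg1, hg2, hg3⟩ := exists_mult T hT Γ hΓ hpT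
  set K := Real.exp (6 / ε) with hK
  have hK1 : 1 < K := by
    rw [hK, Real.one_lt_exp_iff]
    positivity
  have hK0 : 0 < K := by linarith
  have hlogK : 3 / Real.log K = ε / 2 := by
    rw [hK, Real.log_exp]
    field_simp
    norm_num
  have hrM : 0 < (r : ℝ) * M := by positivity
  have hz := rzero T hT hpT g A' B (fun h => h0 (hA'A h)) hA'n hB (fun x _ => hg1 x)
    (fun x _ y _ h => hg2 x y h) hM0 hrM (fun a => Ff (cG Γ A a))
    (fun a ha x hx => by
      have haA := hA'A ha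
      have hx1 : x ∈ cG Γ A a := (hFa a haA).2.1 hx
      rw [hA'mem, hcongr a x hx1]
      exact ⟨cG_sub a hx1, hx, ((hA'mem a).1 ha).2.2⟩)
    (fun a ha => ((hA'mem a).1 ha).2.1)
    (fun a ha x hx => by
      have hx1 : x ∈ cG Γ A a := (hFa a (hA'A ha)).2.1 hx
      rw [hcongr a x hx1])
    (fun a ha x hx => by
      have hx1 : x ∈ cG Γ A a := (hFa a (hA'A ha)).2.1 hx
      exact hg3 x a (hne x (cG_sub a hx1)) (hne a (hA'A ha)) (mem_cG.1 hx1).2)
    (fun a ha n => by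
      have h1 := (hFa a (hA'A ha)).2.2.2.2 n
      rw [((hA'mem a).1 ha).2.2] at h1
      exact h1) hK1
  rw [hlogK] at hz
  unfold Del at hz
  -- the final computation
  have hlA0 : 0 ≤ Real.log A.card := Real.log_natCast_nonneg _
  have hlA'0 : 0 ≤ Real.log A'.card := Real.log_natCast_nonneg _
  have hlB0 : 0 ≤ Real.log B.card := Real.log_natCast_nonneg _
  have hlA' : Real.log A'.card ≤ Real.log A.card :=
    Real.log_le_log hA'c (by exact_mod_cast Finset.card_le_card hA'A)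
  have hAB : (A' + B).Nonempty := hA'n.add hB
  have hsum : Real.log (A' + B).card ≤ Real.log (A + B).card := by
    refine Real.log_le_log (by exact_mod_cast hAB.card_pos) ?_
    exact_mod_cast Finset.card_le_card (Finset.add_subset_add hA'A (Finset.Subset.refl B))
  have hcost : (r : ℝ) * (K / (r * M) * ((1 + Real.log A'.card) * Real.log B.card)) +
      K * (Real.log A'.card / M * Real.log B.card) ≤ ε / 2 * Real.log B.card := by
    have h1 : (r : ℝ) * (K / (r * M) * ((1 + Real.log A'.card) * Real.log B.card)) +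
      K * (Real.log A'.card / M * Real.log B.card) =
      (K / M * (1 + 2 * Real.log A'.card)) * Real.log B.card := by
      field_simp
      ring
    rw [h1]
    refine mul_le_mul_of_nonneg_right ?_ hlB0
    have h2 : M = 4 / ε * K * (Real.log 2 + Real.log A.card) := by
      rw [hM, hK]
      unfold Mc
      rw [Real.log_mul (by norm_num) hAc.ne']
    have hl2 : (1 : ℝ) / 2 ≤ Real.log 2 := by
      have := Real.log_two_gt_d9
      linarith
    rw [div_mul_eq_mul_div, div_le_iff₀ hM0]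
    have h3 : ε / 2 * M = K * (2 * Real.log 2 + 2 * Real.log A.card) := by
      rw [h2]
      field_simp
      ring
    rw [h3]
    refine mul_le_mul_of_nonneg_left ?_ hK0.le
    linarith
  set Λ := Real.log (r * M + 1) with hΛ
  have hΛ0 : 0 ≤ Λ := Real.log_nonneg (by linarith)
  have hlog1 : Real.log A.card ≤ r * Λ + Real.log A'.card := by
    have h1 := Real.log_le_log hAc hcard
    rw [Real.log_mul (by positivity) hA'c.ne', Real.log_pow] at h1
    exact h1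
  have hs : (0 : ℝ) < (A + B).card := by exact_mod_cast (hA.add hB).card_pos
  have hfin : (1 - ε) * (Real.log A.card + Real.log B.card) ≤
      2 * r * Λ + Real.log (A + B).card := by
    have h1 : (1 - ε) * Real.log A.card ≤ r * Λ + (1 - ε / 2) * Real.log A'.card := by
      have h2 := mul_le_mul_of_nonneg_left hlog1 (by linarith : (0 : ℝ) ≤ 1 - ε)
      have h3 : 0 ≤ ε * (r * Λ) := by positivity
      have h4 : 0 ≤ ε / 2 * Real.log A'.card := by positivity
      nlinarith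
    rw [mul_add] at hz
    nlinarith
  have hb : (0 : ℝ) < r * M + 1 := by linarith
  rw [Real.rpow_def_of_pos (mul_pos hAc hBc), Real.log_mul hAc.ne' hBc.ne']
  have h1 : (r * M + 1) ^ (2 * r) * ((A + B).card : ℝ) =
      Real.exp (2 * r * Λ + Real.log (A + B).card) := by
    rw [Real.exp_add, Real.exp_log hs]
    congr 1
    rw [hΛ, show (2 : ℝ) * r = ((2 * r : ℕ) : ℝ) by push_cast; ring, ← Real.log_pow,
      Real.exp_log (pow_pos hb _)]
  rw [h1, Real.exp_le_exp]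
  linarith

end Pool.Agent.W219.SP
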