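import Pool.Agent.W219.SP.Final

/-!
The bound for a set whose fibres have spread valuations at one prime.
-/

set_option autoImplicit false

namespace Pool.Agent.W219.SP

open Finset
open scoped Pointwise

theorem del_le_star (p : ℤ) (U V : Finset ℤ) (hU : U.Nonempty) (hV : V.Nonempty) {K : ℝ}
    (hK : 1 < K) (J : ℕ) (hJU : ∀ x ∈ U, ∀ y ∈ U, p ^ J ∣ x - y → x = y)
    (hJV : ∀ x ∈ V, ∀ y ∈ V, p ^ J ∣ x - y → x = y) :
    Del (3 / Real.log K) U V ≤ ∑ j ∈ Finset.range J,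
      K * (((1 / (U.card : ℝ)) * drop (p ^ j) (p ^ (j + 1)) U) *
        ((1 / (V.card : ℝ)) * drop (p ^ j) (p ^ (j + 1)) V)) := by
  have hU0 : (0 : ℝ) < U.card := by exact_mod_cast hU.card_pos
  have hV0 : (0 : ℝ) < V.card := by exact_mod_cast hV.card_pos
  have h := star p U V hU hV hK J hJU hJV
  have h1 : ∑ j ∈ Finset.range J,
      K * (((1 / (U.card : ℝ)) * drop (p ^ j) (p ^ (j + 1)) U) *
        ((1 / (V.card : ℝ)) * drop (p ^ j) (p ^ (j + 1)) V)) =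
      K * ((∑ j ∈ Finset.range J, drop (p ^ j) (p ^ (j + 1)) U * drop (p ^ j) (p ^ (j + 1)) V) /
        (U.card * V.card)) := by
    rw [← Finset.mul_sum, Finset.sum_div]
    congr 1
    refine Finset.sum_congr rfl fun j _ => ?_
    field_simp
  rw [h1]
  unfold Del
  linarith

theorem rzero {p : ℕ} [hp : Fact p.Prime] (T : Finset ℕ) (hT : ∀ q ∈ T, q.Prime) (hpT : p ∈ T)
    (g : ℤ → ℚ) (A B : Finset ℤ) (h0 : (0 : ℤ) ∉ A) (hA : A.Nonempty) (hB : B.Nonempty)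
    (hg : ∀ x ∈ A, padicNorm p (g x) = (p : ℚ) ^ (-(padicValInt p x : ℤ)))
    (hgT : ∀ x ∈ A, ∀ y ∈ A, (∀ q ∈ T, padicValInt q x = padicValInt q y) → g x = g y)
    {M M₁ : ℝ} (hM : 0 < M) (hM₁ : 0 < M₁)
    (D : ℤ → Finset ℤ) (dsub : ∀ a ∈ A, D a ⊆ A)
    (dself : ∀ a ∈ A, a ∈ D a) (dcong : ∀ a ∈ A, ∀ x ∈ D a, D x = D a)
    (dlab : ∀ a ∈ A, ∀ x ∈ D a, lbl g x = lbl g a)
    (hfib : ∀ a ∈ A, ∀ n : ℕ, M * (Es p (D a) n).card ≤ ((D a).card : ℝ))
    {K : ℝ} (hK : 1 < K) :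
    Del (3 / Real.log K) A B ≤ T.card * (Real.log (M₁ + 1) +
      K / M₁ * ((1 + Real.log A.card) * Real.log B.card)) +
      K * (Real.log A.card / M * Real.log B.card) := by
  have hp2 : (2 : ℤ) ≤ p := by exact_mod_cast hp.out.two_le
  have hA0 : (0 : ℝ) < A.card := by exact_mod_cast hA.card_pos
  have hB0 : (0 : ℝ) < B.card := by exact_mod_cast hB.card_pos
  have hK0 : 0 < K := by linarith
  obtain ⟨s, hs1, hs2⟩ := exists_state h0 T hT hM₁ hK B
  obtain ⟨J, hJ⟩ := exists_sep hp2 (A ∪ B)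
  have hJA : ∀ x ∈ A, ∀ y ∈ A, (p : ℤ) ^ J ∣ x - y → x = y :=
    fun x hx y hy => hJ x (Finset.mem_union_left _ hx) y (Finset.mem_union_left _ hy)
  have hJB : ∀ x ∈ B, ∀ y ∈ B, (p : ℤ) ^ J ∣ x - y → x = y :=
    fun x hx y hy => hJ x (Finset.mem_union_right _ hx) y (Finset.mem_union_right _ hy)
  have hlA : 0 ≤ Real.log A.card := Real.log_natCast_nonneg _
  -- the two averages
  have hdB : ∀ (q : ℤ) (j : ℕ), ∑ b ∈ B, (1 / ((cls q B b).card : ℝ)) *
      drop ((p : ℤ) ^ j) ((p : ℤ) ^ (j + 1)) (cls q B b) ≤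
      drop ((p : ℤ) ^ j) ((p : ℤ) ^ (j + 1)) B := by
    intro q j
    have h1 : drop ((p : ℤ) ^ j) ((p : ℤ) ^ (j + 1)) B = ∑ b ∈ B,
        (1 / ((cls q B b).card : ℝ)) * ∑ y ∈ cls q B b,
        Real.log ((cls ((p : ℤ) ^ j) B y).card / (cls ((p : ℤ) ^ (j + 1)) B y).card) :=
      (avg_cls q B _).symm
    rw [h1]
    refine Finset.sum_le_sum fun b hb => ?_
    have h2 := cls_posR (q := q) hb
    exact mul_le_mul_of_nonneg_left (gibbs_sub (pow_dvd_pow _ (Nat.le_succ j))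
      (cls_sub q B b)) (one_div_pos.2 h2).le
  have hdA : ∀ j : ℕ, ∑ a ∈ A, (1 / ((s.C a).card : ℝ)) *
      drop ((p : ℤ) ^ j) ((p : ℤ) ^ (j + 1)) (s.C a) ≤ A.card * (Real.log A.card / M) := by
    intro j
    refine le_trans ?_ (sum_rf hM D dsub dself dcong dlab hfib j)
    rw [← avg_gen A s.C s.sub s.self s.cong (rf p g A j)]
    refine Finset.sum_le_sum fun a ha => ?_
    have h2 : (0 : ℝ) < (s.C a).card := by
      exact_mod_cast Finset.card_pos.2 ⟨a, s.self a ha⟩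
    refine mul_le_mul_of_nonneg_left (drop_cell h0 hg (s.sub a ha) ?_ ?_ j)
      (one_div_pos.2 h2).le
    · intro x hx y hy
      rw [hs1 p hpT a ha x hx, hs1 p hpT a ha y hy]
    · intro x hx y hy
      refine hgT x (s.sub a ha hx) y (s.sub a ha hy) fun q hq => ?_
      rw [hs1 q hq a ha x hx, hs1 q hq a ha y hy]
  have hS : s.S (3 / Real.log K) B ≤ A.card * B.card *
      (K * (Real.log A.card / M * Real.log B.card)) := by
    unfold St.S
    have h1 : ∀ a ∈ A, ∀ b ∈ B, Del (3 / Real.log K) (s.C a) (cls (s.m a) B b) ≤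
        ∑ j ∈ Finset.range J, K * (((1 / ((s.C a).card : ℝ)) *
          drop ((p : ℤ) ^ j) ((p : ℤ) ^ (j + 1)) (s.C a)) *
          ((1 / ((cls (s.m a) B b).card : ℝ)) *
          drop ((p : ℤ) ^ j) ((p : ℤ) ^ (j + 1)) (cls (s.m a) B b))) := by
      intro a ha b hb
      exact del_le_star (p : ℤ) _ _ ⟨a, s.self a ha⟩ ⟨b, self_mem_cls hb⟩ hK J
        (fun x hx y hy => hJA x (s.sub a ha hx) y (s.sub a ha hy))
        (fun x hx y hy => hJB x (cls_sub _ _ _ hx) y (cls_sub _ _ _ hy))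
    refine (Finset.sum_le_sum fun a ha => Finset.sum_le_sum fun b hb => h1 a ha b hb).trans ?_
    have h2 : ∑ a ∈ A, ∑ b ∈ B, ∑ j ∈ Finset.range J, K * (((1 / ((s.C a).card : ℝ)) *
          drop ((p : ℤ) ^ j) ((p : ℤ) ^ (j + 1)) (s.C a)) *
          ((1 / ((cls (s.m a) B b).card : ℝ)) *
          drop ((p : ℤ) ^ j) ((p : ℤ) ^ (j + 1)) (cls (s.m a) B b))) =
        ∑ j ∈ Finset.range J, K * ∑ a ∈ A, ((1 / ((s.C a).card : ℝ)) *
          drop ((p : ℤ) ^ j) ((p : ℤ) ^ (j + 1)) (s.C a)) *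
          ∑ b ∈ B, (1 / ((cls (s.m a) B b).card : ℝ)) *
          drop ((p : ℤ) ^ j) ((p : ℤ) ^ (j + 1)) (cls (s.m a) B b) := by
      rw [Finset.sum_congr rfl fun a _ => Finset.sum_comm, Finset.sum_comm]
      refine Finset.sum_congr rfl fun j _ => ?_
      rw [Finset.mul_sum]
      refine Finset.sum_congr rfl fun a _ => ?_
      rw [Finset.mul_sum, Finset.mul_sum]
    rw [h2]
    have h3 : ∀ j ∈ Finset.range J, K * ∑ a ∈ A, ((1 / ((s.C a).card : ℝ)) *
          drop ((p : ℤ) ^ j) ((p : ℤ) ^ (j + 1)) (s.C a)) *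
          ∑ b ∈ B, (1 / ((cls (s.m a) B b).card : ℝ)) *
          drop ((p : ℤ) ^ j) ((p : ℤ) ^ (j + 1)) (cls (s.m a) B b) ≤
        K * ((A.card * (Real.log A.card / M)) *
          drop ((p : ℤ) ^ j) ((p : ℤ) ^ (j + 1)) B) := by
      intro j _
      refine mul_le_mul_of_nonneg_left ?_ hK0.le
      have hd0 := drop_nonneg (pow_dvd_pow (p : ℤ) (Nat.le_succ j)) B
      refine le_trans ?_ (mul_le_mul_of_nonneg_right (hdA j) hd0)
      rw [Finset.sum_mul]
      refine Finset.sum_le_sum fun a ha => ?_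
      have h4 : 0 ≤ (1 / ((s.C a).card : ℝ)) *
          drop ((p : ℤ) ^ j) ((p : ℤ) ^ (j + 1)) (s.C a) :=
        mul_nonneg (by positivity) (drop_nonneg (pow_dvd_pow (p : ℤ) (Nat.le_succ j)) _)
      exact mul_le_mul_of_nonneg_left (hdB (s.m a) j) h4
    refine (Finset.sum_le_sum h3).trans (le_of_eq ?_)
    rw [← Finset.mul_sum, ← Finset.mul_sum, sum_drop _ B J hJB]
    ring
  have h1 : (A.card : ℝ) * B.card * Del (3 / Real.log K) A B ≤ A.card * B.card *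
      (T.card * (Real.log (M₁ + 1) +
      K / M₁ * ((1 + Real.log A.card) * Real.log B.card)) +
      K * (Real.log A.card / M * Real.log B.card)) := by
    exact hs2.trans ((add_le_add hS le_rfl).trans (le_of_eq (by ring)))
  exact le_of_mul_le_mul_left h1 (mul_pos hA0 hB0)

end Pool.Agent.W219.SP
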