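import Pool.Agent.W219.SP.Delta

/-!
Revealing a `p`-adic valuation along the spine.
-/

set_option autoImplicit false

namespace Pool.Agent.W219.SP

open Finset
open scoped Pointwise

theorem val_of_cls {p : ℕ} [hp : Fact p.Prime] {x a : ℤ} (hx : x ≠ 0) (ha : a ≠ 0) {j : ℕ}
    (hj : padicValInt p a < j) (h : (p : ℤ) ^ j ∣ x - a) :
    padicValInt p x = padicValInt p a := by
  have h1 : (p : ℤ) ^ (padicValInt p a) ∣ a := (dvd_iff_val ha _).2 le_rfl
  have h2 : ¬ (p : ℤ) ^ (padicValInt p a + 1) ∣ a := fun h3 => by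
    have := (dvd_iff_val ha _).1 h3
    omega
  have h3 : (p : ℤ) ^ (padicValInt p a) ∣ x := by
    have := dvd_add ((pow_dvd_pow (p : ℤ) hj.le).trans h) h1
    rwa [sub_add_cancel] at this
  have h4 : ¬ (p : ℤ) ^ (padicValInt p a + 1) ∣ x := by
    intro h5
    apply h2
    have := dvd_sub h5 ((pow_dvd_pow (p : ℤ) (show padicValInt p a + 1 ≤ j by omega)).trans h)
    rwa [sub_sub_cancel] at this
  have h5 := (dvd_iff_val hx _).1 h3
  have h6 : ¬ padicValInt p a + 1 ≤ padicValInt p x := fun h7 => h4 ((dvd_iff_val hx _).2 h7)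
  omega

/-- elements of valuation at least `j` -/
def Zs (p : ℕ) (L : Finset ℤ) (j : ℕ) : Finset ℤ := L.filter fun x => j ≤ padicValInt p x

/-- elements of valuation `j` -/
def Es (p : ℕ) (L : Finset ℤ) (j : ℕ) : Finset ℤ := L.filter fun x => padicValInt p x = j

theorem mem_Zs {p : ℕ} {L : Finset ℤ} {j : ℕ} {x : ℤ} :
    x ∈ Zs p L j ↔ x ∈ L ∧ j ≤ padicValInt p x := by simp [Zs]

theorem mem_Es {p : ℕ} {L : Finset ℤ} {j : ℕ} {x : ℤ} :
    x ∈ Es p L j ↔ x ∈ L ∧ padicValInt p x = j := by simp [Es]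

theorem Zs_split (p : ℕ) (L : Finset ℤ) (j : ℕ) : Zs p L j = Es p L j ∪ Zs p L (j + 1) := by
  ext x
  rw [Finset.mem_union, mem_Zs, mem_Es, mem_Zs]
  constructor
  · rintro ⟨h1, h2⟩
    by_cases h3 : padicValInt p x = j
    · exact Or.inl ⟨h1, h3⟩
    · exact Or.inr ⟨h1, by omega⟩
  · rintro (⟨h1, h2⟩ | ⟨h1, h2⟩)
    · exact ⟨h1, by omega⟩
    · exact ⟨h1, by omega⟩

theorem Zs_disj (p : ℕ) (L : Finset ℤ) (j : ℕ) : Disjoint (Es p L j) (Zs p L (j + 1)) := by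
  rw [Finset.disjoint_left]
  intro x hx hx2
  have h1 := (mem_Es.1 hx).2
  have h2 := (mem_Zs.1 hx2).2
  omega

theorem cls_Zs {p : ℕ} [hp : Fact p.Prime] {L : Finset ℤ} (h0 : (0 : ℤ) ∉ L) {j : ℕ} {x : ℤ}
    (hx : x ∈ Zs p L (j + 1)) : cls ((p : ℤ) ^ (j + 1)) (Zs p L j) x = Zs p L (j + 1) := by
  obtain ⟨hxL, hxj⟩ := mem_Zs.1 hx
  have hne : ∀ z ∈ L, z ≠ 0 := fun z hz h => h0 (h ▸ hz)
  have hx2 := (dvd_iff_val (p := p) (hne x hxL) (j + 1)).2 hxj
  ext z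
  rw [mem_cls, mem_Zs, mem_Zs]
  constructor
  · rintro ⟨⟨h1, _⟩, h3⟩
    refine ⟨h1, (dvd_iff_val (hne z h1) _).1 ?_⟩
    have := dvd_add h3 hx2
    rwa [sub_add_cancel] at this
  · rintro ⟨h1, h2⟩
    exact ⟨⟨h1, by omega⟩, dvd_sub ((dvd_iff_val (hne z h1) _).2 h2) hx2⟩

theorem cls_Es {p : ℕ} [hp : Fact p.Prime] {L : Finset ℤ} (h0 : (0 : ℤ) ∉ L) {j : ℕ} {x : ℤ}
    (hx : x ∈ Es p L j) : cls ((p : ℤ) ^ (j + 1)) (Zs p L j) x = cls ((p : ℤ) ^ (j + 1)) L x := by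
  obtain ⟨hxL, hxj⟩ := mem_Es.1 hx
  have hne : ∀ z ∈ L, z ≠ 0 := fun z hz h => h0 (h ▸ hz)
  ext z
  rw [mem_cls, mem_cls, mem_Zs]
  constructor
  · rintro ⟨⟨h1, _⟩, h3⟩
    exact ⟨h1, h3⟩
  · rintro ⟨h1, h3⟩
    refine ⟨⟨h1, ?_⟩, h3⟩
    rw [val_of_cls (hne z h1) (hne x hxL) (by omega) h3, hxj]

/-- the entropy of one step of the spine -/
theorem ent_spine {p : ℕ} [hp : Fact p.Prime] {L : Finset ℤ} (h0 : (0 : ℤ) ∉ L) {N : ℝ}
    (hN : ∀ n, ((Es p L n).card : ℝ) ≤ N) {j : ℕ} (hZ : (Zs p L j).Nonempty) :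
    ((Zs p L j).card : ℝ) * ent ((p : ℤ) ^ (j + 1)) (Zs p L j) ≤ N * (1 + Real.log L.card) := by
  have hZ0 : (0 : ℝ) < (Zs p L j).card := by exact_mod_cast hZ.card_pos
  have hL0 : 0 ≤ Real.log L.card := Real.log_natCast_nonneg _
  have hZL : Real.log (Zs p L j).card ≤ Real.log L.card := by
    refine Real.log_le_log hZ0 ?_
    exact_mod_cast Finset.card_le_card (Finset.filter_subset _ _)
  have hcard : ((Zs p L j).card : ℝ) = (Es p L j).card + (Zs p L (j + 1)).card := by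
    have h1 := congrArg Finset.card (Zs_split p L j)
    rw [Finset.card_union_of_disjoint (Zs_disj p L j)] at h1
    exact_mod_cast h1
  rw [card_mul_ent _ hZ]
  have hsplit : ∑ x ∈ Zs p L j, Real.log (((Zs p L j).card : ℝ) /
      (cls ((p : ℤ) ^ (j + 1)) (Zs p L j) x).card) =
      ∑ x ∈ Es p L j, Real.log (((Zs p L j).card : ℝ) /
        (cls ((p : ℤ) ^ (j + 1)) (Zs p L j) x).card) +
      ∑ x ∈ Zs p L (j + 1), Real.log (((Zs p L j).card : ℝ) /
        (cls ((p : ℤ) ^ (j + 1)) (Zs p L j) x).card) := by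
    rw [← Finset.sum_union (Zs_disj p L j), ← Zs_split]
  rw [hsplit]
  have h1 : ∑ x ∈ Es p L j, Real.log (((Zs p L j).card : ℝ) /
      (cls ((p : ℤ) ^ (j + 1)) (Zs p L j) x).card) ≤ N * Real.log L.card := by
    have h2 : ∀ x ∈ Es p L j, Real.log (((Zs p L j).card : ℝ) /
        (cls ((p : ℤ) ^ (j + 1)) (Zs p L j) x).card) ≤ Real.log L.card := by
      intro x hx
      have hx2 : x ∈ Zs p L j := by
        rw [Zs_split]
        exact Finset.mem_union_left _ hx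
      refine le_trans (Real.log_le_log (div_pos hZ0 (cls_posR hx2)) ?_) hZL
      refine div_le_self hZ0.le ?_
      exact_mod_cast cls_pos hx2
    refine (Finset.sum_le_sum h2).trans ?_
    rw [Finset.sum_const, nsmul_eq_mul]
    exact mul_le_mul_of_nonneg_right (hN j) hL0
  have h2 : ∑ x ∈ Zs p L (j + 1), Real.log (((Zs p L j).card : ℝ) /
      (cls ((p : ℤ) ^ (j + 1)) (Zs p L j) x).card) ≤ N := by
    rw [Finset.sum_congr rfl fun x hx => by rw [cls_Zs h0 hx], Finset.sum_const, nsmul_eq_mul]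
    rcases (Zs p L (j + 1)).eq_empty_or_nonempty with he | hne
    · rw [he]
      simp only [Finset.card_empty, Nat.cast_zero, zero_mul]
      exact le_trans (Nat.cast_nonneg _) (hN 0)
    · have hY0 : (0 : ℝ) < (Zs p L (j + 1)).card := by exact_mod_cast hne.card_pos
      have h3 := Real.log_le_sub_one_of_pos (div_pos hZ0 hY0)
      have h4 := mul_le_mul_of_nonneg_left h3 hY0.le
      rw [mul_sub, mul_one, mul_div_cancel₀ _ hY0.ne'] at h4
      have := hN j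
      linarith
  linarith

theorem spine_step {p : ℕ} [hp : Fact p.Prime] {L : Finset ℤ} (h0 : (0 : ℤ) ∉ L) {N : ℝ}
    (hN : ∀ n, ((Es p L n).card : ℝ) ≤ N) {K : ℝ} (hK : 1 < K) (V : Finset ℤ) (j : ℕ) :
    ∑ b ∈ V, ((Zs p L j).card : ℝ) * Del (3 / Real.log K) (Zs p L j) (cls ((p : ℤ) ^ j) V b) ≤
      (∑ x ∈ Es p L j, ∑ y ∈ V, Del (3 / Real.log K) (cls ((p : ℤ) ^ (j + 1)) L x)
        (cls ((p : ℤ) ^ (j + 1)) V y)) +
      (∑ b ∈ V, ((Zs p L (j + 1)).card : ℝ) *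
        Del (3 / Real.log K) (Zs p L (j + 1)) (cls ((p : ℤ) ^ (j + 1)) V b)) +
      K * (N * (1 + Real.log L.card)) * drop ((p : ℤ) ^ j) ((p : ℤ) ^ (j + 1)) V := by
  have hL0 : 0 ≤ Real.log L.card := Real.log_natCast_nonneg _
  have hN0 : 0 ≤ N := le_trans (Nat.cast_nonneg _) (hN 0)
  have hd : (p : ℤ) ^ j ∣ (p : ℤ) ^ (j + 1) := pow_dvd_pow _ (Nat.le_succ j)
  have hdrop := drop_nonneg hd V
  have hK0 : 0 < K := by linarith
  rcases (Zs p L j).eq_empty_or_nonempty with he | hZ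
  · have he2 : Es p L j = ∅ := by
      have h1 := Zs_split p L j
      rw [he] at h1
      exact (Finset.union_eq_empty.1 h1.symm).1
    have he3 : Zs p L (j + 1) = ∅ := by
      have h1 := Zs_split p L j
      rw [he] at h1
      exact (Finset.union_eq_empty.1 h1.symm).2
    rw [he, he2, he3]
    simp only [Finset.card_empty, Nat.cast_zero, zero_mul, Finset.sum_const_zero,
      Finset.sum_empty, zero_add]
    positivity
  have hZ0 : (0 : ℝ) < (Zs p L j).card := by exact_mod_cast hZ.card_pos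
  have h1 : ∀ b ∈ V, ((Zs p L j).card : ℝ) *
      Del (3 / Real.log K) (Zs p L j) (cls ((p : ℤ) ^ j) V b) ≤
      (1 / ((cls ((p : ℤ) ^ j) V b).card : ℝ)) * (∑ y ∈ cls ((p : ℤ) ^ j) V b,
        ∑ x ∈ Zs p L j, Del (3 / Real.log K) (cls ((p : ℤ) ^ (j + 1)) (Zs p L j) x)
          (cls ((p : ℤ) ^ (j + 1)) V y)) +
      K * (N * (1 + Real.log L.card)) * ent ((p : ℤ) ^ (j + 1)) (cls ((p : ℤ) ^ j) V b) := by
    intro b hb
    have hb0 := cls_posR (q := (p : ℤ) ^ j) hb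
    have h2 := ruleB ((p : ℤ) ^ (j + 1)) (Zs p L j) (cls ((p : ℤ) ^ j) V b) hZ
      ⟨b, self_mem_cls hb⟩ hK
    have h3 : ∑ x ∈ Zs p L j, ∑ y ∈ cls ((p : ℤ) ^ j) V b,
        Del (3 / Real.log K) (cls ((p : ℤ) ^ (j + 1)) (Zs p L j) x)
          (cls ((p : ℤ) ^ (j + 1)) (cls ((p : ℤ) ^ j) V b) y) =
        ∑ y ∈ cls ((p : ℤ) ^ j) V b, ∑ x ∈ Zs p L j,
          Del (3 / Real.log K) (cls ((p : ℤ) ^ (j + 1)) (Zs p L j) x)
          (cls ((p : ℤ) ^ (j + 1)) V y) := by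
      rw [Finset.sum_comm]
      refine Finset.sum_congr rfl fun y hy => Finset.sum_congr rfl fun x _ => ?_
      rw [cls_cls hd hy]
    rw [h3] at h2
    have h4 := mul_le_mul_of_nonneg_left h2 (one_div_pos.2 hb0).le
    have h5 : (1 / ((cls ((p : ℤ) ^ j) V b).card : ℝ)) * (((Zs p L j).card : ℝ) *
        (cls ((p : ℤ) ^ j) V b).card *
        Del (3 / Real.log K) (Zs p L j) (cls ((p : ℤ) ^ j) V b)) =
        ((Zs p L j).card : ℝ) * Del (3 / Real.log K) (Zs p L j) (cls ((p : ℤ) ^ j) V b) := by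
      field_simp
    rw [h5, mul_add] at h4
    refine h4.trans (add_le_add le_rfl ?_)
    have h6 := ent_spine h0 hN hZ
    have h7 := ent_nonneg ((p : ℤ) ^ (j + 1)) (cls ((p : ℤ) ^ j) V b)
    calc (1 / ((cls ((p : ℤ) ^ j) V b).card : ℝ)) * (K * (((Zs p L j).card : ℝ) *
          ent ((p : ℤ) ^ (j + 1)) (Zs p L j) * ((cls ((p : ℤ) ^ j) V b).card *
          ent ((p : ℤ) ^ (j + 1)) (cls ((p : ℤ) ^ j) V b)))) =
          K * (((Zs p L j).card : ℝ) * ent ((p : ℤ) ^ (j + 1)) (Zs p L j)) *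
          ent ((p : ℤ) ^ (j + 1)) (cls ((p : ℤ) ^ j) V b) := by field_simp
      _ ≤ K * (N * (1 + Real.log L.card)) *
          ent ((p : ℤ) ^ (j + 1)) (cls ((p : ℤ) ^ j) V b) := by
          refine mul_le_mul_of_nonneg_right (mul_le_mul_of_nonneg_left h6 hK0.le) h7
  refine (Finset.sum_le_sum h1).trans ?_
  rw [Finset.sum_add_distrib, ← Finset.mul_sum, sum_ent hd, avg_cls]
  refine add_le_add (le_of_eq ?_) le_rfl
  have h8 : ∀ y ∈ V, ∑ x ∈ Zs p L j, Del (3 / Real.log K)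
      (cls ((p : ℤ) ^ (j + 1)) (Zs p L j) x) (cls ((p : ℤ) ^ (j + 1)) V y) =
      ∑ x ∈ Es p L j, Del (3 / Real.log K) (cls ((p : ℤ) ^ (j + 1)) L x)
        (cls ((p : ℤ) ^ (j + 1)) V y) +
      ((Zs p L (j + 1)).card : ℝ) * Del (3 / Real.log K) (Zs p L (j + 1))
        (cls ((p : ℤ) ^ (j + 1)) V y) := by
    intro y _
    have e1 : ∑ x ∈ Zs p L j, Del (3 / Real.log K)
        (cls ((p : ℤ) ^ (j + 1)) (Zs p L j) x) (cls ((p : ℤ) ^ (j + 1)) V y) =
        ∑ x ∈ Es p L j, Del (3 / Real.log K)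
        (cls ((p : ℤ) ^ (j + 1)) (Zs p L j) x) (cls ((p : ℤ) ^ (j + 1)) V y) +
        ∑ x ∈ Zs p L (j + 1), Del (3 / Real.log K)
        (cls ((p : ℤ) ^ (j + 1)) (Zs p L j) x) (cls ((p : ℤ) ^ (j + 1)) V y) := by
      rw [← Finset.sum_union (Zs_disj p L j), ← Zs_split]
    rw [e1, Finset.sum_congr rfl fun x (hx : x ∈ Es p L j) => by rw [cls_Es h0 hx],
      Finset.sum_congr rfl fun x (hx : x ∈ Zs p L (j + 1)) => by rw [cls_Zs h0 hx],
      Finset.sum_const, nsmul_eq_mul]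
  rw [Finset.sum_congr rfl h8, Finset.sum_add_distrib, Finset.sum_comm]

theorem spine {p : ℕ} [hp : Fact p.Prime] {L : Finset ℤ} (h0 : (0 : ℤ) ∉ L) {N : ℝ}
    (hN : ∀ n, ((Es p L n).card : ℝ) ≤ N) {K : ℝ} (hK : 1 < K) (V : Finset ℤ) :
    (L.card : ℝ) * V.card * Del (3 / Real.log K) L V ≤
      (∑ x ∈ L, ∑ y ∈ V, Del (3 / Real.log K) (cls ((p : ℤ) ^ (padicValInt p x + 1)) L x)
        (cls ((p : ℤ) ^ (padicValInt p x + 1)) V y)) +
      K * (N * (1 + Real.log L.card)) * (V.card * Real.log V.card) := by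
  have hp2 : (2 : ℤ) ≤ p := by exact_mod_cast hp.out.two_le
  obtain ⟨J, hJ⟩ := exists_sep hp2 (insert 0 (L ∪ V))
  have hJV : ∀ x ∈ V, ∀ y ∈ V, (p : ℤ) ^ J ∣ x - y → x = y := fun x hx y hy =>
    hJ x (Finset.mem_insert_of_mem (Finset.mem_union_right _ hx)) y
      (Finset.mem_insert_of_mem (Finset.mem_union_right _ hy))
  have hJL : ∀ x ∈ L, padicValInt p x < J := by
    intro x hx
    have hx0 : x ≠ 0 := fun h => h0 (h ▸ hx)
    by_contra hcon
    have h1 := (dvd_iff_val (p := p) hx0 J).2 (not_lt.1 hcon)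
    refine hx0 (hJ x (Finset.mem_insert_of_mem (Finset.mem_union_left _ hx)) 0
      (Finset.mem_insert_self _ _) ?_)
    rwa [sub_zero]
  have hind : ∀ n : ℕ,
      ∑ b ∈ V, ((Zs p L 0).card : ℝ) * Del (3 / Real.log K) (Zs p L 0) (cls ((p : ℤ) ^ 0) V b) ≤
      (∑ j ∈ Finset.range n, ∑ x ∈ Es p L j, ∑ y ∈ V, Del (3 / Real.log K)
        (cls ((p : ℤ) ^ (j + 1)) L x) (cls ((p : ℤ) ^ (j + 1)) V y)) +
      (∑ b ∈ V, ((Zs p L n).card : ℝ) *
        Del (3 / Real.log K) (Zs p L n) (cls ((p : ℤ) ^ n) V b)) +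
      K * (N * (1 + Real.log L.card)) * ∑ j ∈ Finset.range n,
        drop ((p : ℤ) ^ j) ((p : ℤ) ^ (j + 1)) V := by
    intro n
    induction n with
    | zero => simp
    | succ n ih =>
      have h1 := spine_step h0 hN hK V n
      rw [Finset.sum_range_succ, Finset.sum_range_succ, mul_add]
      linarith
  have h := hind J
  rw [sum_drop _ V J hJV] at h
  have hZ0 : Zs p L 0 = L := by
    ext x
    rw [mem_Zs]
    exact ⟨fun h => h.1, fun h => ⟨h, Nat.zero_le _⟩⟩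
  have hZJ : Zs p L J = ∅ := by
    rw [Finset.eq_empty_iff_forall_notMem]
    intro x hx
    obtain ⟨h1, h2⟩ := mem_Zs.1 hx
    have := hJL x h1
    omega
  have hcl : ∀ b : ℤ, cls ((p : ℤ) ^ 0) V b = V := by
    intro b
    ext z
    simp [mem_cls]
  rw [hZ0, hZJ] at h
  simp only [hcl, Finset.card_empty, Nat.cast_zero, zero_mul, Finset.sum_const_zero,
    add_zero, Finset.sum_const, nsmul_eq_mul] at h
  refine le_trans (le_of_eq (by ring)) (h.trans (add_le_add (le_of_eq ?_) le_rfl))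
  rw [← Finset.sum_fiberwise_of_maps_to (s := L) (t := Finset.range J)
    (g := fun x => padicValInt p x) (fun x hx => Finset.mem_range.2 (hJL x hx))]
  refine Finset.sum_congr rfl fun j _ => Finset.sum_congr rfl fun x hx => ?_
  rw [(mem_Es.1 hx).2]

end Pool.Agent.W219.SP
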