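import Pool.Agent.W219.SP.Spine

/-!
One stage: all elements of a cell get the same `p`-adic valuation.
-/

set_option autoImplicit false

namespace Pool.Agent.W219.SP

open Finset
open scoped Pointwise

/-- frequent valuations -/
def Hv (p : ℕ) (M : ℝ) (U : Finset ℤ) (n : ℕ) : Prop := (U.card : ℝ) ≤ M * (Es p U n).card

open Classical in
/-- elements with an infrequent valuation -/
noncomputable def Lt (p : ℕ) (M : ℝ) (U : Finset ℤ) : Finset ℤ :=
  U.filter fun x => ¬ Hv p M U (padicValInt p x)

open Classical in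
/-- the new cells -/
noncomputable def uc (p : ℕ) (M : ℝ) (U : Finset ℤ) (a : ℤ) : Finset ℤ :=
  if Hv p M U (padicValInt p a) then Es p U (padicValInt p a)
  else cls ((p : ℤ) ^ (padicValInt p a + 1)) (Lt p M U) a

open Classical in
/-- the new moduli -/
noncomputable def mo (p : ℕ) (M : ℝ) (U : Finset ℤ) (a : ℤ) : ℤ :=
  if Hv p M U (padicValInt p a) then 1 else (p : ℤ) ^ (padicValInt p a + 1)

theorem mem_Lt {p : ℕ} {M : ℝ} {U : Finset ℤ} {x : ℤ} :
    x ∈ Lt p M U ↔ x ∈ U ∧ ¬ Hv p M U (padicValInt p x) := by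
  classical
  simp [Lt]

section

variable {p : ℕ} [hp : Fact p.Prime] {M : ℝ} {U : Finset ℤ}

omit hp in
theorem uc_sub (a : ℤ) : uc p M U a ⊆ U := by
  unfold uc
  split_ifs with h
  · exact Finset.filter_subset _ _
  · exact (cls_sub _ _ _).trans fun x hx => (mem_Lt.1 hx).1

omit hp in
theorem uc_self {a : ℤ} (ha : a ∈ U) : a ∈ uc p M U a := by
  unfold uc
  split_ifs with h
  · exact mem_Es.2 ⟨ha, rfl⟩
  · exact self_mem_cls (mem_Lt.2 ⟨ha, h⟩)

theorem uc_val (h0 : (0 : ℤ) ∉ U) {a x : ℤ} (ha : a ∈ U) (hx : x ∈ uc p M U a) :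
    padicValInt p x = padicValInt p a := by
  have hne : ∀ z ∈ U, z ≠ 0 := fun z hz h => h0 (h ▸ hz)
  unfold uc at hx
  split_ifs at hx with h
  · exact (mem_Es.1 hx).2
  · obtain ⟨h1, h2⟩ := mem_cls.1 hx
    exact val_of_cls (hne x (mem_Lt.1 h1).1) (hne a ha) (Nat.lt_succ_self _) h2

theorem uc_congr (h0 : (0 : ℤ) ∉ U) {a x : ℤ} (ha : a ∈ U) (hx : x ∈ uc p M U a) :
    uc p M U x = uc p M U a := by
  have hv := uc_val h0 ha hx
  unfold uc at hx ⊢
  rw [hv]
  split_ifs at hx ⊢ with h
  · rfl
  · exact cls_congr (mem_cls.1 hx).2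

theorem mo_congr (h0 : (0 : ℤ) ∉ U) {a x : ℤ} (ha : a ∈ U) (hx : x ∈ uc p M U a) :
    mo p M U x = mo p M U a := by
  have hv := uc_val h0 ha hx
  unfold mo
  rw [hv]

theorem stage (hM : 0 < M) {K : ℝ} (hK : 1 < K) (h0 : (0 : ℤ) ∉ U) (hU : U.Nonempty)
    (V : Finset ℤ) (hV : V.Nonempty) :
    (U.card : ℝ) * V.card * Del (3 / Real.log K) U V ≤
      (∑ a ∈ U, ∑ b ∈ V, Del (3 / Real.log K) (uc p M U a) (cls (mo p M U a) V b)) +
      U.card * V.card * (Real.log (M + 1) +
        K / M * ((1 + Real.log U.card) * Real.log V.card)) := by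
  classical
  have hU0 : (0 : ℝ) < U.card := by exact_mod_cast hU.card_pos
  have hV0 : (0 : ℝ) < V.card := by exact_mod_cast hV.card_pos
  have hc0 : 0 ≤ 3 / Real.log K := div_nonneg (by norm_num) (Real.log_pos hK).le
  set c := 3 / Real.log K with hc
  set L := Lt p M U with hL
  have hLU : L ⊆ U := Finset.filter_subset _ _
  let C : ℤ → Finset ℤ := fun a => if Hv p M U (padicValInt p a) then
    Es p U (padicValInt p a) else L
  have hCU : ∀ a, C a ⊆ U := by
    intro a
    simp only [C]
    split_ifs with h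
    · exact Finset.filter_subset _ _
    · exact hLU
  have hCa : ∀ a ∈ U, a ∈ C a := by
    intro a ha
    simp only [C]
    split_ifs with h
    · exact mem_Es.2 ⟨ha, rfl⟩
    · exact mem_Lt.2 ⟨ha, h⟩
  have hCpos : ∀ a ∈ U, (0 : ℝ) < (C a).card := fun a ha => by
    exact_mod_cast Finset.card_pos.2 ⟨a, hCa a ha⟩
  -- rule A
  have h1 : (U.card : ℝ) * Del c U V ≤ ∑ a ∈ U, Del c (C a) V +
      ∑ a ∈ U, Real.log ((U.card : ℝ) / (C a).card) := by
    rw [← Finset.sum_add_distrib]
    calc (U.card : ℝ) * Del c U V = ∑ a ∈ U, Del c U V := by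
          rw [Finset.sum_const, nsmul_eq_mul]
      _ ≤ _ := Finset.sum_le_sum fun a ha => ruleA hc0 ⟨a, hCa a ha⟩ hV (hCU a)
  have h2 : ∑ a ∈ U, Real.log ((U.card : ℝ) / (C a).card) ≤ U.card * Real.log (M + 1) := by
    refine jensen U _ (fun a ha => div_pos hU0 (hCpos a ha)) _ (by linarith) ?_
    have h3 : ∑ a ∈ U, (1 : ℝ) / (C a).card ≤ M + 1 := by
      rw [← Finset.sum_filter_add_sum_filter_not U (fun a => Hv p M U (padicValInt p a))]
      refine add_le_add ?_ ?_
      · have h4 : ∀ a ∈ U.filter (fun a => Hv p M U (padicValInt p a)),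
            (1 : ℝ) / (C a).card ≤ M / U.card := by
          intro a ha
          obtain ⟨ha1, ha2⟩ := Finset.mem_filter.1 ha
          rw [div_le_div_iff₀ (hCpos a ha1) hU0, one_mul]
          simp only [C]
          rw [if_pos ha2]
          exact ha2
        refine (Finset.sum_le_sum h4).trans ?_
        rw [Finset.sum_const, nsmul_eq_mul]
        have h5 : ((U.filter fun a => Hv p M U (padicValInt p a)).card : ℝ) ≤ U.card := by
          exact_mod_cast Finset.card_le_card (Finset.filter_subset _ _)
        calc ((U.filter fun a => Hv p M U (padicValInt p a)).card : ℝ) * (M / U.card) ≤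
              U.card * (M / U.card) := mul_le_mul_of_nonneg_right h5 (by positivity)
          _ = M := by field_simp
      · have h4 : ∀ a ∈ U.filter (fun a => ¬ Hv p M U (padicValInt p a)),
            (1 : ℝ) / (C a).card = 1 / L.card := by
          intro a ha
          obtain ⟨ha1, ha2⟩ := Finset.mem_filter.1 ha
          simp only [C]
          rw [if_neg ha2]
        rw [Finset.sum_congr rfl h4, Finset.sum_const, nsmul_eq_mul]
        have h5 : U.filter (fun a => ¬ Hv p M U (padicValInt p a)) = L := by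
          ext a
          rw [Finset.mem_filter, hL, mem_Lt]
        rw [h5]
        rcases L.eq_empty_or_nonempty with he | hne
        · rw [he]; simp
        · have : (L.card : ℝ) ≠ 0 := by exact_mod_cast hne.card_pos.ne'
          rw [mul_one_div, div_self this]
    have h4 : ∑ a ∈ U, (U.card : ℝ) / (C a).card = U.card * ∑ a ∈ U, (1 : ℝ) / (C a).card := by
      rw [Finset.mul_sum]
      refine Finset.sum_congr rfl fun a _ => ?_
      rw [mul_one_div]
    rw [h4]
    exact mul_le_mul_of_nonneg_left h3 hU0.le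
  -- the light part
  have hEsN : ∀ n, ((Es p L n).card : ℝ) ≤ U.card / M := by
    intro n
    rcases (Es p L n).eq_empty_or_nonempty with he | ⟨x, hx⟩
    · rw [he]
      simp only [Finset.card_empty, Nat.cast_zero]
      positivity
    · obtain ⟨hx1, hx2⟩ := mem_Es.1 hx
      have h3 := (mem_Lt.1 hx1).2
      rw [hx2] at h3
      unfold Hv at h3
      push Not at h3
      have h4 : ((Es p L n).card : ℝ) ≤ (Es p U n).card := by
        exact_mod_cast Finset.card_le_card (Finset.filter_subset_filter _ hLU)
      rw [le_div_iff₀ hM]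
      nlinarith
  have h0L : (0 : ℤ) ∉ L := fun h => h0 (hLU h)
  have hsp := spine h0L hEsN hK V
  rw [← hc] at hsp
  have hlight : K * ((U.card : ℝ) / M * (1 + Real.log L.card)) * (V.card * Real.log V.card) ≤
      U.card * V.card * (K / M * ((1 + Real.log U.card) * Real.log V.card)) := by
    have h3 : Real.log L.card ≤ Real.log U.card := by
      rcases L.eq_empty_or_nonempty with he | hne
      · rw [he]
        simp only [Finset.card_empty, Nat.cast_zero, Real.log_zero]
        exact Real.log_natCast_nonneg _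
      · refine Real.log_le_log (by exact_mod_cast hne.card_pos) ?_
        exact_mod_cast Finset.card_le_card hLU
    have hV1 : 0 ≤ Real.log V.card := Real.log_natCast_nonneg _
    have hK0 : 0 < K := by linarith
    calc K * ((U.card : ℝ) / M * (1 + Real.log L.card)) * (V.card * Real.log V.card) =
          (U.card * V.card * (K / M) * Real.log V.card) * (1 + Real.log L.card) := by ring
      _ ≤ (U.card * V.card * (K / M) * Real.log V.card) * (1 + Real.log U.card) :=
          mul_le_mul_of_nonneg_left (by linarith) (by positivity)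
      _ = _ := by ring
  -- combine
  have h3 : (V.card : ℝ) * ∑ a ∈ U, Del c (C a) V ≤
      (∑ a ∈ U, ∑ b ∈ V, Del c (uc p M U a) (cls (mo p M U a) V b)) +
      K * ((U.card : ℝ) / M * (1 + Real.log L.card)) * (V.card * Real.log V.card) := by
    rw [← Finset.sum_filter_add_sum_filter_not U (fun a => Hv p M U (padicValInt p a))
        (fun a => Del c (C a) V),
      ← Finset.sum_filter_add_sum_filter_not U (fun a => Hv p M U (padicValInt p a))
        (fun a => ∑ b ∈ V, Del c (uc p M U a) (cls (mo p M U a) V b))]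
    have h5 : U.filter (fun a => ¬ Hv p M U (padicValInt p a)) = L := by
      ext a
      rw [Finset.mem_filter, hL, mem_Lt]
    have e1 : ∀ a ∈ U.filter (fun a => Hv p M U (padicValInt p a)),
        ∑ b ∈ V, Del c (uc p M U a) (cls (mo p M U a) V b) = V.card * Del c (C a) V := by
      intro a ha
      have ha2 := (Finset.mem_filter.1 ha).2
      have e2 : ∀ b ∈ V, Del c (uc p M U a) (cls (mo p M U a) V b) = Del c (C a) V := by
        intro b _
        have e3 : cls (mo p M U a) V b = V := by
          ext z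
          rw [mem_cls]
          unfold mo
          rw [if_pos ha2]
          simp
        have e4 : uc p M U a = C a := by
          unfold uc
          simp only [C]
          rw [if_pos ha2, if_pos ha2]
        rw [e3, e4]
      rw [Finset.sum_congr rfl e2, Finset.sum_const, nsmul_eq_mul]
    have e2 : ∀ a ∈ L, Del c (C a) V = Del c L V := by
      intro a ha
      simp only [C]
      rw [if_neg (mem_Lt.1 ha).2]
    have e3 : ∀ a ∈ L, ∑ b ∈ V, Del c (uc p M U a) (cls (mo p M U a) V b) =
        ∑ b ∈ V, Del c (cls ((p : ℤ) ^ (padicValInt p a + 1)) L a)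
          (cls ((p : ℤ) ^ (padicValInt p a + 1)) V b) := by
      intro a ha
      refine Finset.sum_congr rfl fun b _ => ?_
      unfold uc mo
      rw [if_neg (mem_Lt.1 ha).2, if_neg (mem_Lt.1 ha).2]
    rw [Finset.sum_congr rfl e1, ← Finset.mul_sum, h5, Finset.sum_congr rfl e2,
      Finset.sum_congr rfl e3, Finset.sum_const, nsmul_eq_mul]
    linarith
  have h4 := mul_le_mul_of_nonneg_left h1 hV0.le
  have h5 := mul_le_mul_of_nonneg_left h2 hV0.le
  rw [mul_add] at h4
  linarith

end

end Pool.Agent.W219.SP
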