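import Pool.Agent.W219.SP.Stage

/-!
Revealing the valuations at all primes of a finite set.
-/

set_option autoImplicit false

namespace Pool.Agent.W219.SP

open Finset
open scoped Pointwise

/-- a partition of `A` together with a modulus for each cell -/
structure St (A : Finset ℤ) where
  C : ℤ → Finset ℤ
  m : ℤ → ℤ
  sub : ∀ a ∈ A, C a ⊆ A
  self : ∀ a ∈ A, a ∈ C a
  cong : ∀ a ∈ A, ∀ x ∈ C a, C x = C a
  mcong : ∀ a ∈ A, ∀ x ∈ C a, m x = m a

/-- total defect of a state -/
noncomputable def St.S {A : Finset ℤ} (s : St A) (c : ℝ) (B : Finset ℤ) : ℝ :=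
  ∑ a ∈ A, ∑ b ∈ B, Del c (s.C a) (cls (s.m a) B b)

theorem St.avg {A : Finset ℤ} (s : St A) (B : Finset ℤ) (f : ℤ → ℤ → ℝ) :
    ∑ a ∈ A, ∑ b ∈ B, (1 / ((s.C a).card : ℝ)) * (1 / ((cls (s.m a) B b).card : ℝ)) *
      ∑ x ∈ s.C a, ∑ y ∈ cls (s.m a) B b, f x y = ∑ x ∈ A, ∑ y ∈ B, f x y := by
  rw [← avg_gen A s.C s.sub s.self s.cong fun x => ∑ y ∈ B, f x y]
  refine Finset.sum_congr rfl fun a _ => ?_
  have h1 : ∀ x ∈ s.C a, ∑ y ∈ B, f x y =
      ∑ b ∈ B, (1 / ((cls (s.m a) B b).card : ℝ)) * ∑ y ∈ cls (s.m a) B b, f x y :=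
    fun x _ => (avg_cls (s.m a) B (f x)).symm
  rw [Finset.sum_congr rfl h1, Finset.sum_comm, Finset.mul_sum]
  refine Finset.sum_congr rfl fun b _ => ?_
  rw [← Finset.mul_sum]
  ring

theorem cls_lcm {q q' : ℤ} {B : Finset ℤ} {b y : ℤ} (hy : y ∈ cls q B b) :
    cls q' (cls q B b) y = cls (lcm q q') B y := by
  obtain ⟨_, hy2⟩ := mem_cls.1 hy
  ext z
  rw [mem_cls, mem_cls, mem_cls, _root_.lcm_dvd_iff]
  constructor
  · rintro ⟨⟨h1, h2⟩, h3⟩
    refine ⟨h1, ?_, h3⟩
    have := dvd_sub h2 hy2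
    rwa [show z - b - (y - b) = z - y by ring] at this
  · rintro ⟨h1, h2, h3⟩
    refine ⟨⟨h1, ?_⟩, h3⟩
    have := dvd_add h2 hy2
    rwa [show z - y + (y - b) = z - b by ring] at this

theorem cls_one (B : Finset ℤ) (b : ℤ) : cls 1 B b = B := by
  ext z
  simp [mem_cls]

/-- the next state -/
noncomputable def St.next {A : Finset ℤ} (s : St A) (h0 : (0 : ℤ) ∉ A) (p : ℕ)
    [hp : Fact p.Prime] (M : ℝ) : St A where
  C a := uc p M (s.C a) a
  m a := lcm (s.m a) (mo p M (s.C a) a)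
  sub a ha := (uc_sub a).trans (s.sub a ha)
  self a ha := uc_self (s.self a ha)
  cong a ha x hx := by
    have h1 : x ∈ s.C a := uc_sub a hx
    rw [s.cong a ha x h1]
    exact uc_congr (fun h => h0 (s.sub a ha h)) (s.self a ha) hx
  mcong a ha x hx := by
    have h1 : x ∈ s.C a := uc_sub a hx
    rw [s.cong a ha x h1, s.mcong a ha x h1,
      mo_congr (fun h => h0 (s.sub a ha h)) (s.self a ha) hx]

theorem St.next_le {A : Finset ℤ} (s : St A) (h0 : (0 : ℤ) ∉ A) (p : ℕ)
    [hp : Fact p.Prime] {M : ℝ} (hM : 0 < M) {K : ℝ} (hK : 1 < K) (B : Finset ℤ) :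
    s.S (3 / Real.log K) B ≤ (s.next h0 p M).S (3 / Real.log K) B +
      A.card * B.card * (Real.log (M + 1) +
        K / M * ((1 + Real.log A.card) * Real.log B.card)) := by
  have hK0 : 0 < K := by linarith
  unfold St.S
  rw [← s.avg B fun x y => Del (3 / Real.log K) ((s.next h0 p M).C x)
    (cls ((s.next h0 p M).m x) B y)]
  have h1 : ∀ a ∈ A, ∀ b ∈ B, Del (3 / Real.log K) (s.C a) (cls (s.m a) B b) ≤
      (1 / ((s.C a).card : ℝ)) * (1 / ((cls (s.m a) B b).card : ℝ)) *
      (∑ x ∈ s.C a, ∑ y ∈ cls (s.m a) B b, Del (3 / Real.log K) ((s.next h0 p M).C x)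
        (cls ((s.next h0 p M).m x) B y)) + (Real.log (M + 1) +
        K / M * ((1 + Real.log A.card) * Real.log B.card)) := by
    intro a ha b hb
    have hU : (s.C a).Nonempty := ⟨a, s.self a ha⟩
    have hV : (cls (s.m a) B b).Nonempty := ⟨b, self_mem_cls hb⟩
    have hU0 : (0 : ℝ) < (s.C a).card := by exact_mod_cast hU.card_pos
    have hV0 : (0 : ℝ) < (cls (s.m a) B b).card := by exact_mod_cast hV.card_pos
    have h2 := stage (p := p) hM hK (fun h => h0 (s.sub a ha h)) hU _ hV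
    have h3 : ∑ x ∈ s.C a, ∑ y ∈ cls (s.m a) B b, Del (3 / Real.log K) (uc p M (s.C a) x)
        (cls (mo p M (s.C a) x) (cls (s.m a) B b) y) =
        ∑ x ∈ s.C a, ∑ y ∈ cls (s.m a) B b, Del (3 / Real.log K) ((s.next h0 p M).C x)
        (cls ((s.next h0 p M).m x) B y) := by
      refine Finset.sum_congr rfl fun x hx => Finset.sum_congr rfl fun y hy => ?_
      simp only [St.next]
      rw [s.cong a ha x hx, s.mcong a ha x hx, cls_lcm hy]
    rw [h3] at h2
    have h4 := mul_le_mul_of_nonneg_left h2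
      (show 0 ≤ (1 / ((s.C a).card : ℝ)) * (1 / ((cls (s.m a) B b).card : ℝ)) by positivity)
    have h5 : (1 / ((s.C a).card : ℝ)) * (1 / ((cls (s.m a) B b).card : ℝ)) *
        ((s.C a).card * (cls (s.m a) B b).card) = 1 := by field_simp
    rw [← mul_assoc, h5, one_mul, mul_add, ← mul_assoc ((1 / ((s.C a).card : ℝ)) *
      (1 / ((cls (s.m a) B b).card : ℝ))) ((s.C a).card * (cls (s.m a) B b).card : ℝ), h5,
      one_mul] at h4
    refine h4.trans (add_le_add le_rfl (add_le_add le_rfl ?_))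
    refine mul_le_mul_of_nonneg_left ?_ (by positivity)
    have e1 : Real.log (s.C a).card ≤ Real.log A.card := Real.log_le_log hU0
      (by exact_mod_cast Finset.card_le_card (s.sub a ha))
    have e2 : Real.log (cls (s.m a) B b).card ≤ Real.log B.card := Real.log_le_log hV0
      (by exact_mod_cast Finset.card_le_card (cls_sub _ _ _))
    have e3 : 0 ≤ Real.log (cls (s.m a) B b).card := Real.log_natCast_nonneg _
    have e4 : 0 ≤ Real.log A.card := Real.log_natCast_nonneg _
    exact mul_le_mul (by linarith) e2 e3 (by linarith)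
  refine (Finset.sum_le_sum fun a ha => Finset.sum_le_sum fun b hb => h1 a ha b hb).trans
    (le_of_eq ?_)
  simp only [Finset.sum_add_distrib, Finset.sum_const, nsmul_eq_mul]
  ring

/-- all valuations at the primes of `T` can be made constant on the cells -/
theorem exists_state {A : Finset ℤ} (h0 : (0 : ℤ) ∉ A) (T : Finset ℕ) (hT : ∀ p ∈ T, p.Prime)
    {M : ℝ} (hM : 0 < M) {K : ℝ} (hK : 1 < K) (B : Finset ℤ) :
    ∃ s : St A, (∀ p ∈ T, ∀ a ∈ A, ∀ x ∈ s.C a, padicValInt p x = padicValInt p a) ∧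
      (A.card : ℝ) * B.card * Del (3 / Real.log K) A B ≤ s.S (3 / Real.log K) B +
      T.card * (A.card * B.card * (Real.log (M + 1) +
        K / M * ((1 + Real.log A.card) * Real.log B.card))) := by
  classical
  induction T using Finset.induction_on with
  | empty =>
    refine ⟨⟨fun _ => A, fun _ => 1, fun _ _ => Finset.Subset.refl A, fun _ h => h,
      fun _ _ _ _ => rfl, fun _ _ _ _ => rfl⟩, by simp, ?_⟩
    unfold St.S
    simp only [cls_one, Finset.sum_const, nsmul_eq_mul, Finset.card_empty, Nat.cast_zero,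
      zero_mul, add_zero]
    exact le_of_eq (by ring)
  | insert p T hpT ih =>
    obtain ⟨s, hs1, hs2⟩ := ih fun q hq => hT q (Finset.mem_insert_of_mem hq)
    have hp := Fact.mk (hT p (Finset.mem_insert_self _ _))
    refine ⟨s.next h0 p M, ?_, ?_⟩
    · intro q hq a ha x hx
      rcases Finset.mem_insert.1 hq with h | h
      · subst h
        exact uc_val (fun h => h0 (s.sub a ha h)) (s.self a ha) hx
      · exact hs1 q h a ha x (uc_sub a hx)
    · have h1 := s.next_le h0 p hM hK B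
      rw [Finset.card_insert_of_notMem hpT]
      push_cast
      linarith

end Pool.Agent.W219.SP
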