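import Pool.Agent.W219.SP.Cell2

/-!
The multi-level inequality: the defect of `|A + B|` is controlled by the correlations of the
entropies of the digits of `A` and `B`.
-/

set_option autoImplicit false

namespace Pool.Agent.W219.SP

open Finset
open scoped Pointwise

theorem cls_cls {q q' : ℤ} (hq : q ∣ q') {A : Finset ℤ} {a x : ℤ} (hx : x ∈ cls q A a) :
    cls q' (cls q A a) x = cls q' A x := by
  ext z
  simp only [mem_cls]
  constructor
  · rintro ⟨⟨h1, _⟩, h2⟩
    exact ⟨h1, h2⟩
  · rintro ⟨h1, h2⟩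
    refine ⟨⟨h1, ?_⟩, h2⟩
    have := dvd_add (hq.trans h2) (mem_cls.1 hx).2
    rwa [show z - x + (x - a) = z - a by ring] at this

/-- total logarithmic drop from the classes modulo `q` to the classes modulo `q'` -/
noncomputable def drop (q q' : ℤ) (A : Finset ℤ) : ℝ :=
  ∑ x ∈ A, Real.log ((cls q A x).card / (cls q' A x).card)

theorem drop_nonneg {q q' : ℤ} (hq : q ∣ q') (A : Finset ℤ) : 0 ≤ drop q q' A := by
  refine Finset.sum_nonneg fun x hx => Real.log_nonneg ?_
  rw [le_div_iff₀ (cls_posR hx), one_mul]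
  have : cls q' A x ⊆ cls q A x := by
    intro z hz
    rw [mem_cls] at hz ⊢
    exact ⟨hz.1, hq.trans hz.2⟩
  exact_mod_cast Finset.card_le_card this

theorem sum_ent {q q' : ℤ} (hq : q ∣ q') (A : Finset ℤ) :
    ∑ a ∈ A, ent q' (cls q A a) = drop q q' A := by
  unfold drop
  refine Eq.trans ?_ (avg_cls q A fun x => Real.log ((cls q A x).card / (cls q' A x).card))
  refine Finset.sum_congr rfl fun a ha => ?_
  unfold ent
  rw [div_eq_inv_mul, one_div]
  congr 1
  refine Finset.sum_congr rfl fun x hx => ?_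
  rw [cls_cls hq hx, cls_congr (mem_cls.1 hx).2]

noncomputable def Phi (q : ℤ) (A B : Finset ℤ) : ℝ :=
  ∑ a ∈ A, ∑ b ∈ B, Real.log (Gam q A B a b)

theorem avg_two (q : ℤ) (A B : Finset ℤ) (F : ℤ → ℤ → ℝ) :
    ∑ a ∈ A, ∑ b ∈ B, (1 / ((cls q A a).card : ℝ)) * (1 / ((cls q B b).card : ℝ)) *
      ∑ x ∈ cls q A a, ∑ y ∈ cls q B b, F x y = ∑ x ∈ A, ∑ y ∈ B, F x y := by
  rw [← avg_cls q A fun x => ∑ y ∈ B, F x y]
  refine Finset.sum_congr rfl fun a _ => ?_
  have h1 : ∀ x ∈ cls q A a, ∑ y ∈ B, F x y =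
      ∑ b ∈ B, (1 / ((cls q B b).card : ℝ)) * ∑ y ∈ cls q B b, F x y :=
    fun x _ => (avg_cls q B (F x)).symm
  rw [Finset.sum_congr rfl h1, Finset.sum_comm, Finset.mul_sum]
  refine Finset.sum_congr rfl fun b _ => ?_
  rw [← Finset.mul_sum]
  ring

theorem step {q q' : ℤ} (hq : q ∣ q') (A B : Finset ℤ) {K : ℝ} (hK : 1 < K) :
    Phi q' A B ≤ Phi q A B + (3 / Real.log K * (B.card * drop q q' A + A.card * drop q q' B) +
      K * (drop q q' A * drop q q' B)) := by
  unfold Phi
  rw [← avg_two q A B]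
  have h1 : ∀ a ∈ A, ∀ b ∈ B, (1 / ((cls q A a).card : ℝ)) * (1 / ((cls q B b).card : ℝ)) *
      ∑ x ∈ cls q A a, ∑ y ∈ cls q B b, Real.log (Gam q' A B x y) ≤
      Real.log (Gam q A B a b) + (3 / Real.log K * (ent q' (cls q A a) + ent q' (cls q B b)) +
        K * (ent q' (cls q A a) * ent q' (cls q B b))) := by
    intro a ha b hb
    have hU : (cls q A a).Nonempty := ⟨a, self_mem_cls ha⟩
    have hV : (cls q B b).Nonempty := ⟨b, self_mem_cls hb⟩
    have hU0 : (0 : ℝ) < (cls q A a).card := cls_posR ha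
    have hV0 : (0 : ℝ) < (cls q B b).card := cls_posR hb
    have h := cell q' (cls q A a) (cls q B b) hU hV hK
    have h2 : ∑ x ∈ cls q A a, ∑ y ∈ cls q B b, Real.log (Gam q' (cls q A a) (cls q B b) x y) =
        ∑ x ∈ cls q A a, ∑ y ∈ cls q B b, Real.log (Gam q' A B x y) := by
      refine Finset.sum_congr rfl fun x hx => Finset.sum_congr rfl fun y hy => ?_
      unfold Gam
      rw [cls_cls hq hx, cls_cls hq hy]
    rw [h2] at h
    have h3 := mul_le_mul_of_nonneg_left h
      (show 0 ≤ (1 / ((cls q A a).card : ℝ)) * (1 / ((cls q B b).card : ℝ)) by positivity)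
    refine h3.trans (le_of_eq ?_)
    rw [← mul_assoc, show (1 / ((cls q A a).card : ℝ)) * (1 / ((cls q B b).card : ℝ)) *
      ((cls q A a).card * (cls q B b).card) = 1 by field_simp, one_mul]
    rfl
  refine (Finset.sum_le_sum fun a ha => Finset.sum_le_sum fun b hb => h1 a ha b hb).trans
    (le_of_eq ?_)
  have e1 := sum_ent hq A
  have e2 := sum_ent hq B
  simp only [Finset.sum_add_distrib, ← Finset.mul_sum, Finset.sum_const, nsmul_eq_mul, e2,
    ← Finset.sum_mul, e1]

/-- the total drop over all levels -/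
theorem sum_drop (p : ℤ) (A : Finset ℤ) (J : ℕ)
    (hJ : ∀ x ∈ A, ∀ y ∈ A, p ^ J ∣ x - y → x = y) :
    ∑ j ∈ Finset.range J, drop (p ^ j) (p ^ (j + 1)) A = A.card * Real.log A.card := by
  unfold drop
  rw [Finset.sum_comm]
  have h1 : ∀ x ∈ A, ∑ j ∈ Finset.range J,
      Real.log ((cls (p ^ j) A x).card / (cls (p ^ (j + 1)) A x).card) = Real.log A.card := by
    intro x hx
    have h2 : ∀ j ∈ Finset.range J,
        Real.log ((cls (p ^ j) A x).card / (cls (p ^ (j + 1)) A x).card) =
        Real.log (cls (p ^ j) A x).card - Real.log (cls (p ^ (j + 1)) A x).card := by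
      intro j _
      rw [Real.log_div (cls_posR hx).ne' (cls_posR hx).ne']
    rw [Finset.sum_congr rfl h2, Finset.sum_range_sub']
    have h3 : cls (p ^ 0) A x = A := by
      ext z; simp [mem_cls]
    have h4 : cls (p ^ J) A x = {x} := by
      ext z
      rw [mem_cls, Finset.mem_singleton]
      exact ⟨fun h => hJ z h.1 x hx h.2, fun h => by subst h; exact ⟨hx, by simp⟩⟩
    rw [h3, h4]
    simp
  rw [Finset.sum_congr rfl h1, Finset.sum_const, nsmul_eq_mul]

/-- the multi-level inequality -/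
theorem star (p : ℤ) (A B : Finset ℤ) (hA : A.Nonempty) (hB : B.Nonempty) {K : ℝ} (hK : 1 < K)
    (J : ℕ) (hJA : ∀ x ∈ A, ∀ y ∈ A, p ^ J ∣ x - y → x = y)
    (hJB : ∀ x ∈ B, ∀ y ∈ B, p ^ J ∣ x - y → x = y) :
    Real.log A.card + Real.log B.card - Real.log (A + B).card ≤
      3 / Real.log K * (Real.log A.card + Real.log B.card) +
      K * ((∑ j ∈ Finset.range J, drop (p ^ j) (p ^ (j + 1)) A * drop (p ^ j) (p ^ (j + 1)) B) /
        (A.card * B.card)) := by
  have hA0 : (0 : ℝ) < A.card := by exact_mod_cast hA.card_pos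
  have hB0 : (0 : ℝ) < B.card := by exact_mod_cast hB.card_pos
  have hAB0 : (0 : ℝ) < (A + B).card := by exact_mod_cast (hA.add hB).card_pos
  have hs : ∀ n : ℕ, Phi (p ^ n) A B ≤ Phi (p ^ 0) A B + ∑ j ∈ Finset.range n,
      (3 / Real.log K * (B.card * drop (p ^ j) (p ^ (j + 1)) A +
        A.card * drop (p ^ j) (p ^ (j + 1)) B) +
      K * (drop (p ^ j) (p ^ (j + 1)) A * drop (p ^ j) (p ^ (j + 1)) B)) := by
    intro n
    induction n with
    | zero => simp
    | succ n ih =>
      rw [Finset.sum_range_succ]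
      have := step (pow_dvd_pow p (Nat.le_succ n)) A B hK
      linarith
  have h0 : Phi (p ^ 0) A B = A.card * B.card * Real.log ((A + B).card / (A.card * B.card)) := by
    unfold Phi
    have h1 : ∀ a ∈ A, ∀ b ∈ B, Real.log (Gam (p ^ 0) A B a b) =
        Real.log ((A + B).card / (A.card * B.card)) := by
      intro a _ b _
      have h2 : cls (p ^ 0) A a = A := by ext z; simp [mem_cls]
      have h3 : cls (p ^ 0) B b = B := by ext z; simp [mem_cls]
      unfold Gam
      rw [h2, h3]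
    rw [Finset.sum_congr rfl fun a ha => Finset.sum_congr rfl fun b hb => h1 a ha b hb]
    simp only [Finset.sum_const, nsmul_eq_mul]
    ring
  have hJ : Phi (p ^ J) A B = 0 := by
    unfold Phi
    refine Finset.sum_eq_zero fun a ha => Finset.sum_eq_zero fun b hb => ?_
    have h2 : cls (p ^ J) A a = {a} := by
      ext z
      rw [mem_cls, Finset.mem_singleton]
      exact ⟨fun h => hJA z h.1 a ha h.2, fun h => by subst h; exact ⟨ha, by simp⟩⟩
    have h3 : cls (p ^ J) B b = {b} := by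
      ext z
      rw [mem_cls, Finset.mem_singleton]
      exact ⟨fun h => hJB z h.1 b hb h.2, fun h => by subst h; exact ⟨hb, by simp⟩⟩
    unfold Gam
    rw [h2, h3]
    simp
  have h := hs J
  rw [hJ, h0, Finset.sum_add_distrib, ← Finset.mul_sum, ← Finset.mul_sum,
    Finset.sum_add_distrib, ← Finset.mul_sum, ← Finset.mul_sum, sum_drop p A J hJA,
    sum_drop p B J hJB, Real.log_div hAB0.ne' (by positivity),
    Real.log_mul hA0.ne' hB0.ne'] at h
  have h1 : 0 ≤ (A.card : ℝ) * B.card * (Real.log (A + B).card -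
      (Real.log A.card + Real.log B.card) + 3 / Real.log K * (Real.log A.card +
        Real.log B.card) + K * ((∑ j ∈ Finset.range J, drop (p ^ j) (p ^ (j + 1)) A *
        drop (p ^ j) (p ^ (j + 1)) B) / (A.card * B.card))) := by
    refine h.trans (le_of_eq ?_)
    field_simp
    ring
  have h2 := nonneg_of_mul_nonneg_right h1 (by positivity)
  linarith

/-- the multi-level inequality when the drops of `A` are uniformly small -/
theorem star_unif (p : ℤ) (A B : Finset ℤ) (hA : A.Nonempty) (hB : B.Nonempty) {K : ℝ}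
    (hK : 1 < K) (J : ℕ) (hJA : ∀ x ∈ A, ∀ y ∈ A, p ^ J ∣ x - y → x = y)
    (hJB : ∀ x ∈ B, ∀ y ∈ B, p ^ J ∣ x - y → x = y) (α : ℝ)
    (hα : ∀ j < J, drop (p ^ j) (p ^ (j + 1)) A ≤ A.card * α) :
    Real.log A.card + Real.log B.card - Real.log (A + B).card ≤
      3 / Real.log K * (Real.log A.card + Real.log B.card) + K * (α * Real.log B.card) := by
  have hA0 : (0 : ℝ) < A.card := by exact_mod_cast hA.card_pos
  have hB0 : (0 : ℝ) < B.card := by exact_mod_cast hB.card_pos
  refine (star p A B hA hB hK J hJA hJB).trans ?_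
  have h1 : ∑ j ∈ Finset.range J, drop (p ^ j) (p ^ (j + 1)) A * drop (p ^ j) (p ^ (j + 1)) B ≤
      A.card * α * (B.card * Real.log B.card) := by
    rw [← sum_drop p B J hJB, Finset.mul_sum]
    refine Finset.sum_le_sum fun j hj => ?_
    exact mul_le_mul_of_nonneg_right (hα j (Finset.mem_range.1 hj))
      (drop_nonneg (pow_dvd_pow p (Nat.le_succ j)) B)
  have h2 : (∑ j ∈ Finset.range J, drop (p ^ j) (p ^ (j + 1)) A *
      drop (p ^ j) (p ^ (j + 1)) B) / (A.card * B.card) ≤ α * Real.log B.card := by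
    rw [div_le_iff₀ (by positivity)]
    refine h1.trans (le_of_eq ?_)
    ring
  have h3 := mul_le_mul_of_nonneg_left h2 (by linarith : (0 : ℝ) ≤ K)
  linarith

end Pool.Agent.W219.SP
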